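import Pool.Agent.W_aaa0df_h53.Main1

set_option autoImplicit false

namespace StepH53

open Finset Real MPaaa0df
open scoped Pointwise

/-- the conclusion of the core theorem at height `X` with `m` columns and bound `Bd` -/
def CoreAt (η c X Bd : ℝ) (m : ℕ) : Prop :=
  ∀ (b : Fin m → ℤ × ℤ) (t : Fin m → ℤ) (A : Finset (ℤ × ℤ)) (s : ℤ × ℤ → ℤ),
        (∀ i j, i ≠ j → wedge (b i) (b j) ≠ 0) →
        (∀ a ∈ A, ∀ a' ∈ A, a ≠ a' → wedge a a' ≠ 0) →
        (∀ a ∈ A, ∀ j, Exc η c X (s a * t j * dot a (b j))) →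
        (A.card : ℝ) ≤ Bd

lemma choose_ratio {H M m : ℕ} (hM : 2 * m ≤ M) (hm : 1 ≤ m) :
    (H.choose m : ℝ) ≤ (2 * H / M : ℝ) ^ m * (M.choose m : ℝ) := by
  have hMp : (0 : ℝ) < M := by
    have : 0 < M := by omega
    exact_mod_cast this
  have hf : (0 : ℝ) < (m.factorial : ℝ) := by positivity
  have h1 : (H.choose m : ℝ) ≤ (H : ℝ) ^ m / m.factorial := Nat.choose_le_pow_div m H
  have h2 : (((M + 1 - m : ℕ) : ℝ)) ^ m ≤ m.factorial * (M.choose m : ℝ) := by
    have := Nat.pow_le_choose (α := ℝ) m M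
    rw [div_le_iff₀ hf] at this
    linarith
  have h3 : (M : ℝ) / 2 ≤ ((M + 1 - m : ℕ) : ℝ) := by
    have h4 : ((M + 1 - m : ℕ) : ℝ) = (M : ℝ) + 1 - m := by
      rw [Nat.cast_sub (by omega)]; push_cast; ring
    rw [h4]
    have h5 : (2 * m : ℝ) ≤ M := by exact_mod_cast hM
    linarith
  have h4 : ((M : ℝ) / 2) ^ m ≤ m.factorial * (M.choose m : ℝ) :=
    (pow_le_pow_left₀ (by positivity) h3 m).trans h2
  calc (H.choose m : ℝ) ≤ (H : ℝ) ^ m / m.factorial := h1
    _ = (2 * H / M : ℝ) ^ m * ((M : ℝ) / 2) ^ m / m.factorial := by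
        rw [← mul_pow]
        congr 2
        field_simp
    _ ≤ (2 * H / M : ℝ) ^ m * (m.factorial * (M.choose m : ℝ)) / m.factorial := by
        apply div_le_div_of_nonneg_right _ hf.le
        exact mul_le_mul_of_nonneg_left h4 (by positivity)
    _ = (2 * H / M : ℝ) ^ m * (M.choose m : ℝ) := by field_simp

/-- the counting form -/
lemma counting {η c X Bd : ℝ} {m : ℕ} (hm : 1 ≤ m) (hcore : CoreAt η c X Bd m)
    (A B : Finset ℤ) (M : ℕ) (hM : 2 * m ≤ M)
    (hA : ∀ a ∈ A, ∃ S ⊆ B, M ≤ S.card ∧ ∀ b ∈ S, Exc η c X (a + b)) :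
    (A.card : ℝ) ≤ (2 * B.card / M : ℝ) ^ m * Bd := by
  classical
  -- for every m-subset S the number of a with a + S exceptional is at most Bd
  have h1 : ∀ S ∈ B.powersetCard m,
      ((A.filter (fun a => ∀ b ∈ S, Exc η c X (a + b))).card : ℝ) ≤ Bd := by
    intro S hS
    rw [Finset.mem_powersetCard] at hS
    obtain ⟨_, hcard⟩ := hS
    set e : Fin m ≃ S := (S.equivFinOfCardEq hcard).symm with he
    have h2 := hcore (fun j => (1, (e j : ℤ))) (fun _ => 1)
      ((A.filter (fun a => ∀ b ∈ S, Exc η c X (a + b))).image (fun a => ((a, 1) : ℤ × ℤ)))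
      (fun _ => 1) ?_ ?_ ?_
    · rw [Finset.card_image_of_injective _ (fun a a' h => (Prod.mk.inj h).1)] at h2
      exact h2
    · intro i j hij h
      apply hij
      unfold wedge at h
      have h3 : (e j : ℤ) = (e i : ℤ) := by
        simp only at h
        linarith
      exact e.injective (Subtype.ext h3.symm)
    · intro a ha a' ha' hne h
      rw [Finset.mem_image] at ha ha'
      obtain ⟨x, _, rfl⟩ := ha
      obtain ⟨x', _, rfl⟩ := ha'
      apply hne
      unfold wedge at h
      simp only at h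
      have : x = x' := by linarith
      rw [this]
    · intro a ha j
      rw [Finset.mem_image] at ha
      obtain ⟨x, hx, rfl⟩ := ha
      have h3 := (Finset.mem_filter.1 hx).2 (e j) (e j).2
      have h4 : (1 : ℤ) * 1 * dot (x, 1) (1, (e j : ℤ)) = x + e j := by
        unfold dot; ring
      rw [h4]
      exact h3
  have h2 : (A.card : ℝ) * (M.choose m : ℝ) ≤ (B.card.choose m : ℝ) * Bd := by
    have h3 : (A.card : ℝ) * (M.choose m : ℝ) ≤ ∑ a ∈ A,
        (((B.powersetCard m).filter (fun S => ∀ b ∈ S, Exc η c X (a + b))).card : ℝ) := by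
      rw [← nsmul_eq_mul, ← Finset.sum_const]
      apply Finset.sum_le_sum
      intro a ha
      obtain ⟨S, hSB, hSM, hSE⟩ := hA a ha
      have h4 : S.powersetCard m ⊆ (B.powersetCard m).filter (fun S => ∀ b ∈ S, Exc η c X (a + b)) := by
        intro S' hS'
        rw [Finset.mem_powersetCard] at hS'
        rw [Finset.mem_filter, Finset.mem_powersetCard]
        exact ⟨⟨hS'.1.trans hSB, hS'.2⟩, fun b hb => hSE b (hS'.1 hb)⟩
      have h5 := Finset.card_le_card h4
      rw [Finset.card_powersetCard] at h5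
      have h6 : M.choose m ≤ S.card.choose m := Nat.choose_le_choose m hSM
      exact_mod_cast h6.trans h5
    have h4 : ∑ a ∈ A, (((B.powersetCard m).filter (fun S => ∀ b ∈ S, Exc η c X (a + b))).card : ℝ)
        = ∑ S ∈ B.powersetCard m, ((A.filter (fun a => ∀ b ∈ S, Exc η c X (a + b))).card : ℝ) := by
      have h5 : ∀ a, (((B.powersetCard m).filter (fun S => ∀ b ∈ S, Exc η c X (a + b))).card : ℝ)
          = ∑ S ∈ B.powersetCard m, if (∀ b ∈ S, Exc η c X (a + b)) then (1 : ℝ) else 0 := by
        intro a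
        rw [← Finset.sum_filter, Finset.sum_const, nsmul_eq_mul, mul_one]
      have h6 : ∀ S : Finset ℤ, ((A.filter (fun a => ∀ b ∈ S, Exc η c X (a + b))).card : ℝ)
          = ∑ a ∈ A, if (∀ b ∈ S, Exc η c X (a + b)) then (1 : ℝ) else 0 := by
        intro S
        rw [← Finset.sum_filter, Finset.sum_const, nsmul_eq_mul, mul_one]
      rw [Finset.sum_congr rfl (fun a _ => h5 a), Finset.sum_congr rfl (fun S _ => h6 S),
        Finset.sum_comm]
    calc (A.card : ℝ) * (M.choose m : ℝ) ≤ _ := h3
      _ = _ := h4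
      _ ≤ ∑ _S ∈ B.powersetCard m, Bd := Finset.sum_le_sum h1
      _ = (B.card.choose m : ℝ) * Bd := by
          rw [Finset.sum_const, Finset.card_powersetCard, nsmul_eq_mul]
  have hBd : 0 ≤ Bd := by
    have := hcore (fun j => (1, (j : ℤ))) (fun _ => 1) ∅ (fun _ => 1) (by
      intro i j hij h
      apply hij
      unfold wedge at h
      simp only at h
      have : (j : ℤ) = (i : ℤ) := by linarith
      exact Fin.ext (by exact_mod_cast this.symm)) (by simp) (by simp)
    simpa using this
  have hMc : (0 : ℝ) < (M.choose m : ℝ) := by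
    have : 0 < M.choose m := Nat.choose_pos (by omega)
    exact_mod_cast this
  have h3 := choose_ratio (H := B.card) hM hm
  have h4 : (A.card : ℝ) * (M.choose m : ℝ) ≤ ((2 * B.card / M : ℝ) ^ m * Bd) * (M.choose m : ℝ) := by
    calc (A.card : ℝ) * (M.choose m : ℝ) ≤ (B.card.choose m : ℝ) * Bd := h2
      _ ≤ ((2 * B.card / M : ℝ) ^ m * (M.choose m : ℝ)) * Bd := mul_le_mul_of_nonneg_right h3 hBd
      _ = _ := by ring
  exact le_of_mul_le_mul_right h4 hMc

/-- sets of small doubling -/
lemma doubling {η c X Bd : ℝ} {m : ℕ} (hm : 1 ≤ m) (hBd : 1 ≤ Bd) (hcore : CoreAt η c X Bd m)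
    (T : Finset ℤ) (K δ : ℝ) (hK : 1 ≤ K) (hδ : 0 < δ) (hδ1 : δ ≤ 1)
    (hT : ((T + T).card : ℝ) ≤ K * T.card)
    (E : Finset ℤ) (hET : E ⊆ T) (hE : ∀ d ∈ E, Exc η c X d) (hEc : δ * T.card ≤ E.card) :
    (T.card : ℝ) ≤ 2 / δ * (4 * K / δ) ^ m * Bd := by
  classical
  have hKδ : (1 : ℝ) ≤ K / δ := by rw [le_div_iff₀ hδ]; linarith
  by_cases hsmall : δ * T.card / (2 * K) < 2 * m
  · have h1 : (T.card : ℝ) < 4 * m * (K / δ) := by
      rw [div_lt_iff₀ (by positivity)] at hsmall
      have h2 : (T.card : ℝ) = δ * T.card / δ := by field_simp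
      rw [h2]
      calc δ * T.card / δ < 2 * m * (2 * K) / δ := div_lt_div_of_pos_right hsmall hδ
        _ = 4 * m * (K / δ) := by ring
    have h2 : (m : ℝ) * (K / δ) ≤ (4 * K / δ) ^ m := by
      have h3 : (4 * K / δ) ^ m = 4 ^ m * (K / δ) ^ m := by
        rw [← mul_pow]; congr 1; ring
      rw [h3]
      have h4 : (m : ℝ) ≤ 4 ^ m := by
        have : m < 4 ^ m := Nat.lt_pow_self (by norm_num)
        exact_mod_cast this.le
      have h5 : K / δ ≤ (K / δ) ^ m := by
        calc K / δ = (K / δ) ^ 1 := (pow_one _).symm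
          _ ≤ (K / δ) ^ m := pow_le_pow_right₀ hKδ hm
      exact mul_le_mul h4 h5 (by positivity) (by positivity)
    have h3 : (2 : ℝ) ≤ 2 / δ := by
      rw [le_div_iff₀ hδ]; linarith
    have h4 : 0 ≤ (4 * K / δ) ^ m := by positivity
    -- crude: 4 m K/δ ≤ 2/δ (4K/δ)^m Bd needs a factor 2
    have h5 : 2 * ((m : ℝ) * (K / δ)) ≤ (4 * K / δ) ^ m := by
      have h3' : (4 * K / δ) ^ m = 4 ^ m * (K / δ) ^ m := by
        rw [← mul_pow]; congr 1; ring
      rw [h3']
      have h4' : 2 * (m : ℝ) ≤ 4 ^ m := by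
        have : ∀ n : ℕ, 1 ≤ n → 2 * n ≤ 4 ^ n := by
          intro n hn
          induction n, hn using Nat.le_induction with
          | base => norm_num
          | succ n hn ih => rw [pow_succ]; omega
        exact_mod_cast this m hm
      have h5' : K / δ ≤ (K / δ) ^ m := by
        calc K / δ = (K / δ) ^ 1 := (pow_one _).symm
          _ ≤ (K / δ) ^ m := pow_le_pow_right₀ hKδ hm
      calc 2 * ((m : ℝ) * (K / δ)) = (2 * m) * (K / δ) := by ring
        _ ≤ 4 ^ m * (K / δ) ^ m := mul_le_mul h4' h5' (by positivity) (by positivity)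
    have h6 : (4 * K / δ) ^ m ≤ (4 * K / δ) ^ m * Bd := le_mul_of_one_le_right h4 hBd
    calc (T.card : ℝ) ≤ 4 * m * (K / δ) := h1.le
      _ = 2 * (2 * ((m : ℝ) * (K / δ))) := by ring
      _ ≤ 2 * ((4 * K / δ) ^ m * Bd) := by linarith
      _ ≤ 2 / δ * ((4 * K / δ) ^ m * Bd) := by
          apply mul_le_mul_of_nonneg_right h3; positivity
      _ = _ := by ring
  · push Not at hsmall
    set M : ℕ := ⌈δ * T.card / (2 * K)⌉₊ with hM
    have hM1 : δ * T.card / (2 * K) ≤ M := Nat.le_ceil _
    have hM2 : 2 * m ≤ M := by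
      have : (2 * m : ℝ) ≤ M := hsmall.trans hM1
      exact_mod_cast this
    set B : Finset ℤ := T.image (fun x => -x) with hB
    have hBcard : B.card = T.card := Finset.card_image_of_injective _ neg_injective
    set ex : ℤ → Finset ℤ := fun a => B.filter (fun b => a + b ∈ E) with hex
    set A' : Finset ℤ := (T + T).filter (fun a => M ≤ (ex a).card) with hA'
    have h1 : (A'.card : ℝ) ≤ (2 * B.card / M : ℝ) ^ m * Bd := by
      apply counting hm hcore A' B M hM2
      intro a ha
      refine ⟨ex a, Finset.filter_subset _ _, (Finset.mem_filter.1 ha).2, ?_⟩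
      intro b hb
      exact hE _ (Finset.mem_filter.1 hb).2
    -- double counting
    have h2 : E.card * T.card ≤ ∑ a ∈ T + T, (ex a).card := by
      have h3 : E.card * T.card ≤ ((T + T).sigma (fun a => ex a)).card := by
        rw [← Finset.card_product]
        apply Finset.card_le_card_of_injOn (fun x => ⟨x.1 + x.2, -x.2⟩)
        · rintro ⟨d, t⟩ hx
          rw [Finset.mem_coe, Finset.mem_product] at hx
          rw [Finset.mem_coe, Finset.mem_sigma]
          refine ⟨Finset.add_mem_add (hET hx.1) hx.2, ?_⟩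
          simp only [hex, Finset.mem_filter, hB, Finset.mem_image]
          refine ⟨⟨t, hx.2, rfl⟩, ?_⟩
          have : d + t + -t = d := by ring
          rw [this]; exact hx.1
        · rintro ⟨d, t⟩ _ ⟨d', t'⟩ _ h
          simp only [Sigma.mk.injEq, heq_eq_eq, neg_inj] at h
          obtain ⟨h4, h5⟩ := h
          rw [h5] at h4
          rw [h5, add_right_cancel h4]
      rw [Finset.card_sigma] at h3
      exact h3
    have h3 : ∑ a ∈ T + T, ((ex a).card : ℝ)
        ≤ A'.card * T.card + (T + T).card * (δ * T.card / (2 * K)) := by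
      rw [← Finset.sum_filter_add_sum_filter_not (T + T) (fun a => M ≤ (ex a).card)]
      apply add_le_add
      · calc ∑ a ∈ (T + T).filter (fun a => M ≤ (ex a).card), ((ex a).card : ℝ)
            ≤ ∑ _a ∈ (T + T).filter (fun a => M ≤ (ex a).card), (T.card : ℝ) := by
              apply Finset.sum_le_sum
              intro a _
              have : (ex a).card ≤ B.card := Finset.card_le_card (Finset.filter_subset _ _)
              rw [hBcard] at this
              exact_mod_cast this
          _ = A'.card * T.card := by rw [Finset.sum_const, nsmul_eq_mul]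
      · calc ∑ a ∈ (T + T).filter (fun a => ¬ M ≤ (ex a).card), ((ex a).card : ℝ)
            ≤ ∑ _a ∈ (T + T).filter (fun a => ¬ M ≤ (ex a).card), (δ * T.card / (2 * K)) := by
              apply Finset.sum_le_sum
              intro a ha
              have h4 := (Finset.mem_filter.1 ha).2
              push Not at h4
              exact (Nat.lt_ceil.1 h4).le
          _ = ((T + T).filter (fun a => ¬ M ≤ (ex a).card)).card * (δ * T.card / (2 * K)) := by
              rw [Finset.sum_const, nsmul_eq_mul]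
          _ ≤ (T + T).card * (δ * T.card / (2 * K)) := by
              apply mul_le_mul_of_nonneg_right _ (by positivity)
              exact_mod_cast Finset.card_le_card (Finset.filter_subset _ _)
    have h4 : (E.card : ℝ) * T.card ≤ A'.card * T.card + (T + T).card * (δ * T.card / (2 * K)) := by
      refine le_trans ?_ h3
      exact_mod_cast h2
    have hTpos : (0 : ℝ) < T.card := by
      by_contra h
      have h5 : (T.card : ℝ) = 0 := le_antisymm (not_lt.1 h) (Nat.cast_nonneg _)
      rw [h5] at hsmall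
      have h6 : (0 : ℝ) < 2 * m := by
        have : (1 : ℝ) ≤ m := by exact_mod_cast hm
        linarith
      simp at hsmall
      linarith
    have h5 : ((T + T).card : ℝ) * (δ * T.card / (2 * K)) ≤ T.card * (δ * T.card / 2) := by
      calc ((T + T).card : ℝ) * (δ * T.card / (2 * K)) ≤ (K * T.card) * (δ * T.card / (2 * K)) :=
            mul_le_mul_of_nonneg_right hT (by positivity)
        _ = T.card * (δ * T.card / 2) := by field_simp
    have h6 : δ * T.card / 2 ≤ A'.card := by
      have h7 : δ * T.card * T.card ≤ (E.card : ℝ) * T.card :=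
        mul_le_mul_of_nonneg_right hEc hTpos.le
      have h8 : (T.card : ℝ) * (δ * T.card / 2) ≤ T.card * A'.card := by linarith
      exact le_of_mul_le_mul_left h8 hTpos
    have h7 : (2 * B.card / M : ℝ) ≤ 4 * K / δ := by
      have hMpos : (0 : ℝ) < M := lt_of_lt_of_le (by positivity) hM1
      rw [hBcard, div_le_div_iff₀ hMpos hδ]
      have h8 : δ * T.card ≤ 2 * K * M := by
        rw [div_le_iff₀ (by positivity)] at hM1
        linarith
      nlinarith
    have h8 : (2 * B.card / M : ℝ) ^ m ≤ (4 * K / δ) ^ m :=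
      pow_le_pow_left₀ (by positivity) h7 m
    have h9 : δ * T.card / 2 ≤ (4 * K / δ) ^ m * Bd :=
      h6.trans (h1.trans (mul_le_mul_of_nonneg_right h8 (by linarith)))
    have h10 : (T.card : ℝ) = 2 / δ * (δ * T.card / 2) := by field_simp
    rw [h10]
    calc 2 / δ * (δ * T.card / 2) ≤ 2 / δ * ((4 * K / δ) ^ m * Bd) :=
          mul_le_mul_of_nonneg_left h9 (by positivity)
      _ = _ := by ring

end StepH53
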