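import Mathlib

set_option autoImplicit false

namespace StepH53

open Finset
open scoped Pointwise

/-- slope of a pair of integers -/
def slp (x : ℤ × ℤ) : ℚ := (x.1 : ℚ) / (x.2 : ℚ)

/-- pairs of given slope -/
def onl (U V : Finset ℤ) (ρ : ℚ) : Finset (ℤ × ℤ) := (U ×ˢ V).filter (fun x => slp x = ρ)

lemma slp_eq {x : ℤ × ℤ} {ρ : ℚ} (h2 : 0 < x.2) (h : slp x = ρ) : (x.1 : ℚ) = ρ * x.2 := by
  unfold slp at h
  have : (x.2 : ℚ) ≠ 0 := by exact_mod_cast h2.ne'
  rw [div_eq_iff this] at h
  exact h

/-- Solymosi's argument: a set of slopes with many representations -/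
lemma soly (U V : Finset ℤ) (hV : ∀ v ∈ V, 0 < v) (τ : ℕ) (S : Finset ℚ)
    (hS : ∀ ρ ∈ S, τ ≤ (onl U V ρ).card) :
    ∀ hne : S.Nonempty, (S.card - 1) * τ ^ 2
      ≤ (((U + U) ×ˢ (V + V)).filter (fun z => slp z < S.max' hne)).card := by
  classical
  induction S using Finset.induction_on_max with
  | empty => intro hne; exact absurd hne (by simp)
  | insert a S ha ih =>
    intro hne
    have haS : a ∉ S := fun h => lt_irrefl _ (ha a h)
    have hmax : (insert a S).max' hne = a := by
      apply le_antisymm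
      · apply Finset.max'_le
        intro x hx
        rcases Finset.mem_insert.1 hx with h | h
        · exact h.le
        · exact (ha x h).le
      · exact Finset.le_max' _ _ (Finset.mem_insert_self _ _)
    rw [hmax, Finset.card_insert_of_notMem haS, Nat.add_sub_cancel]
    by_cases hSne : S.Nonempty
    · have ih' := ih (fun ρ hρ => hS ρ (Finset.mem_insert_of_mem hρ)) hSne
      set a' := S.max' hSne with ha'
      have ha'S : a' ∈ S := Finset.max'_mem _ _
      have haa : a' < a := ha a' ha'S
      have h1 := hS a' (Finset.mem_insert_of_mem ha'S)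
      have h2 := hS a (Finset.mem_insert_self _ _)
      -- the new sums
      have h3 : τ ^ 2 ≤ (((U + U) ×ˢ (V + V)).filter (fun z => a' < slp z ∧ slp z < a)).card := by
        calc τ ^ 2 ≤ (onl U V a').card * (onl U V a).card := by
              rw [sq]; exact Nat.mul_le_mul h1 h2
          _ = (onl U V a' ×ˢ onl U V a).card := (Finset.card_product _ _).symm
          _ ≤ _ := by
              apply Finset.card_le_card_of_injOn (fun x => (x.1.1 + x.2.1, x.1.2 + x.2.2))
              · rintro ⟨x, y⟩ hxy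
                rw [Finset.mem_coe, Finset.mem_product] at hxy
                obtain ⟨hx, hy⟩ := hxy
                simp only [onl, Finset.mem_filter, Finset.mem_product] at hx hy
                obtain ⟨⟨hx1, hx2⟩, hx3⟩ := hx
                obtain ⟨⟨hy1, hy2⟩, hy3⟩ := hy
                rw [Finset.mem_coe, Finset.mem_filter, Finset.mem_product]
                refine ⟨⟨Finset.add_mem_add hx1 hy1, Finset.add_mem_add hx2 hy2⟩, ?_⟩
                have px := hV _ hx2
                have py := hV _ hy2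
                have e1 := slp_eq px hx3
                have e2 := slp_eq py hy3
                have qx : (0 : ℚ) < x.2 := by exact_mod_cast px
                have qy : (0 : ℚ) < y.2 := by exact_mod_cast py
                unfold slp
                simp only
                push_cast
                rw [e1, e2]
                constructor
                · rw [lt_div_iff₀ (by positivity)]
                  nlinarith
                · rw [div_lt_iff₀ (by positivity)]
                  nlinarith
              · rintro ⟨x, y⟩ hxy ⟨x', y'⟩ hxy' heq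
                rw [Finset.mem_coe, Finset.mem_product] at hxy hxy'
                obtain ⟨hx, hy⟩ := hxy
                obtain ⟨hx', hy'⟩ := hxy'
                simp only [onl, Finset.mem_filter, Finset.mem_product] at hx hy hx' hy'
                have e1 := slp_eq (hV _ hx.1.2) hx.2
                have e2 := slp_eq (hV _ hy.1.2) hy.2
                have e3 := slp_eq (hV _ hx'.1.2) hx'.2
                have e4 := slp_eq (hV _ hy'.1.2) hy'.2
                simp only [Prod.mk.injEq] at heq
                obtain ⟨g1, g2⟩ := heq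
                have g1' : (x.1 : ℚ) + y.1 = x'.1 + y'.1 := by exact_mod_cast g1
                have g2' : (x.2 : ℚ) + y.2 = x'.2 + y'.2 := by exact_mod_cast g2
                have g3 : (a - a') * ((y.2 : ℚ) - y'.2) = 0 := by
                  rw [e1, e2, e3, e4] at g1'
                  linear_combination g1' - a' * g2'
                have g4 : (y.2 : ℚ) = y'.2 := by
                  rcases mul_eq_zero.1 g3 with h | h
                  · linarith
                  · linarith
                have g5 : (x.2 : ℚ) = x'.2 := by linarith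
                have g6 : (y.1 : ℚ) = y'.1 := by rw [e2, e4, g4]
                have g7 : (x.1 : ℚ) = x'.1 := by rw [e1, e3, g5]
                have f1 : y.2 = y'.2 := by exact_mod_cast g4
                have f2 : x.2 = x'.2 := by exact_mod_cast g5
                have f3 : y.1 = y'.1 := by exact_mod_cast g6
                have f4 : x.1 = x'.1 := by exact_mod_cast g7
                rw [Prod.mk.injEq]
                exact ⟨Prod.ext f4 f2, Prod.ext f3 f1⟩
      have h4 : (((U + U) ×ˢ (V + V)).filter (fun z => slp z < a')).card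
          + (((U + U) ×ˢ (V + V)).filter (fun z => a' < slp z ∧ slp z < a)).card
          ≤ (((U + U) ×ˢ (V + V)).filter (fun z => slp z < a)).card := by
        rw [← Finset.card_union_of_disjoint]
        · apply Finset.card_le_card
          intro z hz
          rcases Finset.mem_union.1 hz with h | h
          · rw [Finset.mem_filter] at h ⊢
            exact ⟨h.1, h.2.trans haa⟩
          · rw [Finset.mem_filter] at h ⊢
            exact ⟨h.1, h.2.2⟩
        · rw [Finset.disjoint_left]
          intro z hz hz'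
          rw [Finset.mem_filter] at hz hz'
          exact lt_asymm hz.2 hz'.2.1
      have h5 : 1 ≤ S.card := Finset.card_pos.2 hSne
      have h6 : S.card * τ ^ 2 = (S.card - 1) * τ ^ 2 + τ ^ 2 := by
        obtain ⟨c, hc⟩ : ∃ c, S.card = c + 1 := ⟨S.card - 1, by omega⟩
        rw [hc]; simp; ring
      omega
    · rw [Finset.not_nonempty_iff_eq_empty] at hSne
      rw [hSne]; simp

lemma soly' (U V : Finset ℤ) (hV : ∀ v ∈ V, 0 < v) (τ : ℕ) (S : Finset ℚ)
    (hS : ∀ ρ ∈ S, τ ≤ (onl U V ρ).card) :
    (S.card - 1) * τ ^ 2 ≤ (U + U).card * (V + V).card := by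
  by_cases hne : S.Nonempty
  · refine (soly U V hV τ S hS hne).trans ?_
    refine (Finset.card_le_card (Finset.filter_subset _ _)).trans ?_
    rw [Finset.card_product]
  · rw [Finset.not_nonempty_iff_eq_empty] at hne
    rw [hne]; simp

/-- lower bound for the number of distinct slopes -/
theorem slopes_lower (U V : Finset ℤ) (hU : ∀ u ∈ U, 0 < u) (hV : ∀ v ∈ V, 0 < v)
    (hmax : 4 ≤ U.card ∨ 4 ≤ V.card) :
    ((U.card : ℝ) * V.card) ^ 2 ≤ 10 * ((U + U).card * (V + V).card : ℝ)
      * (((U ×ˢ V).image slp).card : ℝ) := by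
  classical
  set Sl := (U ×ˢ V).image slp with hSl
  set N := Sl.card with hN
  by_cases hU0 : U.card = 0
  · rw [hU0]; simp; positivity
  by_cases hV0 : V.card = 0
  · rw [hV0]; simp; positivity
  set P : ℝ := (U.card : ℝ) * V.card with hP
  set Q : ℝ := (U + U).card * (V + V).card with hQ
  have hUp : (1 : ℝ) ≤ U.card := by exact_mod_cast Nat.one_le_iff_ne_zero.2 hU0
  have hVp : (1 : ℝ) ≤ V.card := by exact_mod_cast Nat.one_le_iff_ne_zero.2 hV0
  have hP0 : 0 < P := by positivity
  have hUne : U.Nonempty := Finset.card_pos.1 (Nat.pos_of_ne_zero hU0)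
  have hVne : V.Nonempty := Finset.card_pos.1 (Nat.pos_of_ne_zero hV0)
  have hQP : P ≤ Q := by
    apply mul_le_mul
    · exact_mod_cast Finset.card_le_card_add_right hUne
    · exact_mod_cast Finset.card_le_card_add_right hVne
    · exact Nat.cast_nonneg _
    · exact Nat.cast_nonneg _
  -- multiplicities
  set r : ℚ → ℕ := fun ρ => (onl U V ρ).card with hr
  set tm : ℕ := min U.card V.card with htm
  have hrle : ∀ ρ, r ρ ≤ tm := by
    intro ρ
    apply le_min
    · apply Finset.card_le_card_of_injOn (fun x => x.1)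
      · intro x hx
        simp only [onl, Finset.coe_filter, Finset.mem_product, Set.mem_ofPred_eq] at hx
        exact hx.1.1
      · intro x hx y hy hxy
        simp only [onl, Finset.coe_filter, Finset.mem_product, Set.mem_ofPred_eq] at hx hy
        have e1 := slp_eq (hV _ hx.1.2) hx.2
        have e2 := slp_eq (hV _ hy.1.2) hy.2
        have hρ : ρ ≠ 0 := by
          rintro rfl
          rw [zero_mul] at e1
          have h3 := hU _ hx.1.1
          have h4 : x.1 = 0 := by exact_mod_cast e1
          omega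
        simp only at hxy
        rw [hxy, e2] at e1
        have e3 : (y.2 : ℚ) = x.2 := mul_left_cancel₀ hρ e1
        have e4 : y.2 = x.2 := by exact_mod_cast e3
        exact Prod.ext hxy e4.symm
    · apply Finset.card_le_card_of_injOn (fun x => x.2)
      · intro x hx
        simp only [onl, Finset.coe_filter, Finset.mem_product, Set.mem_ofPred_eq] at hx
        exact hx.1.2
      · intro x hx y hy hxy
        simp only [onl, Finset.coe_filter, Finset.mem_product, Set.mem_ofPred_eq] at hx hy
        have e1 := slp_eq (hV _ hx.1.2) hx.2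
        have e2 := slp_eq (hV _ hy.1.2) hy.2
        simp only at hxy
        rw [hxy, ← e2] at e1
        have e4 : x.1 = y.1 := by exact_mod_cast e1
        exact Prod.ext e4 hxy
  -- layer cake
  have hPsum : P = ∑ τ ∈ Finset.Icc 1 tm, ((Sl.filter (fun ρ => τ ≤ r ρ)).card : ℝ) := by
    have h1 : U.card * V.card = ∑ ρ ∈ Sl, r ρ := by
      rw [← Finset.card_product]
      exact Finset.card_eq_sum_card_image slp (U ×ˢ V)
    have h2 : ∀ ρ, r ρ = ∑ τ ∈ Finset.Icc 1 tm, if τ ≤ r ρ then 1 else 0 := by
      intro ρ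
      rw [← Finset.sum_filter, Finset.sum_const, smul_eq_mul, mul_one]
      have h3 : (Finset.Icc 1 tm).filter (fun τ => τ ≤ r ρ) = Finset.Icc 1 (r ρ) := by
        ext τ
        simp only [Finset.mem_filter, Finset.mem_Icc]
        have := hrle ρ
        omega
      rw [h3, Nat.card_Icc]; omega
    have h4 : ∑ ρ ∈ Sl, r ρ = ∑ τ ∈ Finset.Icc 1 tm, (Sl.filter (fun ρ => τ ≤ r ρ)).card := by
      rw [Finset.sum_congr rfl (fun ρ _ => h2 ρ), Finset.sum_comm]
      apply Finset.sum_congr rfl
      intro τ _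
      rw [← Finset.sum_filter, Finset.sum_const, smul_eq_mul, mul_one]
    rw [hP, ← Nat.cast_mul, h1, h4]
    push_cast
    rfl
  have hb1 : ∀ τ, ((Sl.filter (fun ρ => τ ≤ r ρ)).card : ℝ) ≤ N := by
    intro τ
    exact_mod_cast Finset.card_le_card (Finset.filter_subset _ _)
  have hb2 : ∀ τ : ℕ, 1 ≤ τ → ((Sl.filter (fun ρ => τ ≤ r ρ)).card : ℝ) ≤ 1 + Q * ((τ : ℝ) ^ 2)⁻¹ := by
    intro τ hτ
    have h1 := soly' U V hV τ (Sl.filter (fun ρ => τ ≤ r ρ))
      (fun ρ hρ => (Finset.mem_filter.1 hρ).2)
    have hτp : (0 : ℝ) < (τ : ℝ) ^ 2 := by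
      have : (0 : ℝ) < τ := by exact_mod_cast hτ
      positivity
    set n := (Sl.filter (fun ρ => τ ≤ r ρ)).card with hn
    have h2 : ((n : ℝ) - 1) * (τ : ℝ) ^ 2 ≤ Q := by
      by_cases hn0 : n = 0
      · rw [hn0]
        have : 0 ≤ Q := by positivity
        push_cast
        nlinarith
      · have h3 : ((n - 1 : ℕ) : ℝ) = (n : ℝ) - 1 := by
          rw [Nat.cast_sub (Nat.one_le_iff_ne_zero.2 hn0)]; push_cast; ring
        rw [← h3, hQ]
        exact_mod_cast h1
    have h3 : (n : ℝ) - 1 ≤ Q * ((τ : ℝ) ^ 2)⁻¹ := by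
      rw [← div_eq_mul_inv, le_div_iff₀ hτp]
      exact h2
    linarith
  set τ0 : ℕ := ⌈4 * Q / P⌉₊ with hτ0
  have hQ0 : 0 < Q := lt_of_lt_of_le hP0 hQP
  have h4Q : 4 ≤ 4 * Q / P := by
    rw [le_div_iff₀ hP0]; linarith
  have hτ01 : 4 * Q / P ≤ τ0 := Nat.le_ceil _
  have hτ02 : (τ0 : ℝ) ≤ 5 * Q / P := by
    have h1 := Nat.ceil_lt_add_one (show 0 ≤ 4 * Q / P by positivity)
    have h2 : 1 ≤ Q / P := by rw [le_div_iff₀ hP0]; linarith
    have h3 : 5 * Q / P = 4 * Q / P + Q / P := by ring
    rw [h3]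
    linarith
  have hτ0pos : 1 ≤ τ0 := by
    have : (1 : ℝ) ≤ τ0 := by linarith
    exact_mod_cast this
  have hPle : P ≤ τ0 * N + tm + Q / τ0 := by
    rw [hPsum]
    have hsub : Finset.Icc 1 tm ⊆ Finset.Icc 1 τ0 ∪ Finset.Ioc τ0 (max tm τ0) := by
      intro τ hτ
      rw [Finset.mem_Icc] at hτ
      rw [Finset.mem_union, Finset.mem_Icc, Finset.mem_Ioc]
      rcases le_or_gt τ τ0 with h | h
      · exact Or.inl ⟨hτ.1, h⟩
      · exact Or.inr ⟨h, hτ.2.trans (le_max_left _ _)⟩
    have h1 : ∑ τ ∈ Finset.Icc 1 tm, ((Sl.filter (fun ρ => τ ≤ r ρ)).card : ℝ)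
        ≤ ∑ τ ∈ Finset.Icc 1 τ0 ∪ Finset.Ioc τ0 (max tm τ0),
          ((Sl.filter (fun ρ => τ ≤ r ρ)).card : ℝ) :=
      Finset.sum_le_sum_of_subset_of_nonneg hsub (fun _ _ _ => Nat.cast_nonneg _)
    have hdisj : Disjoint (Finset.Icc 1 τ0) (Finset.Ioc τ0 (max tm τ0)) := by
      rw [Finset.disjoint_left]
      intro τ h1 h2
      rw [Finset.mem_Icc] at h1
      rw [Finset.mem_Ioc] at h2
      omega
    rw [Finset.sum_union hdisj] at h1
    have h2 : ∑ τ ∈ Finset.Icc 1 τ0, ((Sl.filter (fun ρ => τ ≤ r ρ)).card : ℝ) ≤ τ0 * N := by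
      calc ∑ τ ∈ Finset.Icc 1 τ0, ((Sl.filter (fun ρ => τ ≤ r ρ)).card : ℝ)
          ≤ ∑ _τ ∈ Finset.Icc 1 τ0, (N : ℝ) := Finset.sum_le_sum (fun τ _ => hb1 τ)
        _ = τ0 * N := by rw [Finset.sum_const, nsmul_eq_mul, Nat.card_Icc, Nat.add_sub_cancel]
    have h3 : ∑ τ ∈ Finset.Ioc τ0 (max tm τ0), ((Sl.filter (fun ρ => τ ≤ r ρ)).card : ℝ)
        ≤ tm + Q / τ0 := by
      calc ∑ τ ∈ Finset.Ioc τ0 (max tm τ0), ((Sl.filter (fun ρ => τ ≤ r ρ)).card : ℝ)
          ≤ ∑ τ ∈ Finset.Ioc τ0 (max tm τ0), (1 + Q * ((τ : ℝ) ^ 2)⁻¹) := by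
            apply Finset.sum_le_sum
            intro τ hτ
            rw [Finset.mem_Ioc] at hτ
            exact hb2 τ (by omega)
        _ = ((Finset.Ioc τ0 (max tm τ0)).card : ℝ)
            + Q * ∑ τ ∈ Finset.Ioc τ0 (max tm τ0), ((τ : ℝ) ^ 2)⁻¹ := by
            rw [Finset.sum_add_distrib, Finset.sum_const, nsmul_eq_mul, mul_one, Finset.mul_sum]
        _ ≤ tm + Q / τ0 := by
            have g1 : ((Finset.Ioc τ0 (max tm τ0)).card : ℝ) ≤ tm := by
              rw [Nat.card_Ioc]
              have : max tm τ0 - τ0 ≤ tm := by omega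
              exact_mod_cast this
            have g2 := sum_Ioc_inv_sq_le_sub (α := ℝ) (k := τ0) (n := max tm τ0) (by omega)
              (le_max_right _ _)
            have g3 : (0 : ℝ) ≤ ((max tm τ0 : ℕ) : ℝ)⁻¹ := by positivity
            have g4 : Q * ∑ τ ∈ Finset.Ioc τ0 (max tm τ0), ((τ : ℝ) ^ 2)⁻¹ ≤ Q * (τ0 : ℝ)⁻¹ := by
              apply mul_le_mul_of_nonneg_left _ hQ0.le
              linarith
            rw [div_eq_mul_inv]
            linarith
    linarith
  have htmP : (tm : ℝ) ≤ P / 4 := by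
    rcases hmax with h | h
    · have h1 : (4 : ℝ) ≤ U.card := by exact_mod_cast h
      have h2 : (tm : ℝ) ≤ V.card := by exact_mod_cast min_le_right _ _
      rw [hP]; nlinarith
    · have h1 : (4 : ℝ) ≤ V.card := by exact_mod_cast h
      have h2 : (tm : ℝ) ≤ U.card := by exact_mod_cast min_le_left _ _
      rw [hP]; nlinarith
  have hQτ : Q / τ0 ≤ P / 4 := by
    have hτ0r : (0 : ℝ) < τ0 := by exact_mod_cast hτ0pos
    rw [div_le_iff₀ hτ0r]
    rw [div_le_iff₀ hP0] at hτ01
    linarith
  have hN0 : (0 : ℝ) ≤ N := Nat.cast_nonneg _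
  have hfin : P / 2 ≤ 5 * Q / P * N := by
    have : (τ0 : ℝ) * N ≤ 5 * Q / P * N := mul_le_mul_of_nonneg_right hτ02 hN0
    linarith
  have : P * (P / 2) ≤ P * (5 * Q / P * N) := mul_le_mul_of_nonneg_left hfin hP0.le
  have e1 : P * (5 * Q / P * N) = 5 * Q * N := by field_simp
  rw [e1] at this
  nlinarith

end StepH53
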