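import Pool.Agent.W_aaa0df_h53.Cor
import Pool.Agent.W_aaa0df_h53.Soly

set_option autoImplicit false

namespace StepH53

open Finset Real MPaaa0df
open scoped Pointwise

/-- representatives -/
lemma exists_reps (W : Finset (ℤ × ℤ)) :
    ∃ t ⊆ W, (t.card = (W.image slp).card) ∧ ∀ x ∈ t, ∀ y ∈ t, x ≠ y → slp x ≠ slp y := by
  classical
  have h : ∀ ρ ∈ W.image slp, ∃ x ∈ W, slp x = ρ := fun ρ hρ => Finset.mem_image.1 hρ
  choose! g hg1 hg2 using h
  refine ⟨(W.image slp).image g, ?_, ?_, ?_⟩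
  · intro x hx
    obtain ⟨ρ, hρ, rfl⟩ := Finset.mem_image.1 hx
    exact hg1 ρ hρ
  · apply Finset.card_image_of_injOn
    intro ρ hρ ρ' hρ' heq
    rw [← hg2 ρ hρ, ← hg2 ρ' hρ', heq]
  · intro x hx y hy hne heq
    obtain ⟨ρ, hρ, rfl⟩ := Finset.mem_image.1 hx
    obtain ⟨ρ', hρ', rfl⟩ := Finset.mem_image.1 hy
    apply hne
    rw [hg2 ρ hρ, hg2 ρ' hρ'] at heq
    rw [heq]

/-- the sign cases -/
lemma sign_case {η c X Bd : ℝ} {m : ℕ} (hcore : CoreAt η c X Bd m) (U V : Finset ℤ)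
    (hE : ∀ u ∈ U, ∀ v ∈ V, ∀ i : ℕ, 1 ≤ i → i ≤ m → Exc η c X (u + i * v))
    (σ τ : ℤ) (hσ : σ * σ = 1) (hτ : τ * τ = 1) (U1 V1 : Finset ℤ)
    (hU1 : ∀ u ∈ U1, 0 < u ∧ σ * u ∈ U) (hV1 : ∀ v ∈ V1, 0 < v ∧ τ * v ∈ V) :
    ((((U1 ×ˢ V1).image slp).card : ℕ) : ℝ) ≤ Bd := by
  classical
  obtain ⟨t, ht1, ht2, ht3⟩ := exists_reps (U1 ×ˢ V1)
  set φ : ℤ × ℤ → ℤ × ℤ := fun x => (σ * x.1, τ * x.2) with hφ
  have hφinj : Function.Injective φ := by
    rintro ⟨a, b⟩ ⟨a', b'⟩ h
    simp only [hφ, Prod.mk.injEq] at h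
    have e1 : a = a' := by
      have : σ * (σ * a) = σ * (σ * a') := by rw [h.1]
      rwa [← mul_assoc, ← mul_assoc, hσ, one_mul, one_mul] at this
    have e2 : b = b' := by
      have : τ * (τ * b) = τ * (τ * b') := by rw [h.2]
      rwa [← mul_assoc, ← mul_assoc, hτ, one_mul, one_mul] at this
    rw [e1, e2]
  have h1 := hcore (fun j => (1, ((j : ℕ) : ℤ) + 1)) (fun _ => 1) (t.image φ) (fun _ => 1) ?_ ?_ ?_
  · rw [Finset.card_image_of_injective _ hφinj, ht2] at h1
    exact h1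
  · intro i j hij h
    apply hij
    unfold wedge at h
    simp only at h
    have : ((j : ℕ) : ℤ) = ((i : ℕ) : ℤ) := by linarith
    exact Fin.ext (by exact_mod_cast this.symm)
  · intro a ha a' ha' hne h
    obtain ⟨x, hx, rfl⟩ := Finset.mem_image.1 ha
    obtain ⟨y, hy, rfl⟩ := Finset.mem_image.1 ha'
    have hxy : x ≠ y := fun h => hne (by rw [h])
    apply ht3 x hx y hy hxy
    have hx2 := (hV1 _ (Finset.mem_product.1 (ht1 hx)).2).1
    have hy2 := (hV1 _ (Finset.mem_product.1 (ht1 hy)).2).1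
    unfold wedge at h
    simp only [hφ] at h
    have h2 : σ * τ * (x.1 * y.2 - x.2 * y.1) = 0 := by linear_combination h
    have h3 : x.1 * y.2 - x.2 * y.1 = 0 := by
      rcases mul_eq_zero.1 h2 with h4 | h4
      · exfalso
        rcases mul_eq_zero.1 h4 with h5 | h5
        · rw [h5] at hσ; norm_num at hσ
        · rw [h5] at hτ; norm_num at hτ
      · exact h4
    unfold slp
    have qx : (x.2 : ℚ) ≠ 0 := by exact_mod_cast hx2.ne'
    have qy : (y.2 : ℚ) ≠ 0 := by exact_mod_cast hy2.ne'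
    rw [div_eq_div_iff qx qy]
    have h4 : x.1 * y.2 = y.1 * x.2 := by linear_combination h3
    exact_mod_cast h4
  · intro a ha j
    obtain ⟨x, hx, rfl⟩ := Finset.mem_image.1 ha
    have hx' := Finset.mem_product.1 (ht1 hx)
    have h2 := hE _ (hU1 _ hx'.1).2 _ (hV1 _ hx'.2).2 ((j : ℕ) + 1) (by omega) (by omega)
    have h3 : (1 : ℤ) * 1 * dot (φ x) (1, ((j : ℕ) : ℤ) + 1)
        = σ * x.1 + (((j : ℕ) + 1 : ℕ) : ℤ) * (τ * x.2) := by
      unfold dot
      simp only [hφ]
      push_cast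
      ring
    rw [h3]
    exact h2

/-- a sign class with at least half of the elements -/
lemma half_sign (U : Finset ℤ) (hU : ∀ u ∈ U, u ≠ 0) : ∃ σ : ℤ, σ * σ = 1 ∧ ∃ U1 : Finset ℤ,
    (∀ u ∈ U1, 0 < u ∧ σ * u ∈ U) ∧ U.card ≤ 2 * U1.card ∧ (U1 + U1).card ≤ (U + U).card := by
  classical
  have key : ∀ σ : ℤ, σ * σ = 1 → ∃ U1 : Finset ℤ,
      (∀ u ∈ U1, 0 < u ∧ σ * u ∈ U) ∧ U1.card = (U.filter (fun u => 0 < σ * u)).card
        ∧ (U1 + U1).card ≤ (U + U).card := by
    intro σ hσ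
    have hinj : Function.Injective (fun x : ℤ => σ * x) := by
      intro a b h
      have : σ * (σ * a) = σ * (σ * b) := by rw [show σ * a = σ * b from h]
      rwa [← mul_assoc, ← mul_assoc, hσ, one_mul, one_mul] at this
    refine ⟨(U.filter (fun u => 0 < σ * u)).image (fun x => σ * x), ?_, ?_, ?_⟩
    · intro u hu
      obtain ⟨x, hx, rfl⟩ := Finset.mem_image.1 hu
      rw [Finset.mem_filter] at hx
      refine ⟨hx.2, ?_⟩
      have : σ * (σ * x) = x := by rw [← mul_assoc, hσ, one_mul]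
      rw [this]; exact hx.1
    · exact Finset.card_image_of_injective _ hinj
    · apply Finset.card_le_card_of_injOn (fun x => σ * x)
      · intro z hz
        rw [Finset.mem_coe, Finset.mem_add] at hz
        obtain ⟨x, hx, y, hy, rfl⟩ := hz
        obtain ⟨x', hx', rfl⟩ := Finset.mem_image.1 hx
        obtain ⟨y', hy', rfl⟩ := Finset.mem_image.1 hy
        rw [Finset.mem_coe]
        have : σ * (σ * x' + σ * y') = x' + y' := by
          rw [mul_add, ← mul_assoc, ← mul_assoc, hσ, one_mul, one_mul]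
        simp only
        rw [this]
        exact Finset.add_mem_add (Finset.mem_filter.1 hx').1 (Finset.mem_filter.1 hy').1
      · exact hinj.injOn
  have htot : U.card ≤ (U.filter (fun u => 0 < (1 : ℤ) * u)).card
      + (U.filter (fun u => 0 < (-1 : ℤ) * u)).card := by
    have h1 : U ⊆ (U.filter (fun u => 0 < (1 : ℤ) * u)) ∪ (U.filter (fun u => 0 < (-1 : ℤ) * u)) := by
      intro u hu
      rw [Finset.mem_union, Finset.mem_filter, Finset.mem_filter]
      have := hU u hu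
      rcases lt_or_gt_of_ne this with h | h
      · right; exact ⟨hu, by omega⟩
      · left; exact ⟨hu, by omega⟩
    exact (Finset.card_le_card h1).trans (Finset.card_union_le _ _)
  rcases le_total (U.filter (fun u => 0 < (-1 : ℤ) * u)).card
      (U.filter (fun u => 0 < (1 : ℤ) * u)).card with h | h
  · obtain ⟨U1, h1, h2, h3⟩ := key 1 (by norm_num)
    exact ⟨1, by norm_num, U1, h1, by omega, h3⟩
  · obtain ⟨U1, h1, h2, h3⟩ := key (-1) (by norm_num)
    exact ⟨-1, by norm_num, U1, h1, by omega, h3⟩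

/-- sets `U + i V`, `1 ≤ i ≤ m`, of exceptional numbers -/
theorem uv_bound {η c X Bd : ℝ} {m : ℕ} (hBd : 1 ≤ Bd) (hcore : CoreAt η c X Bd m)
    (U V : Finset ℤ) (hU : ∀ u ∈ U, u ≠ 0) (hV : ∀ v ∈ V, v ≠ 0)
    (hE : ∀ u ∈ U, ∀ v ∈ V, ∀ i : ℕ, 1 ≤ i → i ≤ m → Exc η c X (u + i * v)) :
    ((U.card : ℝ) * V.card) ^ 2 ≤ 160 * ((U + U).card * (V + V).card : ℝ) * Bd := by
  classical
  obtain ⟨σ, hσ, U1, hU1, hUc, hUU⟩ := half_sign U hU
  obtain ⟨τ, hτ, V1, hV1, hVc, hVV⟩ := half_sign V hV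
  by_cases hU0 : U.card = 0
  · rw [hU0]; simp; positivity
  by_cases hV0 : V.card = 0
  · rw [hV0]; simp; positivity
  have hUne : U.Nonempty := Finset.card_pos.1 (Nat.pos_of_ne_zero hU0)
  have hVne : V.Nonempty := Finset.card_pos.1 (Nat.pos_of_ne_zero hV0)
  have hQ1 : ((U1 + U1).card : ℝ) * (V1 + V1).card ≤ (U + U).card * (V + V).card := by
    exact_mod_cast Nat.mul_le_mul hUU hVV
  have hUc' : (U.card : ℝ) ≤ 2 * U1.card := by exact_mod_cast hUc
  have hVc' : (V.card : ℝ) ≤ 2 * V1.card := by exact_mod_cast hVc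
  have hPP : (U.card : ℝ) * V.card ≤ 4 * (U1.card * V1.card) := by
    calc (U.card : ℝ) * V.card ≤ (2 * U1.card) * (2 * V1.card) :=
          mul_le_mul hUc' hVc' (Nat.cast_nonneg _) (by positivity)
      _ = _ := by ring
  by_cases hmax : 4 ≤ U1.card ∨ 4 ≤ V1.card
  · have h1 := slopes_lower U1 V1 (fun u hu => (hU1 u hu).1) (fun v hv => (hV1 v hv).1) hmax
    have h2 := sign_case hcore U V hE σ τ hσ hτ U1 V1 hU1 hV1
    have h3 : ((U.card : ℝ) * V.card) ^ 2 ≤ (4 * (U1.card * V1.card)) ^ 2 :=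
      pow_le_pow_left₀ (by positivity) hPP 2
    have h4 : 10 * ((U1 + U1).card * (V1 + V1).card : ℝ) * (((U1 ×ˢ V1).image slp).card : ℝ)
        ≤ 10 * ((U + U).card * (V + V).card : ℝ) * Bd := by
      apply mul_le_mul _ h2 (Nat.cast_nonneg _) (by positivity)
      linarith
    calc ((U.card : ℝ) * V.card) ^ 2 ≤ (4 * (U1.card * V1.card)) ^ 2 := h3
      _ = 16 * ((U1.card : ℝ) * V1.card) ^ 2 := by ring
      _ ≤ 16 * (10 * ((U + U).card * (V + V).card : ℝ) * Bd) := by linarith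
      _ = _ := by ring
  · push Not at hmax
    have h1 : (U1.card : ℝ) ≤ 3 := by exact_mod_cast (by omega : U1.card ≤ 3)
    have h2 : (V1.card : ℝ) ≤ 3 := by exact_mod_cast (by omega : V1.card ≤ 3)
    have h3 : (U.card : ℝ) * V.card ≤ 36 := by
      have : (U1.card : ℝ) * V1.card ≤ 3 * 3 :=
        mul_le_mul h1 h2 (Nat.cast_nonneg _) (by norm_num)
      linarith
    have h4 : (U.card : ℝ) * V.card ≤ (U + U).card * (V + V).card := by
      apply mul_le_mul
      · exact_mod_cast Finset.card_le_card_add_right hUne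
      · exact_mod_cast Finset.card_le_card_add_right hVne
      · exact Nat.cast_nonneg _
      · exact Nat.cast_nonneg _
    have h5 : 0 ≤ (U.card : ℝ) * V.card := by positivity
    have h6 : 0 ≤ ((U + U).card : ℝ) * (V + V).card := by positivity
    have h7 : ((U + U).card : ℝ) * (V + V).card ≤ (U + U).card * (V + V).card * Bd :=
      le_mul_of_one_le_right h6 hBd
    nlinarith

/-- arithmetic progressions of exceptional numbers -/
theorem ap_bound {η c X Bd : ℝ} {m : ℕ} (hm : 1 ≤ m) (hmB : (m : ℝ) ≤ Bd)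
    (hcore : CoreAt η c X Bd m) (hne : ∀ D, Exc η c X D → D ≠ 0)
    (H : ℕ) (r s : ℤ) (hs : s ≠ 0) (hE : ∀ i : ℕ, i < H → Exc η c X (r + i * s)) :
    (H : ℝ) ^ 2 ≤ 10240 * m * Bd := by
  classical
  have hm1 : (1 : ℝ) ≤ m := by exact_mod_cast hm
  have hBd : 1 ≤ Bd := hm1.trans hmB
  by_cases hsmall : H < 4 * m
  · have h1 : (H : ℝ) ≤ 4 * m := by exact_mod_cast hsmall.le
    have h2 : (H : ℝ) ^ 2 ≤ (4 * m) ^ 2 := pow_le_pow_left₀ (Nat.cast_nonneg _) h1 2
    nlinarith [mul_le_mul_of_nonneg_left hmB (by linarith : (0 : ℝ) ≤ m)]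
  push Not at hsmall
  set h := H / 2 with hh
  set q := H / (2 * m) with hq
  set U : Finset ℤ := (Finset.range h).image (fun j : ℕ => r + j * s) with hU
  set V : Finset ℤ := (Finset.Icc 1 q).image (fun t : ℕ => (t : ℤ) * s) with hV
  have hUc : U.card = h := by
    rw [hU, Finset.card_image_of_injective, Finset.card_range]
    intro a b hab
    have h1 : ((a : ℤ) - b) * s = 0 := by
      have : r + (a : ℤ) * s = r + b * s := hab
      linear_combination this
    rcases mul_eq_zero.1 h1 with h2 | h2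
    · have : (a : ℤ) = b := by linarith
      exact_mod_cast this
    · exact absurd h2 hs
  have hVc : V.card = q := by
    rw [hV, Finset.card_image_of_injective, Nat.card_Icc, Nat.add_sub_cancel]
    intro a b hab
    have h1 : (a : ℤ) * s = b * s := hab
    have := mul_right_cancel₀ hs h1
    exact_mod_cast this
  have hUU : (U + U).card ≤ 2 * h := by
    have h1 : U + U ⊆ (Finset.range (2 * h)).image (fun j : ℕ => 2 * r + (j : ℤ) * s) := by
      intro z hz
      obtain ⟨x, hx, y, hy, rfl⟩ := Finset.mem_add.1 hz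
      obtain ⟨a, ha, rfl⟩ := Finset.mem_image.1 hx
      obtain ⟨b, hb, rfl⟩ := Finset.mem_image.1 hy
      rw [Finset.mem_range] at ha hb
      refine Finset.mem_image.2 ⟨a + b, Finset.mem_range.2 (by omega), ?_⟩
      push_cast; ring
    calc (U + U).card ≤ _ := Finset.card_le_card h1
      _ ≤ (Finset.range (2 * h)).card := Finset.card_image_le
      _ = 2 * h := Finset.card_range _
  have hVV : (V + V).card ≤ 2 * q := by
    have h1 : V + V ⊆ (Finset.Icc 1 (2 * q)).image (fun j : ℕ => (j : ℤ) * s) := by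
      intro z hz
      obtain ⟨x, hx, y, hy, rfl⟩ := Finset.mem_add.1 hz
      obtain ⟨a, ha, rfl⟩ := Finset.mem_image.1 hx
      obtain ⟨b, hb, rfl⟩ := Finset.mem_image.1 hy
      rw [Finset.mem_Icc] at ha hb
      refine Finset.mem_image.2 ⟨a + b, Finset.mem_Icc.2 (by omega), ?_⟩
      push_cast; ring
    calc (V + V).card ≤ _ := Finset.card_le_card h1
      _ ≤ (Finset.Icc 1 (2 * q)).card := Finset.card_image_le
      _ = 2 * q := by rw [Nat.card_Icc]; omega
  have hqm : 2 * (m * q) ≤ H := by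
    have := Nat.div_mul_le_self H (2 * m)
    rw [← hq] at this
    calc 2 * (m * q) = q * (2 * m) := by ring
      _ ≤ H := this
  have hmain := uv_bound hBd hcore U V (by
      intro u hu
      obtain ⟨j, hj, rfl⟩ := Finset.mem_image.1 hu
      rw [Finset.mem_range] at hj
      exact hne _ (hE j (by omega))) (by
      intro v hv
      obtain ⟨t, ht, rfl⟩ := Finset.mem_image.1 hv
      rw [Finset.mem_Icc] at ht
      have : (t : ℤ) ≠ 0 := by
        have : t ≠ 0 := by omega
        exact_mod_cast this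
      exact mul_ne_zero this hs) (by
      intro u hu v hv i hi1 hi2
      obtain ⟨j, hj, rfl⟩ := Finset.mem_image.1 hu
      obtain ⟨t, ht, rfl⟩ := Finset.mem_image.1 hv
      rw [Finset.mem_range] at hj
      rw [Finset.mem_Icc] at ht
      have h1 : r + (j : ℤ) * s + (i : ℤ) * ((t : ℤ) * s) = r + ((j + i * t : ℕ) : ℤ) * s := by
        push_cast; ring
      rw [h1]
      apply hE
      have h2 : i * t ≤ m * q := Nat.mul_le_mul hi2 ht.2
      omega)
  rw [hUc, hVc] at hmain
  have hUU' : ((U + U).card : ℝ) ≤ 2 * h := by exact_mod_cast hUU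
  have hVV' : ((V + V).card : ℝ) ≤ 2 * q := by exact_mod_cast hVV
  have hh0 : (0 : ℝ) ≤ h := Nat.cast_nonneg _
  have hq0 : (0 : ℝ) ≤ q := Nat.cast_nonneg _
  have h1 : ((h : ℝ) * q) ^ 2 ≤ 640 * (h * q) * Bd := by
    refine hmain.trans ?_
    have h2 : ((U + U).card : ℝ) * (V + V).card ≤ (2 * h) * (2 * q) :=
      mul_le_mul hUU' hVV' (Nat.cast_nonneg _) (by positivity)
    have h3 : 160 * (((U + U).card : ℝ) * (V + V).card) ≤ 640 * (h * q) := by linarith
    exact mul_le_mul_of_nonneg_right h3 (by linarith)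
  have hhpos : (0 : ℝ) < h := by
    have : 0 < h := by omega
    exact_mod_cast this
  have hqpos : (0 : ℝ) < q := by
    have : 0 < q := Nat.div_pos (by omega) (by omega)
    exact_mod_cast this
  have h2 : (h : ℝ) * q ≤ 640 * Bd := by
    have hpos : (0 : ℝ) < h * q := by positivity
    have h3 : (h * q : ℝ) * (h * q) ≤ (h * q) * (640 * Bd) := by nlinarith
    exact le_of_mul_le_mul_left h3 hpos
  -- H ≤ 4 h and H ≤ 4 m q
  have h3 : (H : ℝ) ≤ 4 * h := by
    have : H ≤ 4 * h := by omega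
    exact_mod_cast this
  have h4 : (H : ℝ) ≤ 4 * m * q := by
    have h5 : H < 2 * m * (q + 1) := by
      have := Nat.lt_mul_div_succ H (show 0 < 2 * m by omega)
      rw [← hq] at this
      exact this
    have h6 : 2 * m ≤ H / 2 := by omega
    have h7 : H ≤ 4 * m * q := by nlinarith
    exact_mod_cast h7
  calc (H : ℝ) ^ 2 = H * H := by ring
    _ ≤ (4 * h) * (4 * m * q) := mul_le_mul h3 h4 (Nat.cast_nonneg _) (by positivity)
    _ = 16 * m * (h * q) := by ring
    _ ≤ 16 * m * (640 * Bd) := by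
        apply mul_le_mul_of_nonneg_left h2; positivity
    _ = 10240 * m * Bd := by ring

end StepH53
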