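import Pool.Agent.W_aaa0df_h53.Sieve
import Pool.Agent.W_MP_aaa0df_nt.Rel
import Pool.Agent.W_MP_aaa0df_nt.Final

set_option autoImplicit false

namespace StepH53

open Finset Real MPaaa0df

/-- exceptional integers at height `X` -/
def Exc (η c X : ℝ) (D : ℤ) : Prop :=
  |(D : ℝ)| ≤ X ∧ ∃ d f : ℤ, f ≠ 0 ∧ (d % 4 = 0 ∨ d % 4 = 1) ∧ 4 * D = d * f ^ 2 ∧
    X ^ η ≤ |(d : ℝ)| ∧ (N d : ℝ) < c * Real.log X ^ 2

lemma splitCount_mono' (d : ℤ) {y y' : ℝ} (h : y ≤ y') : splitCount d y ≤ splitCount d y' := by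
  classical
  rw [splitCount_eq, splitCount_eq]
  apply Finset.card_le_card
  apply Finset.filter_subset_filter
  intro p hp
  rw [Nat.mem_primesBelow] at hp ⊢
  exact ⟨lt_of_lt_of_le hp.1 (Nat.ceil_mono h), hp.2⟩

/-- weight of the primes at which an exceptional number is not inert -/
lemma exc_weight {η c X y Λ : ℝ} (hX : 1 < X) (hΛ : 0 ≤ Λ) (hc : 0 ≤ c) {D : ℤ} (hD : Exc η c X D)
    (hthr : ∀ d : ℤ, X ^ η ≤ |(d : ℝ)| → y ≤ threshold d)
    (P : Finset ℕ) (hP : ∀ p ∈ P, p.Prime ∧ p ≠ 2 ∧ (p : ℝ) < y ∧ Real.log p ≤ Λ) :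
    ∑ p ∈ P.filter (fun p : ℕ => jacobiSym D p ≠ -1), Real.log p
      ≤ c * Real.log X ^ 2 * Λ + Real.log X := by
  classical
  obtain ⟨hDX, d, f, hf, hd, h4, hdX, hN⟩ := hD
  have hd0 : d ≠ 0 := by
    rintro rfl
    have h1 : (0 : ℝ) < X ^ η := Real.rpow_pos_of_pos (by linarith) _
    simp at hdX
    linarith
  have hD0 : D ≠ 0 := by
    rintro rfl
    have : d * f ^ 2 = 0 := by rw [← h4]; ring
    rcases mul_eq_zero.1 this with h | h
    · exact hd0 h
    · exact hf (pow_eq_zero_iff (two_ne_zero) |>.1 h)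
  have hsub : P.filter (fun p : ℕ => jacobiSym D p ≠ -1)
      ⊆ P.filter (fun p : ℕ => (p : ℤ) ∣ D) ∪ P.filter (fun p : ℕ => jacobiSym D p = 1) := by
    intro p hp
    rw [Finset.mem_filter] at hp
    obtain ⟨hpP, hne⟩ := hp
    rcases jacobiSym.trichotomy D p with h | h | h
    · apply Finset.mem_union_left
      rw [Finset.mem_filter]
      refine ⟨hpP, ?_⟩
      haveI : Fact p.Prime := ⟨(hP p hpP).1⟩
      rwa [← jacobiSym.legendreSym.to_jacobiSym, legendreSym.eq_zero_iff,
        ZMod.intCast_zmod_eq_zero_iff_dvd] at h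
    · apply Finset.mem_union_right
      exact Finset.mem_filter.2 ⟨hpP, h⟩
    · exact absurd h hne
  have hlog : ∀ p : ℕ, 0 ≤ Real.log (p : ℝ) := fun p => Real.log_natCast_nonneg p
  have h1 : ∑ p ∈ P.filter (fun p : ℕ => (p : ℤ) ∣ D), Real.log p ≤ Real.log X := by
    refine (sum_log_dvd_le P (fun p hp => (hP p hp).1) D hD0).trans ?_
    exact Real.log_le_log (abs_pos.2 (by exact_mod_cast hD0)) hDX
  have h2 : ∑ p ∈ P.filter (fun p : ℕ => jacobiSym D p = 1), Real.log p
      ≤ c * Real.log X ^ 2 * Λ := by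
    have h3 : ((P.filter (fun p : ℕ => jacobiSym D p = 1)).card : ℝ) ≤ N d := by
      have h4' : (P.filter (fun p : ℕ => jacobiSym D p = 1)).card ≤ N d := by
        unfold N
        refine le_trans ?_ (splitCount_mono' d (hthr d hdX))
        rw [splitCount_eq]
        apply Finset.card_le_card
        intro p hp
        rw [Finset.mem_filter] at hp
        obtain ⟨hpP, hj⟩ := hp
        obtain ⟨hpp, hp2, hpy, _⟩ := hP p hpP
        haveI : Fact p.Prime := ⟨hpp⟩
        rw [Finset.mem_filter, Nat.mem_primesBelow]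
        have hj4 : jacobiSym (4 * D) p = jacobiSym d p * jacobiSym f p ^ 2 := by
          rw [h4, jacobiSym.mul_left, jacobiSym.pow_left]
        have h44 : jacobiSym 4 p = 1 := by
          have e1 : (4 : ℤ) = 2 ^ 2 := by norm_num
          rw [e1, jacobiSym.pow_left]
          have e2 : jacobiSym 2 p ≠ 0 := by
            rw [← jacobiSym.legendreSym.to_jacobiSym, Ne, legendreSym.eq_zero_iff]
            intro h
            have h5 : ((2 : ℕ) : ZMod p) = 0 := by exact_mod_cast h
            rw [ZMod.natCast_eq_zero_iff] at h5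
            exact hp2 ((Nat.prime_dvd_prime_iff_eq hpp Nat.prime_two).1 h5)
          rcases jacobiSym.trichotomy 2 p with h | h | h
          · exact absurd h e2
          · rw [h]; norm_num
          · rw [h]; norm_num
        rw [jacobiSym.mul_left, h44, hj, one_mul] at hj4
        have hjd : jacobiSym d p = 1 := by
          rcases jacobiSym.trichotomy f p with h | h | h
          · rw [h] at hj4; norm_num at hj4
          · rw [h] at hj4; linarith
          · rw [h] at hj4; linarith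
        have hpd : ¬ ((p : ℤ) ∣ d) := by
          intro h
          rw [← ZMod.intCast_zmod_eq_zero_iff_dvd, ← legendreSym.eq_zero_iff,
            jacobiSym.legendreSym.to_jacobiSym, hjd] at h
          norm_num at h
        exact ⟨⟨Nat.lt_ceil.2 hpy, hpp⟩, hpd, (split_iff hd hpp hp2 hpd).2 hjd⟩
      exact_mod_cast h4'
    calc ∑ p ∈ P.filter (fun p : ℕ => jacobiSym D p = 1), Real.log p
        ≤ ∑ _p ∈ P.filter (fun p : ℕ => jacobiSym D p = 1), Λ := by
          apply Finset.sum_le_sum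
          intro p hp
          exact (hP p (Finset.mem_filter.1 hp).1).2.2.2
      _ = ((P.filter (fun p : ℕ => jacobiSym D p = 1)).card : ℝ) * Λ := by
          rw [Finset.sum_const, nsmul_eq_mul]
      _ ≤ c * Real.log X ^ 2 * Λ := mul_le_mul_of_nonneg_right (h3.trans hN.le) hΛ
  calc ∑ p ∈ P.filter (fun p : ℕ => jacobiSym D p ≠ -1), Real.log p
      ≤ ∑ p ∈ P.filter (fun p : ℕ => (p : ℤ) ∣ D) ∪ P.filter (fun p : ℕ => jacobiSym D p = 1),
          Real.log p := Finset.sum_le_sum_of_subset_of_nonneg hsub (fun p _ _ => hlog p)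
    _ ≤ ∑ p ∈ P.filter (fun p : ℕ => (p : ℤ) ∣ D), Real.log p
        + ∑ p ∈ P.filter (fun p : ℕ => jacobiSym D p = 1), Real.log p := by
        rw [← Finset.sum_union_inter]
        have : 0 ≤ ∑ p ∈ P.filter (fun p : ℕ => (p : ℤ) ∣ D) ∩
          P.filter (fun p : ℕ => jacobiSym D p = 1), Real.log (p : ℝ) :=
          Finset.sum_nonneg (fun p _ => hlog p)
        linarith
    _ ≤ _ := by linarith

end StepH53
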