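import Pool.Agent.W_aaa0df_h53.Cor4

set_option autoImplicit false

namespace StepH53

open Finset Real MPaaa0df
open scoped Pointwise

lemma exc_ne_zero {η c X : ℝ} (hX : 0 < X) (D : ℤ) (h : Exc η c X D) : D ≠ 0 := by
  rintro rfl
  obtain ⟨_, d, f, hf, _, h4, hdX, _⟩ := h
  rw [mul_zero] at h4
  rcases mul_eq_zero.1 h4.symm with h5 | h5
  · rw [h5] at hdX
    have h6 : (0 : ℝ) < X ^ η := Real.rpow_pos_of_pos hX _
    simp at hdX
    linarith
  · exact hf (pow_eq_zero_iff (two_ne_zero) |>.1 h5)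

theorem all_forms (η : ℝ) (hη : 0 < η) (hη1 : η ≤ 1) : ∃ C c X₀ : ℝ, 0 < C ∧ 0 < c ∧
    ∀ X : ℝ, X₀ ≤ X → ∀ m : ℕ, m = ⌈C * Real.log (Real.log X)⌉₊ →
      (∀ (n : ℕ) (a : Fin n → ℤ × ℤ) (b : Fin m → ℤ × ℤ) (s : Fin n → ℤ) (t : Fin m → ℤ),
        (∀ i i', i ≠ i' → wedge (a i) (a i') ≠ 0) →
        (∀ j j', j ≠ j' → wedge (b j) (b j') ≠ 0) →
        (∀ i j, Exc η c X (s i * t j * dot (a i) (b j))) →
        (n : ℝ) ≤ Real.log X * Real.log (Real.log X) ^ 2) ∧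
      (∀ (A B : Finset ℤ) (M : ℕ), 2 * m ≤ M →
        (∀ a ∈ A, ∃ S ⊆ B, M ≤ S.card ∧ ∀ b ∈ S, Exc η c X (a + b)) →
        (A.card : ℝ) ≤ (2 * B.card / M : ℝ) ^ m * (Real.log X * Real.log (Real.log X) ^ 2)) ∧
      (∀ (T E : Finset ℤ) (K δ : ℝ), 1 ≤ K → 0 < δ → δ ≤ 1 →
        ((T + T).card : ℝ) ≤ K * T.card → E ⊆ T → δ * T.card ≤ E.card →
        (∀ d ∈ E, Exc η c X d) →
        (T.card : ℝ) ≤ 2 / δ * (4 * K / δ) ^ m * (Real.log X * Real.log (Real.log X) ^ 2)) ∧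
      (∀ (U V : Finset ℤ), (∀ u ∈ U, u ≠ 0) → (∀ v ∈ V, v ≠ 0) →
        (∀ u ∈ U, ∀ v ∈ V, ∀ i : ℕ, 1 ≤ i → i ≤ m → Exc η c X (u + i * v)) →
        ((U.card : ℝ) * V.card) ^ 2 ≤ 160 * ((U + U).card * (V + V).card : ℝ)
          * (Real.log X * Real.log (Real.log X) ^ 2)) ∧
      (∀ (H : ℕ) (r s : ℤ), s ≠ 0 → (∀ i : ℕ, i < H → Exc η c X (r + i * s)) →
        (H : ℝ) ^ 2 ≤ 10240 * m * (Real.log X * Real.log (Real.log X) ^ 2)) := by
  obtain ⟨C, c, X₀, hC, hc, hX₀, hcore⟩ := core η hη hη1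
  -- make sure that m ≤ log X (loglog X)^2 and m ≥ 1
  have hev : ∀ᶠ X : ℝ in Filter.atTop, 1 ≤ C * Real.log (Real.log X) ∧ 1 ≤ Real.log (Real.log X)
      ∧ 2 * C ≤ Real.log X := by
    filter_upwards [ev_loglog (1 / C), ev_loglog 1, ev_log (2 * C)] with X h1 h2 h3
    refine ⟨?_, h2, h3⟩
    rw [div_le_iff₀ hC] at h1
    linarith
  obtain ⟨X₁, hX₁⟩ := Filter.eventually_atTop.1 hev
  refine ⟨C, c, max X₀ X₁, hC, hc, ?_⟩
  intro X hX m hm
  have hXX0 : X₀ ≤ X := (le_max_left _ _).trans hX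
  obtain ⟨h1, h2, h3⟩ := hX₁ X ((le_max_right _ _).trans hX)
  have hX1 : 1 < X := lt_of_lt_of_le hX₀ hXX0
  set L := Real.log X with hL
  set l := Real.log L with hl
  have hcoreX : CoreAt η c X (L * l ^ 2) m := fun b t A s hb hA hE =>
    hcore X hXX0 m hm b t A s hb hA hE
  have hm1 : 1 ≤ m := by
    rw [hm]; exact Nat.one_le_ceil_iff.2 (by linarith)
  have hmB : (m : ℝ) ≤ L * l ^ 2 := by
    have h4 := Nat.ceil_lt_add_one (show 0 ≤ C * l by linarith)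
    rw [← hm] at h4
    have h5 : (m : ℝ) ≤ 2 * C * l := by linarith
    have h6 : 2 * C * l ≤ L * l := mul_le_mul_of_nonneg_right h3 (by linarith)
    have h7 : L * l ≤ L * l ^ 2 := by
      have hL0 : 0 ≤ L := by linarith
      apply mul_le_mul_of_nonneg_left _ hL0
      nlinarith
    linarith
  have hBd : 1 ≤ L * l ^ 2 := by
    have : (1 : ℝ) ≤ m := by exact_mod_cast hm1
    linarith
  refine ⟨?_, ?_, ?_, ?_, ?_⟩
  · intro n a b s t ha hb hE
    have hinj : Function.Injective a := by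
      intro i i' h
      by_contra hne
      apply ha i i' hne
      rw [h]; unfold wedge; ring
    have h4 := hcoreX b t (univ.image a) (Function.extend a s (fun _ => 0)) hb (by
        intro x hx y hy hne
        obtain ⟨i, _, rfl⟩ := Finset.mem_image.1 hx
        obtain ⟨i', _, rfl⟩ := Finset.mem_image.1 hy
        exact ha i i' (fun h => hne (by rw [h]))) (by
        intro x hx j
        obtain ⟨i, _, rfl⟩ := Finset.mem_image.1 hx
        rw [hinj.extend_apply]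
        exact hE i j)
    rw [Finset.card_image_of_injective _ hinj, Finset.card_univ, Fintype.card_fin] at h4
    exact h4
  · intro A B M hM hA
    exact counting hm1 hcoreX A B M hM hA
  · intro T E K δ hK hδ hδ1 hT hET hEc hE
    exact doubling hm1 hBd hcoreX T K δ hK hδ hδ1 hT E hET hE hEc
  · intro U V hU hV hE
    exact uv_bound hBd hcoreX U V hU hV hE
  · intro H r s hs hE
    exact ap_bound hm1 hmB hcoreX (fun D hD => exc_ne_zero (by linarith) D hD) H r s hs hE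

end StepH53
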