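import Mathlib

set_option autoImplicit false

namespace StepH53

open Filter Topology Real Finset

/-- iterated logarithm facts, for `X → ∞` -/
lemma ev_log (K : ℝ) : ∀ᶠ X : ℝ in atTop, K ≤ Real.log X :=
  Real.tendsto_log_atTop.eventually_ge_atTop K

lemma ev_loglog (K : ℝ) : ∀ᶠ X : ℝ in atTop, K ≤ Real.log (Real.log X) :=
  (Real.tendsto_log_atTop.comp Real.tendsto_log_atTop).eventually_ge_atTop K

/-- `K (loglog X)^n ≤ log X` eventually -/
lemma ev_pow (K : ℝ) (n : ℕ) :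
    ∀ᶠ X : ℝ in atTop, K * Real.log (Real.log X) ^ n ≤ Real.log X := by
  have h1 : (fun x : ℝ => Real.log x ^ n) =o[atTop] id := Real.isLittleO_pow_log_id_atTop
  have h2 : ∀ᶠ x : ℝ in atTop, K * Real.log x ^ n ≤ x := by
    have h3 := h1.def (c := 1 / (|K| + 1)) (by positivity)
    filter_upwards [h3, eventually_ge_atTop (1 : ℝ)] with x hx hx1
    have h4 : 0 ≤ Real.log x ^ n := pow_nonneg (Real.log_nonneg hx1) _
    rw [Real.norm_of_nonneg h4, id, Real.norm_of_nonneg (by linarith)] at hx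
    have h5 : K * Real.log x ^ n ≤ (|K| + 1) * Real.log x ^ n :=
      mul_le_mul_of_nonneg_right (by linarith [le_abs_self K]) h4
    have h6 : (|K| + 1) * Real.log x ^ n ≤ (|K| + 1) * (1 / (|K| + 1) * x) :=
      mul_le_mul_of_nonneg_left hx (by positivity)
    have h7 : (|K| + 1) * (1 / (|K| + 1) * x) = x := by field_simp
    linarith
  exact Real.tendsto_log_atTop.eventually h2

/-- Chebyshev bounds for the sum of `log p` over `primesBelow ⌈y⌉` -/
lemma theta_upper {y : ℝ} (hy : 1 ≤ y) :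
    ∑ p ∈ Nat.primesBelow ⌈y⌉₊, Real.log p ≤ 1.4 * y := by
  have h0 : 1 ≤ ⌈y⌉₊ := Nat.one_le_ceil_iff.2 (by linarith)
  obtain ⟨n, hn⟩ : ∃ n, ⌈y⌉₊ = n + 1 := ⟨⌈y⌉₊ - 1, by omega⟩
  have h1 : ∑ p ∈ Nat.primesBelow ⌈y⌉₊, Real.log p = Chebyshev.theta n := by
    rw [Chebyshev.theta_eq_sum_primesLE_log, hn]; rfl
  have h2 : (n : ℝ) < y := by
    have : n < ⌈y⌉₊ := by omega
    exact Nat.lt_ceil.1 this
  have h3 := Chebyshev.theta_le_log4_mul_x (x := (n : ℝ)) (Nat.cast_nonneg _)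
  have h4 : Real.log 4 ≤ 1.4 := by
    have e1 : (4 : ℝ) = 2 ^ 2 := by norm_num
    rw [e1, Real.log_pow]
    have := Real.log_two_lt_d9
    push_cast
    linarith
  rw [h1]
  have h5 : (0 : ℝ) ≤ n := Nat.cast_nonneg _
  nlinarith

lemma theta_lower : ∀ᶠ y : ℝ in atTop,
    y / 2 ≤ ∑ p ∈ Nat.primesBelow ⌈y⌉₊, Real.log p := by
  have h1 : ∀ᶠ y : ℝ in atTop, Real.log (y + 1) + 2 * Real.sqrt y * Real.log y + 1 ≤ y / 10 := by
    have a1 : ∀ᶠ y : ℝ in atTop, Real.log y ≤ (1 / 100) * y ^ (1 / 4 : ℝ) := by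
      have := (isLittleO_log_rpow_atTop (by norm_num : (0 : ℝ) < 1 / 4)).def
        (c := 1 / 100) (by norm_num)
      filter_upwards [this, eventually_ge_atTop (1 : ℝ)] with y hy hy1
      rw [Real.norm_of_nonneg (Real.log_nonneg hy1),
        Real.norm_of_nonneg (Real.rpow_nonneg (by linarith) _)] at hy
      exact hy
    filter_upwards [a1, eventually_ge_atTop (10000 : ℝ)] with y hy hy1
    have b1 : y ^ (1 / 4 : ℝ) ≤ Real.sqrt y := by
      rw [Real.sqrt_eq_rpow]
      exact Real.rpow_le_rpow_of_exponent_le (by linarith) (by norm_num)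
    have b2 : Real.sqrt y * Real.sqrt y = y := Real.mul_self_sqrt (by linarith)
    have b3 : (100 : ℝ) ≤ Real.sqrt y := by
      apply Real.le_sqrt_of_sq_le; linarith
    have b4 : Real.log (y + 1) ≤ Real.log y + 1 := by
      have : Real.log (y + 1) = Real.log y + Real.log (1 + 1 / y) := by
        rw [← Real.log_mul (by linarith) (by positivity)]
        congr 1
        field_simp
      rw [this]
      have h5 : Real.log (1 + 1 / y) ≤ 1 / y := by
        have := Real.log_le_sub_one_of_pos (x := 1 + 1 / y) (by positivity)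
        linarith
      have h6 : 1 / y ≤ 1 := by
        rw [div_le_one (by linarith)]; linarith
      linarith
    have b5 : 0 ≤ y ^ (1 / 4 : ℝ) := Real.rpow_nonneg (by linarith) _
    nlinarith
  filter_upwards [h1, eventually_ge_atTop (100 : ℝ)] with y hy hy1
  have h0 : 1 ≤ ⌈y⌉₊ := Nat.one_le_ceil_iff.2 (by linarith)
  obtain ⟨n, hn⟩ : ∃ n, ⌈y⌉₊ = n + 1 := ⟨⌈y⌉₊ - 1, by omega⟩
  have h2 : ∑ p ∈ Nat.primesBelow ⌈y⌉₊, Real.log p = Chebyshev.theta n := by
    rw [Chebyshev.theta_eq_sum_primesLE_log, hn]; rfl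
  have h3 : (n : ℝ) < y := by
    have : n < ⌈y⌉₊ := by omega
    exact Nat.lt_ceil.1 this
  have h4 : y ≤ n + 1 := by
    have := Nat.le_ceil y
    rw [hn] at this
    exact_mod_cast this
  have h5 := Chebyshev.theta_ge n
  rw [h2]
  have h6 : Real.log ((n : ℝ) + 1) ≤ Real.log (y + 1) :=
    Real.log_le_log (by positivity) (by linarith)
  have hn1 : (1 : ℝ) ≤ n := by linarith
  have h7 : Real.sqrt n * Real.log n ≤ Real.sqrt y * Real.log y := by
    apply mul_le_mul (Real.sqrt_le_sqrt h3.le) (Real.log_le_log (by linarith) h3.le)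
      (Real.log_nonneg hn1) (Real.sqrt_nonneg _)
  have h8 : (0.69 : ℝ) ≤ Real.log 2 := by
    have := Real.log_two_gt_d9
    linarith
  nlinarith

end StepH53
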