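import Pool.Agent.W_aaa0df_h53.Exc
import Pool.Agent.W_aaa0df_h53.Param

set_option autoImplicit false

namespace StepH53

open Finset Real MPaaa0df Filter

/-- the pure inequality at the end of the argument -/
lemma final_ineq {n θ W L l y k η c1 R lM : ℝ} (hn : 1 ≤ n) (hη : 0 < η) (hη1 : η ≤ 1)
    (hL : 1 ≤ L) (hl : 1 ≤ l) (hy : y = η ^ 2 / 2 * (L * l) ^ 2)
    (hc1 : c1 = η / 40000) (hk : k ≤ 2 * (c1 * l)) (hk1 : 1 ≤ k)
    (hθ : θ ≤ 1.4 * y) (hW : y / 4 ≤ θ - W) (hlM : lM ≤ 3 * L) (hlM0 : 0 ≤ lM)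
    (hR : R ≤ 1.4 * y * (97 * k * Real.sqrt y)) (hR0 : 0 ≤ R)
    (hmain : (n * (θ - W)) ^ 2 ≤ (n * θ + n ^ 2 * lM) * R) :
    n ≤ L * l ^ 2 := by
  have hLl : 0 < L * l := by positivity
  have hy0 : 0 < y := by rw [hy]; positivity
  have hsq : Real.sqrt y = η / Real.sqrt 2 * (L * l) := by
    rw [hy]
    have h1 : η ^ 2 / 2 * (L * l) ^ 2 = (η / Real.sqrt 2 * (L * l)) ^ 2 := by
      rw [mul_pow (η / Real.sqrt 2), div_pow, Real.sq_sqrt (by norm_num : (0 : ℝ) ≤ 2)]
    rw [h1, Real.sqrt_sq (by positivity)]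
  have hs2 : Real.sqrt 2 ≤ 1.415 := by
    rw [Real.sqrt_le_left (by norm_num)]
    norm_num
  have hs20 : 0 < Real.sqrt 2 := by positivity
  set r := Real.sqrt y with hr
  have hr0 : 0 < r := Real.sqrt_pos.2 hy0
  have hrr : r * r = y := Real.mul_self_sqrt hy0.le
  -- lower bound for r
  have hrlow : η * (L * l) / 1.415 ≤ r := by
    rw [hsq, div_mul_eq_mul_div]
    apply div_le_div_of_nonneg_left (by positivity) hs20 hs2
  -- k r ≤ ...
  have hkr : 13000 * k * L ≤ r := by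
    have h1 : 13000 * k * L ≤ 13000 * (2 * (c1 * l)) * L := by
      have : k * L ≤ 2 * (c1 * l) * L := mul_le_mul_of_nonneg_right hk (by linarith)
      linarith
    have h2 : 13000 * (2 * (c1 * l)) * L = 0.65 * (η * (L * l)) := by rw [hc1]; ring
    have h3 : 0.65 * (η * (L * l)) ≤ η * (L * l) / 1.415 := by
      rw [le_div_iff₀ (by norm_num)]
      have : 0 ≤ η * (L * l) := by positivity
      nlinarith
    linarith
  -- main chain
  have h1 : (n * (y / 4)) ^ 2 ≤ (n * (θ - W)) ^ 2 := by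
    apply pow_le_pow_left₀ (by positivity)
    exact mul_le_mul_of_nonneg_left hW (by linarith)
  have h2 : (n * θ + n ^ 2 * lM) ≤ n * (1.4 * y + n * (3 * L)) := by
    have a1 : n * θ ≤ n * (1.4 * y) := mul_le_mul_of_nonneg_left hθ (by linarith)
    have a2 : n ^ 2 * lM ≤ n ^ 2 * (3 * L) := mul_le_mul_of_nonneg_left hlM (sq_nonneg n)
    nlinarith
  have h3 : (n * (y / 4)) ^ 2 ≤ n * (1.4 * y + n * (3 * L)) * (1.4 * y * (97 * k * r)) := by
    calc (n * (y / 4)) ^ 2 ≤ (n * (θ - W)) ^ 2 := h1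
      _ ≤ (n * θ + n ^ 2 * lM) * R := hmain
      _ ≤ n * (1.4 * y + n * (3 * L)) * R := mul_le_mul_of_nonneg_right h2 hR0
      _ ≤ n * (1.4 * y + n * (3 * L)) * (1.4 * y * (97 * k * r)) :=
          mul_le_mul_of_nonneg_left hR (by positivity)
  -- divide by n y r
  have h4 : n * r ≤ 2200 * k * (1.4 * y + n * (3 * L)) := by
    have e1 : (n * (y / 4)) ^ 2 = (n * y * r) * (n * r) / 16 := by
      have : y ^ 2 = y * (r * r) := by rw [hrr]; ring
      calc (n * (y / 4)) ^ 2 = n ^ 2 * y ^ 2 / 16 := by ring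
        _ = n ^ 2 * (y * (r * r)) / 16 := by rw [this]
        _ = _ := by ring
    have e2 : n * (1.4 * y + n * (3 * L)) * (1.4 * y * (97 * k * r))
        = (n * y * r) * (135.8 * k * (1.4 * y + n * (3 * L))) := by ring
    rw [e1, e2] at h3
    have hpos : 0 < n * y * r := by positivity
    have h5 : (n * y * r) * (n * r) ≤ (n * y * r) * (16 * (135.8 * k * (1.4 * y + n * (3 * L)))) := by
      linarith
    have h6 := le_of_mul_le_mul_left h5 hpos
    have h7 : 0 ≤ k * (1.4 * y + n * (3 * L)) := by positivity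
    linarith
  -- n r ≥ 13000 k L n
  have h5 : 13000 * k * L * n ≤ 2200 * k * (1.4 * y + n * (3 * L)) := by
    have : 13000 * k * L * n ≤ r * n := mul_le_mul_of_nonneg_right hkr (by linarith)
    linarith
  have h6 : 13000 * (L * n) ≤ 2200 * (1.4 * y + n * (3 * L)) := by
    have hk0 : 0 < k := by linarith
    have : k * (13000 * (L * n)) ≤ k * (2200 * (1.4 * y + n * (3 * L))) := by linarith
    exact le_of_mul_le_mul_left this hk0
  have h7 : L * n ≤ 0.5 * y := by nlinarith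
  have h8 : L * n ≤ L * (L * l ^ 2) := by
    calc L * n ≤ 0.5 * y := h7
      _ = 0.25 * η ^ 2 * (L * l) ^ 2 := by rw [hy]; ring
      _ ≤ 1 * (L * l) ^ 2 := by
          apply mul_le_mul_of_nonneg_right _ (sq_nonneg _)
          nlinarith
      _ = L * (L * l ^ 2) := by ring
  exact le_of_mul_le_mul_left h8 (by linarith)

/-- **Rank two theorem** (core form). -/
theorem core (η : ℝ) (hη : 0 < η) (hη1 : η ≤ 1) : ∃ C c X₀ : ℝ, 0 < C ∧ 0 < c ∧ 1 < X₀ ∧
    ∀ X : ℝ, X₀ ≤ X → ∀ m : ℕ, m = ⌈C * Real.log (Real.log X)⌉₊ →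
      ∀ (b : Fin m → ℤ × ℤ) (t : Fin m → ℤ) (A : Finset (ℤ × ℤ)) (s : ℤ × ℤ → ℤ),
        (∀ i j, i ≠ j → wedge (b i) (b j) ≠ 0) →
        (∀ a ∈ A, ∀ a' ∈ A, a ≠ a' → wedge a a' ≠ 0) →
        (∀ a ∈ A, ∀ j, Exc η c X (s a * t j * dot a (b j))) →
        (A.card : ℝ) ≤ Real.log X * Real.log (Real.log X) ^ 2 := by
  set c1 : ℝ := η / 40000 with hc1
  have hc1p : 0 < c1 := by positivity
  set C : ℝ := 8 * Real.exp 1 * c1 * Real.exp (1 / c1) with hC
  have hCp : 0 < C := by positivity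
  set c : ℝ := η ^ 2 / (400 * C) with hc
  have hcp : 0 < c := by positivity
  -- collect the asymptotic conditions
  have hev : ∀ᶠ X : ℝ in atTop, 1 < X ∧ 1 ≤ Real.log X ∧ 1 ≤ Real.log (Real.log X)
      ∧ 1 ≤ c1 * Real.log (Real.log X) ∧ 2 ≤ C * Real.log (Real.log X)
      ∧ -4 * Real.log η ≤ Real.log (Real.log X)
      ∧ Real.log (Real.log X) ^ 2 ≤ Real.log X
      ∧ 384 * (C ^ 2 + 1) / η ^ 2 * 4 ≤ Real.log X
      ∧ 4000 * C / η ^ 2 ≤ Real.log X
      ∧ (η ^ 2 / 2 * (Real.log X * Real.log (Real.log X)) ^ 2) / 2 ≤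
          ∑ p ∈ Nat.primesBelow ⌈η ^ 2 / 2 * (Real.log X * Real.log (Real.log X)) ^ 2⌉₊, Real.log p
      ∧ (4 / η) * Real.log (Real.log X) ^ 2 ≤ Real.log X ∧ 1 ≤ η / 4 * Real.log X
      ∧ Real.log 2 ≤ Real.log X := by
    have hy : Tendsto (fun X : ℝ => η ^ 2 / 2 * (Real.log X * Real.log (Real.log X)) ^ 2) atTop atTop := by
      have h1 : Tendsto (fun X : ℝ => Real.log X * Real.log (Real.log X)) atTop atTop :=
        Real.tendsto_log_atTop.atTop_mul_atTop₀ (Real.tendsto_log_atTop.comp Real.tendsto_log_atTop)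
      exact ((tendsto_pow_atTop (two_ne_zero)).comp h1).const_mul_atTop (by positivity)
    have h2 := hy.eventually theta_lower
    filter_upwards [eventually_gt_atTop (1 : ℝ), ev_log 1, ev_loglog 1, ev_loglog (1 / c1),
      ev_loglog (2 / C), ev_loglog (-4 * Real.log η), ev_pow 1 2,
      ev_log (384 * (C ^ 2 + 1) / η ^ 2 * 4), ev_log (4000 * C / η ^ 2), h2, ev_pow (4 / η) 2,
      ev_log (4 / η), ev_log (Real.log 2)] with X h1 h2 h3 h4 h5 h6 h7 h8 h9 h10 h11 h12 h13
    refine ⟨h1, h2, h3, ?_, ?_, h6, by linarith, h8, h9, h10, h11, ?_, h13⟩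
    · rw [div_le_iff₀ hc1p] at h4; linarith
    · rw [div_le_iff₀ hCp] at h5; linarith
    · rw [div_le_iff₀ hη] at h12; linarith
  obtain ⟨X₀, hX₀⟩ := Filter.eventually_atTop.1 hev
  refine ⟨C, c, max X₀ 2, hCp, hcp, by
    exact lt_of_lt_of_le (by norm_num) (le_max_right X₀ 2), ?_⟩
  intro X hX m hm b t A s hb hA hexc
  obtain ⟨hX1, hL1, hl1, hcl, hCl, hlη, hlL, hL2, hL3, hθlow, hLl2, hηL, hlog2⟩ :=
    hX₀ X ((le_max_left _ _).trans hX)
  set L := Real.log X with hLdef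
  set l := Real.log L with hldef
  set y : ℝ := η ^ 2 / 2 * (L * l) ^ 2 with hy
  -- small sets are trivial
  by_cases hcard : A.card ≤ 1
  · have h1 : (A.card : ℝ) ≤ 1 := by exact_mod_cast hcard
    have h2 : 1 ≤ L * l ^ 2 := by nlinarith [mul_le_mul hL1 (one_le_pow₀ (n := 2) hl1) (by norm_num) (by linarith)]
    linarith
  push Not at hcard
  obtain ⟨a0, ha0, a1, ha1, ha01⟩ := Finset.one_lt_card.1 hcard
  -- m and k
  have hm1 : C * l ≤ m := by rw [hm]; exact Nat.le_ceil _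
  have hm2 : (m : ℝ) ≤ 2 * (C * l) := by
    have := Nat.ceil_lt_add_one (show 0 ≤ C * l by positivity)
    rw [← hm] at this
    linarith
  have hm3 : 2 ≤ m := by
    have : (2 : ℝ) ≤ m := by linarith
    exact_mod_cast this
  set k : ℕ := ⌈c1 * l⌉₊ with hk
  have hk1 : c1 * l ≤ k := Nat.le_ceil _
  have hk2 : (k : ℝ) ≤ 2 * (c1 * l) := by
    have := Nat.ceil_lt_add_one (show 0 ≤ c1 * l by positivity)
    rw [← hk] at this
    linarith
  have hk3 : 1 ≤ k := by
    have : (1 : ℝ) ≤ k := by linarith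
    exact_mod_cast this
  -- bounds for the entries
  have hX0 : 0 < X := by linarith
  have hne : ∀ a ∈ A, ∀ j, s a * t j * dot a (b j) ≠ 0 := by
    intro a ha j h
    obtain ⟨_, d, f, hf, _, h4, hdX, _⟩ := hexc a ha j
    rw [h, mul_zero] at h4
    rcases mul_eq_zero.1 h4.symm with h5 | h5
    · rw [h5] at hdX
      have h6 : (0 : ℝ) < X ^ η := Real.rpow_pos_of_pos hX0 _
      simp at hdX
      linarith
    · exact hf (pow_eq_zero_iff (two_ne_zero) |>.1 h5)
  have hdot : ∀ a ∈ A, ∀ j, |((dot a (b j) : ℤ) : ℝ)| ≤ X := by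
    intro a ha j
    have h1 := (hexc a ha j).1
    have h2 := hne a ha j
    have h3 : s a * t j ≠ 0 := left_ne_zero_of_mul h2
    have h4 : (1 : ℝ) ≤ |((s a * t j : ℤ) : ℝ)| := by
      have := Int.one_le_abs h3
      exact_mod_cast this
    have h5 : |((s a * t j * dot a (b j) : ℤ) : ℝ)|
        = |((s a * t j : ℤ) : ℝ)| * |((dot a (b j) : ℤ) : ℝ)| := by
      rw [← abs_mul]; push_cast; rfl
    rw [h5] at h1
    have h6 : 0 ≤ |((dot a (b j) : ℤ) : ℝ)| := abs_nonneg _
    nlinarith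
  have hminor : ∀ a ∈ A, ∀ a' ∈ A, ∀ i j : Fin m,
      |((wedge a a' * wedge (b i) (b j) : ℤ) : ℝ)| ≤ 2 * X ^ 2 := by
    intro a ha a' ha' i j
    rw [wedge_mul]
    push_cast
    have h1 := hdot a ha i
    have h2 := hdot a' ha' j
    have h3 := hdot a ha j
    have h4 := hdot a' ha' i
    calc |((dot a (b i) : ℤ) : ℝ) * ((dot a' (b j) : ℤ) : ℝ)
          - ((dot a (b j) : ℤ) : ℝ) * ((dot a' (b i) : ℤ) : ℝ)|
        ≤ |((dot a (b i) : ℤ) : ℝ) * ((dot a' (b j) : ℤ) : ℝ)|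
          + |((dot a (b j) : ℤ) : ℝ) * ((dot a' (b i) : ℤ) : ℝ)| := abs_sub _ _
      _ ≤ X * X + X * X := by
          rw [abs_mul, abs_mul]
          exact add_le_add (mul_le_mul h1 h2 (abs_nonneg _) hX0.le)
            (mul_le_mul h3 h4 (abs_nonneg _) hX0.le)
      _ = 2 * X ^ 2 := by ring
  have hwA : ∀ a ∈ A, ∀ a' ∈ A, a ≠ a' → wedge a a' ≠ 0 ∧ |((wedge a a' : ℤ) : ℝ)| ≤ 2 * X ^ 2 := by
    intro a ha a' ha' hne'
    refine ⟨hA a ha a' ha' hne', ?_⟩
    have h1 := hminor a ha a' ha' ⟨0, by omega⟩ ⟨1, by omega⟩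
    have h2 := hb ⟨0, by omega⟩ ⟨1, by omega⟩ (by simp)
    push_cast at h1
    rw [abs_mul] at h1
    have h3 : (1 : ℝ) ≤ |((wedge (b ⟨0, by omega⟩) (b ⟨1, by omega⟩) : ℤ) : ℝ)| := by
      have := Int.one_le_abs h2
      exact_mod_cast this
    have h6 : 0 ≤ |((wedge a a' : ℤ) : ℝ)| := abs_nonneg _
    nlinarith
  have hwb : ∀ i j, i ≠ j → |((wedge (b i) (b j) : ℤ) : ℝ)| ≤ 2 * X ^ 2 := by
    intro i j _
    have h1 := hminor a0 ha0 a1 ha1 i j
    have h2 := hA a0 ha0 a1 ha1 ha01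
    push_cast at h1
    rw [abs_mul] at h1
    have h3 : (1 : ℝ) ≤ |((wedge a0 a1 : ℤ) : ℝ)| := by
      have := Int.one_le_abs h2
      exact_mod_cast this
    have h6 : 0 ≤ |((wedge (b i) (b j) : ℤ) : ℝ)| := abs_nonneg _
    nlinarith
  have hlogM : Real.log (2 * X ^ 2) ≤ 3 * L := by
    rw [Real.log_mul (by norm_num) (by positivity), Real.log_pow]
    push_cast
    linarith
  -- the set of primes
  set F := Nat.primesBelow ⌈y⌉₊ with hF
  set Bad := F.filter (fun p : ℕ => p = 2 ∨ ∃ i j, i ≠ j ∧ (p : ℤ) ∣ wedge (b i) (b j)) with hBad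
  set P := F.filter (fun p : ℕ => ¬ (p = 2 ∨ ∃ i j, i ≠ j ∧ (p : ℤ) ∣ wedge (b i) (b j))) with hP
  have hFp : ∀ p ∈ F, p.Prime := fun p hp => Nat.prime_of_mem_primesBelow hp
  have hFy : ∀ p ∈ F, (p : ℝ) < y := fun p hp => Nat.lt_ceil.1 (Nat.mem_primesBelow.1 hp).1
  have hlog0 : ∀ p : ℕ, 0 ≤ Real.log (p : ℝ) := fun p => Real.log_natCast_nonneg p
  have hLl0 : 0 < L * l := by positivity
  have hy0 : 0 < y := by rw [hy]; positivity
  have hylog : Real.log y ≤ 3 * l := by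
    have h1 : y ≤ L ^ 3 := by
      rw [hy]
      have h2 : (L * l) ^ 2 ≤ L ^ 3 := by
        have : L ^ 2 * l ^ 2 ≤ L ^ 2 * L := mul_le_mul_of_nonneg_left hlL (by positivity)
        nlinarith
      have h3 : η ^ 2 / 2 ≤ 1 := by nlinarith
      calc η ^ 2 / 2 * (L * l) ^ 2 ≤ 1 * L ^ 3 := mul_le_mul h3 h2 (by positivity) (by norm_num)
        _ = L ^ 3 := one_mul _
    have h2 := Real.log_le_log hy0 h1
    rw [Real.log_pow] at h2
    push_cast at h2
    exact h2
  have hFlog : ∀ p ∈ F, Real.log p ≤ 3 * l := by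
    intro p hp
    have h1 : (0 : ℝ) < p := by exact_mod_cast (hFp p hp).pos
    exact (Real.log_le_log h1 (hFy p hp).le).trans hylog
  have hy1 : 1 ≤ y := by
    -- from `1 ≤ η/4 L` and `l ≥ 1`
    rw [hy]
    have h1 : 4 ≤ η * L := by linarith
    have h2 : 4 ≤ η * (L * l) := by nlinarith
    have h3 : (4 : ℝ) ^ 2 ≤ (η * (L * l)) ^ 2 := pow_le_pow_left₀ (by norm_num) h2 2
    nlinarith
  have hθup : ∑ p ∈ P, Real.log (p : ℝ) ≤ 1.4 * y :=
    (Finset.sum_le_sum_of_subset_of_nonneg (Finset.filter_subset _ _)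
      (fun p _ _ => hlog0 p)).trans (theta_upper hy1)
  -- the weight of the bad primes
  have hbadw : ∑ p ∈ Bad, Real.log (p : ℝ) ≤ Real.log 2 + (m : ℝ) ^ 2 * (3 * L) := by
    have h1 : Bad ⊆ {2} ∪ ((univ : Finset (Fin m × Fin m)).filter (fun x => x.1 ≠ x.2)).biUnion
        (fun x => F.filter (fun p : ℕ => (p : ℤ) ∣ wedge (b x.1) (b x.2))) := by
      intro p hp
      rw [hBad, Finset.mem_filter] at hp
      rcases hp.2 with h | ⟨i, j, hij, hd⟩
      · apply Finset.mem_union_left; rw [h]; exact Finset.mem_singleton_self _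
      · apply Finset.mem_union_right
        exact Finset.mem_biUnion.2 ⟨(i, j), Finset.mem_filter.2 ⟨Finset.mem_univ _, hij⟩,
          Finset.mem_filter.2 ⟨hp.1, hd⟩⟩
    have h2 : ∑ p ∈ ((univ : Finset (Fin m × Fin m)).filter (fun x => x.1 ≠ x.2)).biUnion
        (fun x => F.filter (fun p : ℕ => (p : ℤ) ∣ wedge (b x.1) (b x.2))), Real.log (p : ℝ)
        ≤ ∑ x ∈ (univ : Finset (Fin m × Fin m)).filter (fun x => x.1 ≠ x.2),
          ∑ p ∈ F.filter (fun p : ℕ => (p : ℤ) ∣ wedge (b x.1) (b x.2)), Real.log (p : ℝ) := by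
      classical
      induction (univ : Finset (Fin m × Fin m)).filter (fun x => x.1 ≠ x.2) using
        Finset.induction_on with
      | empty => simp
      | insert a S ha ih =>
        rw [Finset.biUnion_insert, Finset.sum_insert ha]
        have h3 := Finset.sum_union_inter (s₁ := F.filter (fun p : ℕ => (p : ℤ) ∣ wedge (b a.1) (b a.2)))
          (s₂ := S.biUnion (fun x => F.filter (fun p : ℕ => (p : ℤ) ∣ wedge (b x.1) (b x.2))))
          (f := fun p : ℕ => Real.log (p : ℝ))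
        have h4 : 0 ≤ ∑ p ∈ F.filter (fun p : ℕ => (p : ℤ) ∣ wedge (b a.1) (b a.2)) ∩
            S.biUnion (fun x => F.filter (fun p : ℕ => (p : ℤ) ∣ wedge (b x.1) (b x.2))),
            Real.log (p : ℝ) := Finset.sum_nonneg (fun p _ => hlog0 p)
        linarith
    have h3 : ∑ x ∈ (univ : Finset (Fin m × Fin m)).filter (fun x => x.1 ≠ x.2),
          ∑ p ∈ F.filter (fun p : ℕ => (p : ℤ) ∣ wedge (b x.1) (b x.2)), Real.log (p : ℝ)
          ≤ (m : ℝ) ^ 2 * (3 * L) := by
      calc ∑ x ∈ (univ : Finset (Fin m × Fin m)).filter (fun x => x.1 ≠ x.2),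
          ∑ p ∈ F.filter (fun p : ℕ => (p : ℤ) ∣ wedge (b x.1) (b x.2)), Real.log (p : ℝ)
          ≤ ∑ _x ∈ (univ : Finset (Fin m × Fin m)).filter (fun x => x.1 ≠ x.2), (3 * L) := by
            apply Finset.sum_le_sum
            intro x hx
            have hx' := (Finset.mem_filter.1 hx).2
            refine (sum_log_dvd_le F hFp _ (hb _ _ hx')).trans ?_
            refine (Real.log_le_log ?_ (hwb _ _ hx')).trans hlogM
            exact abs_pos.2 (by exact_mod_cast hb _ _ hx')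
        _ ≤ (m : ℝ) ^ 2 * (3 * L) := by
            rw [Finset.sum_const, nsmul_eq_mul]
            apply mul_le_mul_of_nonneg_right _ (by positivity)
            have h4 : ((univ : Finset (Fin m × Fin m)).filter (fun x => x.1 ≠ x.2)).card ≤ m ^ 2 := by
              refine (Finset.card_le_univ _).trans ?_
              rw [Fintype.card_prod, Fintype.card_fin, sq]
            exact_mod_cast h4
    calc ∑ p ∈ Bad, Real.log (p : ℝ) ≤ _ :=
          Finset.sum_le_sum_of_subset_of_nonneg h1 (fun p _ _ => hlog0 p)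
      _ ≤ ∑ p ∈ ({2} : Finset ℕ), Real.log (p : ℝ) + ∑ p ∈ ((univ : Finset (Fin m × Fin m)).filter (fun x => x.1 ≠ x.2)).biUnion
        (fun x => F.filter (fun p : ℕ => (p : ℤ) ∣ wedge (b x.1) (b x.2))), Real.log (p : ℝ) := by
          rw [← Finset.sum_union_inter]
          have : 0 ≤ ∑ p ∈ ({2} : Finset ℕ) ∩ ((univ : Finset (Fin m × Fin m)).filter (fun x => x.1 ≠ x.2)).biUnion
            (fun x => F.filter (fun p : ℕ => (p : ℤ) ∣ wedge (b x.1) (b x.2))), Real.log (p : ℝ) :=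
            Finset.sum_nonneg (fun p _ => hlog0 p)
          linarith
      _ ≤ Real.log 2 + (m : ℝ) ^ 2 * (3 * L) := by
          rw [Finset.sum_singleton]
          push_cast
          linarith
  have hPlow : y / 2 - (Real.log 2 + (m : ℝ) ^ 2 * (3 * L)) ≤ ∑ p ∈ P, Real.log (p : ℝ) := by
    have h1 := Finset.sum_filter_add_sum_filter_not F
      (fun p : ℕ => p = 2 ∨ ∃ i j, i ≠ j ∧ (p : ℤ) ∣ wedge (b i) (b j)) (fun p : ℕ => Real.log (p : ℝ))
    rw [← hBad, ← hP] at h1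
    linarith
  -- threshold
  have hthr : ∀ d : ℤ, X ^ η ≤ |(d : ℝ)| → y ≤ threshold d := by
    intro d hd
    unfold threshold
    have h1 : η * L ≤ Real.log |(d : ℝ)| := by
      have h2 : (0 : ℝ) < X ^ η := Real.rpow_pos_of_pos hX0 _
      have h3 := Real.log_le_log h2 hd
      rwa [Real.log_rpow hX0] at h3
    have hηL0 : 0 < η * L := by positivity
    have h2 : 3 / 4 * l ≤ Real.log (Real.log |(d : ℝ)|) := by
      have h3 := Real.log_le_log hηL0 h1
      rw [Real.log_mul hη.ne' (by positivity)] at h3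
      have h4 : Real.log L = l := rfl
      linarith
    have h3 : (η * L) ^ 2 ≤ Real.log |(d : ℝ)| ^ 2 := pow_le_pow_left₀ hηL0.le h1 2
    have h4 : (3 / 4 * l) ^ 2 ≤ Real.log (Real.log |(d : ℝ)|) ^ 2 :=
      pow_le_pow_left₀ (by positivity) h2 2
    calc y = (η * L) ^ 2 * (l ^ 2 / 2) := by rw [hy]; ring
      _ ≤ (η * L) ^ 2 * (3 / 4 * l) ^ 2 := by
          apply mul_le_mul_of_nonneg_left _ (sq_nonneg _)
          nlinarith [sq_nonneg l]
      _ ≤ _ := mul_le_mul h3 h4 (sq_nonneg _) (sq_nonneg _)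
  set W : ℝ := m * (c * L ^ 2 * (3 * l) + L) with hW
  have hWbound : ∀ a ∈ A, ∑ p ∈ P.filter
      (fun p : ℕ => ∃ j, jacobiSym (s a * t j * dot a (b j)) p ≠ -1), Real.log (p : ℝ) ≤ W := by
    intro a ha
    have hPprop : ∀ p ∈ P, p.Prime ∧ p ≠ 2 ∧ (p : ℝ) < y ∧ Real.log p ≤ 3 * l := by
      intro p hp
      rw [hP, Finset.mem_filter] at hp
      push Not at hp
      exact ⟨hFp p hp.1, hp.2.1, hFy p hp.1, hFlog p hp.1⟩
    have h1 : P.filter (fun p : ℕ => ∃ j, jacobiSym (s a * t j * dot a (b j)) p ≠ -1)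
        = (univ : Finset (Fin m)).biUnion
          (fun j => P.filter (fun p : ℕ => jacobiSym (s a * t j * dot a (b j)) p ≠ -1)) := by
      ext p
      simp only [Finset.mem_filter, Finset.mem_biUnion, Finset.mem_univ, true_and]
      tauto
    rw [h1]
    have h2 : ∀ S : Finset (Fin m), ∑ p ∈ S.biUnion
          (fun j => P.filter (fun p : ℕ => jacobiSym (s a * t j * dot a (b j)) p ≠ -1)), Real.log (p : ℝ)
        ≤ ∑ j ∈ S, ∑ p ∈ P.filter (fun p : ℕ => jacobiSym (s a * t j * dot a (b j)) p ≠ -1),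
          Real.log (p : ℝ) := by
      intro S
      classical
      induction S using Finset.induction_on with
      | empty => simp
      | insert a' S ha' ih =>
        rw [Finset.biUnion_insert, Finset.sum_insert ha']
        have h3 := Finset.sum_union_inter
          (s₁ := P.filter (fun p : ℕ => jacobiSym (s a * t a' * dot a (b a')) p ≠ -1))
          (s₂ := S.biUnion (fun j => P.filter (fun p : ℕ => jacobiSym (s a * t j * dot a (b j)) p ≠ -1)))
          (f := fun p : ℕ => Real.log (p : ℝ))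
        have h4 : 0 ≤ ∑ p ∈ P.filter (fun p : ℕ => jacobiSym (s a * t a' * dot a (b a')) p ≠ -1) ∩
            S.biUnion (fun j => P.filter (fun p : ℕ => jacobiSym (s a * t j * dot a (b j)) p ≠ -1)),
            Real.log (p : ℝ) := Finset.sum_nonneg (fun p _ => hlog0 p)
        linarith
    refine (h2 univ).trans ?_
    calc ∑ j, ∑ p ∈ P.filter (fun p : ℕ => jacobiSym (s a * t j * dot a (b j)) p ≠ -1),
          Real.log (p : ℝ) ≤ ∑ _j : Fin m, (c * L ^ 2 * (3 * l) + L) := by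
          apply Finset.sum_le_sum
          intro j _
          exact exc_weight hX1 (by positivity) hcp.le (hexc a ha j) hthr P hPprop
      _ = W := by rw [Finset.sum_const, Finset.card_univ, Fintype.card_fin, nsmul_eq_mul]
  -- numerical comparison
  have hWy : y / 4 ≤ ∑ p ∈ P, Real.log (p : ℝ) - W := by
    have e1 : (m : ℝ) ^ 2 ≤ 4 * C ^ 2 * l ^ 2 := by
      have := pow_le_pow_left₀ (Nat.cast_nonneg m) hm2 2
      calc (m : ℝ) ^ 2 ≤ (2 * (C * l)) ^ 2 := this
        _ = 4 * C ^ 2 * l ^ 2 := by ring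
    have e2 : Real.log 2 + (m : ℝ) ^ 2 * (3 * L) ≤ y / 16 := by
      have f1 : (m : ℝ) ^ 2 * (3 * L) ≤ 12 * C ^ 2 * (l ^ 2 * L) := by
        calc (m : ℝ) ^ 2 * (3 * L) ≤ (4 * C ^ 2 * l ^ 2) * (3 * L) :=
              mul_le_mul_of_nonneg_right e1 (by positivity)
          _ = _ := by ring
      have f2 : Real.log 2 ≤ 12 * (l ^ 2 * L) := by
        have : (1 : ℝ) ≤ l ^ 2 := one_le_pow₀ hl1
        have h5 : L ≤ l ^ 2 * L := by nlinarith
        linarith
      have f3 : 384 * (C ^ 2 + 1) ≤ η ^ 2 * L := by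
        have h5 : 384 * (C ^ 2 + 1) / η ^ 2 ≤ L := by
          have : 0 ≤ 384 * (C ^ 2 + 1) / η ^ 2 := by positivity
          linarith
        rw [div_le_iff₀ (by positivity)] at h5
        linarith
      have f4 : y / 16 = η ^ 2 * L * (l ^ 2 * L) / 32 := by rw [hy]; ring
      rw [f4]
      have f5 : 0 ≤ l ^ 2 * L := by positivity
      have f6 := mul_le_mul_of_nonneg_right f3 f5
      nlinarith
    have e3 : W ≤ y / 16 := by
      have f1 : W ≤ 2 * (C * l) * (c * L ^ 2 * (3 * l) + L) :=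
        mul_le_mul_of_nonneg_right hm2 (by positivity)
      have f2 : 2 * (C * l) * (c * L ^ 2 * (3 * l) + L)
          = 6 * (C * c) * (L ^ 2 * l ^ 2) + 2 * C * (l * L) := by ring
      have f3 : C * c = η ^ 2 / 400 := by rw [hc]; field_simp
      have f4 : y / 16 = η ^ 2 / 32 * (L ^ 2 * l ^ 2) := by rw [hy]; ring
      have f5 : 4000 * C ≤ η ^ 2 * L := by
        rw [div_le_iff₀ (by positivity)] at hL3
        linarith
      have f6 : l * L ≤ l ^ 2 * L := by nlinarith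
      have f7 : 2 * C * (l * L) ≤ η ^ 2 / 2000 * (L ^ 2 * l ^ 2) := by
        have g1 : 2 * C * (l * L) ≤ 2 * C * (l ^ 2 * L) := by
          apply mul_le_mul_of_nonneg_left f6; positivity
        have g2 : 4000 * C * (l ^ 2 * L) ≤ η ^ 2 * L * (l ^ 2 * L) :=
          mul_le_mul_of_nonneg_right f5 (by positivity)
        nlinarith
      rw [f2, f3] at f1
      rw [f4]
      have f8 : 0 ≤ η ^ 2 * (L ^ 2 * l ^ 2) := by positivity
      nlinarith
    linarith
  have hWθ : W ≤ ∑ p ∈ P, Real.log (p : ℝ) := by linarith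
  have hX2 : (1 : ℝ) ≤ 2 * X ^ 2 := by nlinarith
  have hsieve := sieve_main hk3 (by omega : 1 ≤ m) P b (by
      intro p hp
      rw [hP, Finset.mem_filter] at hp
      push Not at hp
      exact ⟨hFp p hp.1, hp.2.1, fun i j hij => hp.2.2 i j hij⟩) t s A (2 * X ^ 2) hX2 hwA W
      hWbound hWθ
  -- the second factor
  set R : ℝ := ∑ p ∈ P, Real.log (p : ℝ)
          * (2 * (4 * Real.exp 1 * k / m) ^ (2 * k) * p + 96 * k * Real.sqrt p + 1) with hR
  have hR0 : 0 ≤ R := Finset.sum_nonneg (fun p _ => mul_nonneg (hlog0 p) (by positivity))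
  have hq : (4 * Real.exp 1 * (k : ℝ) / m) ^ (2 * k) ≤ 1 / L ^ 2 := by
    have h1 : 4 * Real.exp 1 * (k : ℝ) / m ≤ Real.exp (-(1 / c1)) := by
      have hmpos : (0 : ℝ) < m := by positivity
      rw [div_le_iff₀ hmpos]
      have h2 : Real.exp (-(1 / c1)) * (C * l) ≤ Real.exp (-(1 / c1)) * m :=
        mul_le_mul_of_nonneg_left hm1 (Real.exp_pos _).le
      have h3 : Real.exp (-(1 / c1)) * (C * l) = 8 * Real.exp 1 * (c1 * l) := by
        rw [hC]
        have : Real.exp (-(1 / c1)) * Real.exp (1 / c1) = 1 := by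
          rw [← Real.exp_add]; simp
        calc Real.exp (-(1 / c1)) * (8 * Real.exp 1 * c1 * Real.exp (1 / c1) * l)
            = (Real.exp (-(1 / c1)) * Real.exp (1 / c1)) * (8 * Real.exp 1 * (c1 * l)) := by ring
          _ = _ := by rw [this, one_mul]
      have h4 : 4 * Real.exp 1 * (k : ℝ) ≤ 8 * Real.exp 1 * (c1 * l) := by
        have := mul_le_mul_of_nonneg_left hk2 (by positivity : 0 ≤ 4 * Real.exp 1)
        linarith
      linarith
    calc (4 * Real.exp 1 * (k : ℝ) / m) ^ (2 * k) ≤ Real.exp (-(1 / c1)) ^ (2 * k) :=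
          pow_le_pow_left₀ (by positivity) h1 _
      _ = Real.exp (-(2 * k / c1)) := by
          rw [← Real.exp_nat_mul]
          congr 1
          push_cast
          ring
      _ ≤ Real.exp (-(2 * l)) := by
          apply Real.exp_le_exp.2
          have : l ≤ k / c1 := by rw [le_div_iff₀ hc1p]; linarith
          have h5 : 2 * (k : ℝ) / c1 = 2 * (k / c1) := by ring
          rw [h5]; linarith
      _ = 1 / L ^ 2 := by
          have hL0 : 0 < L := by linarith
          rw [Real.exp_neg, show (2 : ℝ) * l = l * 2 by ring, Real.exp_mul, hldef, Real.exp_log hL0,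
            one_div]
          norm_cast
  have hR1 : R ≤ 1.4 * y * (97 * k * Real.sqrt y) := by
    have hk0 : (1 : ℝ) ≤ k := by exact_mod_cast hk3
    have h1 : ∀ p ∈ P, 2 * (4 * Real.exp 1 * (k : ℝ) / m) ^ (2 * k) * p + 96 * k * Real.sqrt p + 1
        ≤ 97 * k * Real.sqrt y := by
      intro p hp
      rw [hP, Finset.mem_filter] at hp
      have hpy := (hFy p hp.1).le
      have h2 : Real.sqrt p ≤ Real.sqrt y := Real.sqrt_le_sqrt hpy
      have h3 : 2 * (4 * Real.exp 1 * (k : ℝ) / m) ^ (2 * k) * p ≤ 2 * (1 / L ^ 2) * y := by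
        apply mul_le_mul _ hpy (Nat.cast_nonneg _) (by positivity)
        linarith
      have h4 : 2 * (1 / L ^ 2) * y = η ^ 2 * l ^ 2 := by
        rw [hy]; field_simp
      have h5 : η ^ 2 * l ^ 2 + 1 ≤ Real.sqrt y := by
        apply Real.le_sqrt_of_sq_le
        -- (η² l² + 1)² ≤ η²/2 (L l)²
        have g1 : 4 * l ^ 2 ≤ η * L := by
          have := mul_le_mul_of_nonneg_left hLl2 hη.le
          have e1 : η * (4 / η * l ^ 2) = 4 * l ^ 2 := by field_simp
          rw [e1] at this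
          exact this
        have g2 : η ^ 2 * l ^ 2 + 1 ≤ 2 * l ^ 2 := by
          have : (1 : ℝ) ≤ l ^ 2 := one_le_pow₀ hl1
          have h6 : η ^ 2 ≤ 1 := pow_le_one₀ hη.le hη1
          nlinarith
        have g3 : (η ^ 2 * l ^ 2 + 1) ^ 2 ≤ (2 * l ^ 2) ^ 2 :=
          pow_le_pow_left₀ (by positivity) g2 2
        have g4 : (4 * l ^ 2) ^ 2 ≤ (η * L) ^ 2 := pow_le_pow_left₀ (by positivity) g1 2
        have g5 : (η * L) ^ 2 ≤ (η * L) ^ 2 * l ^ 2 := by
          have : (1 : ℝ) ≤ l ^ 2 := one_le_pow₀ hl1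
          nlinarith [sq_nonneg (η * L)]
        have g6 : y = (η * L) ^ 2 * l ^ 2 / 2 := by rw [hy]; ring
        rw [g6]
        nlinarith
      have h6 : Real.sqrt y ≤ k * Real.sqrt y := by nlinarith [Real.sqrt_nonneg y]
      have h7 : 96 * k * Real.sqrt p ≤ 96 * k * Real.sqrt y :=
        mul_le_mul_of_nonneg_left h2 (by positivity)
      nlinarith
    calc R ≤ ∑ p ∈ P, Real.log (p : ℝ) * (97 * k * Real.sqrt y) := by
          apply Finset.sum_le_sum
          intro p hp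
          exact mul_le_mul_of_nonneg_left (h1 p hp) (hlog0 p)
      _ = (∑ p ∈ P, Real.log (p : ℝ)) * (97 * k * Real.sqrt y) := by rw [Finset.sum_mul]
      _ ≤ 1.4 * y * (97 * k * Real.sqrt y) := mul_le_mul_of_nonneg_right hθup (by positivity)
  have hncard : (1 : ℝ) ≤ A.card := by
    have : 1 ≤ A.card := by omega
    exact_mod_cast this
  exact final_ineq hncard hη hη1 hL1 hl1 hy hc1 hk2 (by exact_mod_cast hk3) hθup hWy hlogM
    (Real.log_nonneg hX2) hR1 hR0 hsieve

end StepH53
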