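import Pool.Agent.W_aaa0df_h53.Cor4

set_option autoImplicit false

namespace StepH53

open Finset Real MPaaa0df

/-- counting form of the rank two theorem -/
lemma counting_matrix {η c X Bd : ℝ} {m : ℕ} (hcore : CoreAt η c X Bd m) (n H M : ℕ)
    (a : Fin n → ℤ × ℤ) (b : Fin H → ℤ × ℤ) (s : Fin n → ℤ) (t : Fin H → ℤ)
    (ha : ∀ i i', i ≠ i' → wedge (a i) (a i') ≠ 0)
    (hb : ∀ j j', j ≠ j' → wedge (b j) (b j') ≠ 0)
    (hE : ∀ i, M ≤ {j : Fin H | Exc η c X (s i * t j * dot (a i) (b j))}.ncard) :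
    (n : ℝ) * (M.choose m : ℝ) ≤ (H.choose m : ℝ) * Bd := by
  classical
  have hinj : Function.Injective a := by
    intro i i' h
    by_contra hne
    apply ha i i' hne
    rw [h]; unfold wedge; ring
  set R : Finset (Fin H) → Finset (Fin n) := fun S =>
    univ.filter (fun i => ∀ j ∈ S, Exc η c X (s i * t j * dot (a i) (b j))) with hR
  have h1 : ∀ S ∈ (univ : Finset (Fin H)).powersetCard m, ((R S).card : ℝ) ≤ Bd := by
    intro S hS
    rw [Finset.mem_powersetCard] at hS
    obtain ⟨_, hcard⟩ := hS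
    set e : Fin m ≃ S := (S.equivFinOfCardEq hcard).symm with he
    have h2 := hcore (fun j => b (e j)) (fun j => t (e j)) ((R S).image a)
      (Function.extend a s (fun _ => 0)) ?_ ?_ ?_
    · rw [Finset.card_image_of_injective _ hinj] at h2
      exact h2
    · intro i j hij
      apply hb
      intro h
      exact hij (e.injective (Subtype.ext h))
    · intro x hx y hy hne
      obtain ⟨i, _, rfl⟩ := Finset.mem_image.1 hx
      obtain ⟨i', _, rfl⟩ := Finset.mem_image.1 hy
      exact ha i i' (fun h => hne (by rw [h]))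
    · intro x hx j
      obtain ⟨i, hi, rfl⟩ := Finset.mem_image.1 hx
      rw [hinj.extend_apply]
      exact (Finset.mem_filter.1 hi).2 (e j) (e j).2
  set ex : Fin n → Finset (Fin H) := fun i =>
    univ.filter (fun j => Exc η c X (s i * t j * dot (a i) (b j))) with hex
  have hexc : ∀ i, M ≤ (ex i).card := by
    intro i
    have h2 := hE i
    rw [Set.ncard_eq_toFinset_card'] at h2
    have h3 : {j : Fin H | Exc η c X (s i * t j * dot (a i) (b j))}.toFinset = ex i := by
      ext j; simp [hex]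
    rw [h3] at h2
    exact h2
  have h3 : (n : ℝ) * (M.choose m : ℝ) ≤ ∑ i : Fin n,
      ((((univ : Finset (Fin H)).powersetCard m).filter (fun S => S ⊆ ex i)).card : ℝ) := by
    have h4 : (n : ℝ) * (M.choose m : ℝ) = ∑ _i : Fin n, (M.choose m : ℝ) := by
      rw [Finset.sum_const, Finset.card_univ, Fintype.card_fin, nsmul_eq_mul]
    rw [h4]
    apply Finset.sum_le_sum
    intro i _
    have h5 : (ex i).powersetCard m ⊆ ((univ : Finset (Fin H)).powersetCard m).filter
        (fun S => S ⊆ ex i) := by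
      intro S hS
      rw [Finset.mem_powersetCard] at hS
      rw [Finset.mem_filter, Finset.mem_powersetCard]
      exact ⟨⟨Finset.subset_univ _, hS.2⟩, hS.1⟩
    have h6 := Finset.card_le_card h5
    rw [Finset.card_powersetCard] at h6
    have h7 : M.choose m ≤ (ex i).card.choose m := Nat.choose_le_choose m (hexc i)
    exact_mod_cast h7.trans h6
  have h4 : ∑ i : Fin n, ((((univ : Finset (Fin H)).powersetCard m).filter
        (fun S => S ⊆ ex i)).card : ℝ)
      = ∑ S ∈ (univ : Finset (Fin H)).powersetCard m, ((R S).card : ℝ) := by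
    have h5 : ∀ i : Fin n, ((((univ : Finset (Fin H)).powersetCard m).filter
        (fun S => S ⊆ ex i)).card : ℝ)
        = ∑ S ∈ (univ : Finset (Fin H)).powersetCard m, if S ⊆ ex i then (1 : ℝ) else 0 := by
      intro i
      rw [← Finset.sum_filter, Finset.sum_const, nsmul_eq_mul, mul_one]
    have h6 : ∀ S : Finset (Fin H), ((R S).card : ℝ)
        = ∑ i : Fin n, if S ⊆ ex i then (1 : ℝ) else 0 := by
      intro S
      rw [← Finset.sum_filter, Finset.sum_const, nsmul_eq_mul, mul_one]
      congr 2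
      ext i
      simp only [hR, Finset.mem_filter, Finset.mem_univ, true_and, hex]
      constructor
      · intro h j hj
        exact Finset.mem_filter.2 ⟨Finset.mem_univ _, h j hj⟩
      · intro h j hj
        exact (Finset.mem_filter.1 (h hj)).2
    rw [Finset.sum_congr rfl (fun i _ => h5 i), Finset.sum_congr rfl (fun S _ => h6 S),
      Finset.sum_comm]
  calc (n : ℝ) * (M.choose m : ℝ) ≤ _ := h3
    _ = _ := h4
    _ ≤ ∑ _S ∈ (univ : Finset (Fin H)).powersetCard m, Bd := Finset.sum_le_sum h1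
    _ = (H.choose m : ℝ) * Bd := by
        rw [Finset.sum_const, Finset.card_powersetCard, Finset.card_univ, Fintype.card_fin,
          nsmul_eq_mul]

/-- **Rank two theorem.** -/
theorem rank_two (η : ℝ) (hη : 0 < η) (hη1 : η ≤ 1) : ∃ C c X₀ : ℝ, 0 < C ∧ 0 < c ∧
    ∀ X : ℝ, X₀ ≤ X → ∀ m : ℕ, m = ⌈C * Real.log (Real.log X)⌉₊ →
      ∀ (n H M : ℕ) (a : Fin n → ℤ × ℤ) (b : Fin H → ℤ × ℤ) (s : Fin n → ℤ) (t : Fin H → ℤ),
        (∀ i i', i ≠ i' → wedge (a i) (a i') ≠ 0) →
        (∀ j j', j ≠ j' → wedge (b j) (b j') ≠ 0) →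
        (∀ i, M ≤ {j : Fin H | Exc η c X (s i * t j * dot (a i) (b j))}.ncard) →
        (n : ℝ) * (M.choose m : ℝ)
          ≤ (H.choose m : ℝ) * (Real.log X * Real.log (Real.log X) ^ 2) := by
  obtain ⟨C, c, X₀, hC, hc, hX₀, hcore⟩ := core η hη hη1
  refine ⟨C, c, X₀, hC, hc, ?_⟩
  intro X hX m hm n H M a b s t ha hb hE
  have hcoreX : CoreAt η c X (Real.log X * Real.log (Real.log X) ^ 2) m :=
    fun b t A s hb hA hE => hcore X hX m hm b t A s hb hA hE
  exact counting_matrix hcoreX n H M a b s t ha hb hE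

end StepH53
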