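import Pool.Agent.W_aaa0df_h53.MomP

set_option autoImplicit false

namespace StepH53

open Polynomial Finset

variable {p : ℕ} [hpF : Fact p.Prime]

/-- the high moment of a sum of quadratic characters of linear forms -/
lemma moment_le (hp2 : p ≠ 2) {m K : ℕ} (hK : 1 ≤ K) (α β : Fin m → ZMod p)
    (hαβ : ∀ i j, i ≠ j → α i * β j - α j * β i ≠ 0) (ε : Fin m → ℤ) (hε : ∀ i, |ε i| ≤ 1) :
    ∑ x : ZMod p, (((∑ i, ε i * quadraticChar (ZMod p) (α i * x + β i) : ℤ) : ℝ)) ^ (2 * K)
      ≤ ((evenTuples (2 * K) m).card : ℝ) * p + (m : ℝ) ^ (2 * K) * (48 * K * Real.sqrt p) := by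
  classical
  have h1 : ∀ x : ZMod p,
      (((∑ i, ε i * quadraticChar (ZMod p) (α i * x + β i) : ℤ) : ℝ)) ^ (2 * K)
      = ∑ j : Fin (2 * K) → Fin m,
        ((∏ s, (ε (j s) * quadraticChar (ZMod p) (α (j s) * x + β (j s))) : ℤ) : ℝ) := by
    intro x
    have := Finset.prod_univ_sum (fun _ : Fin (2 * K) => (univ : Finset (Fin m)))
      (fun _ i => ε i * quadraticChar (ZMod p) (α i * x + β i))
    rw [Finset.prod_const, Finset.card_univ, Fintype.card_fin, Fintype.piFinset_univ] at this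
    exact_mod_cast this
  rw [Finset.sum_congr rfl (fun x _ => h1 x), Finset.sum_comm]
  have h2 : ∀ j : Fin (2 * K) → Fin m,
      ∑ x : ZMod p, ((∏ s, (ε (j s) * quadraticChar (ZMod p) (α (j s) * x + β (j s))) : ℤ) : ℝ)
        ≤ (if j ∈ evenTuples (2 * K) m then (p : ℝ) else 0) + 48 * K * Real.sqrt p := by
    intro j
    by_cases hj : j ∈ evenTuples (2 * K) m
    · rw [if_pos hj]
      have h3 : ∑ x : ZMod p,
          ((∏ s, (ε (j s) * quadraticChar (ZMod p) (α (j s) * x + β (j s))) : ℤ) : ℝ)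
          ≤ ∑ _x : ZMod p, (1 : ℝ) := by
        apply Finset.sum_le_sum
        intro x _
        have h4 : |∏ s, (ε (j s) * quadraticChar (ZMod p) (α (j s) * x + β (j s)))| ≤ 1 := by
          rw [Finset.abs_prod]
          apply Finset.prod_le_one (fun _ _ => abs_nonneg _)
          intro s _
          rw [abs_mul]
          exact mul_le_one₀ (hε _) (abs_nonneg _) (abs_quadChar_le _)
        have h5 := (le_abs_self _).trans h4
        exact_mod_cast h5
      rw [Finset.sum_const, Finset.card_univ, ZMod.card, nsmul_eq_mul, mul_one] at h3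
      have h6 : (0 : ℝ) ≤ 48 * K * Real.sqrt p := by positivity
      linarith
    · rw [if_neg hj, zero_add]
      have h3 := sum_tuple_le hp2 hK α β hαβ ε hε j hj
      have h4 := (le_abs_self _).trans h3
      exact_mod_cast h4
  calc ∑ j : Fin (2 * K) → Fin m, ∑ x : ZMod p,
        ((∏ s, (ε (j s) * quadraticChar (ZMod p) (α (j s) * x + β (j s))) : ℤ) : ℝ)
      ≤ ∑ j : Fin (2 * K) → Fin m,
        ((if j ∈ evenTuples (2 * K) m then (p : ℝ) else 0) + 48 * K * Real.sqrt p) :=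
        Finset.sum_le_sum (fun j _ => h2 j)
    _ = ((evenTuples (2 * K) m).card : ℝ) * p + (m : ℝ) ^ (2 * K) * (48 * K * Real.sqrt p) := by
        rw [Finset.sum_add_distrib, Finset.sum_ite_mem, Finset.univ_inter, Finset.sum_const,
          Finset.sum_const, Finset.card_univ, nsmul_eq_mul, nsmul_eq_mul]
        simp [Fintype.card_fun]

/-- normalised function on the projective line -/
noncomputable def G {m : ℕ} (α β : Fin m → ZMod p) (ε : Fin m → ℤ) (k : ℕ) :
    Option (ZMod p) → ℝ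
  | none => (((∑ i, ε i * quadraticChar (ZMod p) (α i) : ℤ) : ℝ) / m) ^ (2 * k)
  | some x => (((∑ i, ε i * quadraticChar (ZMod p) (α i * x + β i) : ℤ) : ℝ) / m) ^ (2 * k)

lemma G_nonneg {m : ℕ} (α β : Fin m → ZMod p) (ε : Fin m → ℤ) (k : ℕ) (κ : Option (ZMod p)) :
    0 ≤ G α β ε k κ := by
  cases κ with
  | none => exact (even_two_mul k).pow_nonneg _
  | some x => exact (even_two_mul k).pow_nonneg _

lemma sum_G_sq_le (hp2 : p ≠ 2) {m k : ℕ} (hk : 1 ≤ k) (hm : 1 ≤ m) (α β : Fin m → ZMod p)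
    (hαβ : ∀ i j, i ≠ j → α i * β j - α j * β i ≠ 0) (ε : Fin m → ℤ) (hε : ∀ i, |ε i| ≤ 1) :
    ∑ κ : Option (ZMod p), G α β ε k κ ^ 2
      ≤ 2 * (4 * Real.exp 1 * k / m) ^ (2 * k) * p + 96 * k * Real.sqrt p + 1 := by
  classical
  have hmp : (0 : ℝ) < m := by exact_mod_cast hm
  rw [Fintype.sum_option]
  have h0 : G α β ε k none ^ 2 ≤ 1 := by
    have h1 : |((∑ i, ε i * quadraticChar (ZMod p) (α i) : ℤ) : ℝ)| ≤ m := by
      have h2 : |∑ i, ε i * quadraticChar (ZMod p) (α i)| ≤ (m : ℤ) := by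
        calc |∑ i, ε i * quadraticChar (ZMod p) (α i)|
            ≤ ∑ i, |ε i * quadraticChar (ZMod p) (α i)| := Finset.abs_sum_le_sum_abs _ _
          _ ≤ ∑ _i : Fin m, 1 := by
              apply Finset.sum_le_sum
              intro i _
              rw [abs_mul]
              exact mul_le_one₀ (hε _) (abs_nonneg _) (abs_quadChar_le _)
          _ = (m : ℤ) := by simp
      exact_mod_cast h2
    have h3 : |(((∑ i, ε i * quadraticChar (ZMod p) (α i) : ℤ) : ℝ) / m)| ≤ 1 := by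
      rw [abs_div, abs_of_pos hmp, div_le_one hmp]; exact h1
    have h4 : G α β ε k none = |(((∑ i, ε i * quadraticChar (ZMod p) (α i) : ℤ) : ℝ) / m)| ^ (2 * k) := by
      unfold G
      rw [pow_mul, pow_mul, sq_abs]
    rw [h4, ← pow_mul]
    exact pow_le_one₀ (abs_nonneg _) h3
  have h5 : ∑ x : ZMod p, G α β ε k (some x) ^ 2
      ≤ 2 * (4 * Real.exp 1 * k / m) ^ (2 * k) * p + 96 * k * Real.sqrt p := by
    have h6 := moment_le (p := p) hp2 (K := 2 * k) (by omega) α β hαβ ε hε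
    have h7 := card_evenTuples_le (2 * k) m (by omega) hm
    have h8 : ∑ x : ZMod p, G α β ε k (some x) ^ 2
        = (∑ x : ZMod p, (((∑ i, ε i * quadraticChar (ZMod p) (α i * x + β i) : ℤ) : ℝ))
            ^ (2 * (2 * k))) / (m : ℝ) ^ (2 * (2 * k)) := by
      rw [Finset.sum_div]
      apply Finset.sum_congr rfl
      intro x _
      unfold G
      simp only
      rw [← pow_mul, div_pow]
      congr 2 <;> ring
    rw [h8, div_le_iff₀ (by positivity)]
    refine h6.trans ?_
    have h9 : (2 * Real.exp 1 * ((2 * k : ℕ) : ℝ) * m) ^ (2 * k)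
        = (4 * Real.exp 1 * k / m) ^ (2 * k) * (m : ℝ) ^ (2 * (2 * k)) := by
      have e1 : (2 * Real.exp 1 * ((2 * k : ℕ) : ℝ) * m) = (4 * Real.exp 1 * k / m) * (m * m) := by
        push_cast
        field_simp
        ring
      rw [e1, mul_pow]
      congr 1
      rw [← sq, ← pow_mul]
    rw [h9] at h7
    have h10 : ((evenTuples (2 * (2 * k)) m).card : ℝ) * p
        ≤ 2 * ((4 * Real.exp 1 * k / m) ^ (2 * k) * (m : ℝ) ^ (2 * (2 * k))) * p :=
      mul_le_mul_of_nonneg_right h7 (by positivity)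
    push_cast at h10 ⊢
    have h11 : (m : ℝ) ^ (2 * (2 * k)) * (48 * (2 * (k : ℝ)) * Real.sqrt p)
        = 96 * k * Real.sqrt p * (m : ℝ) ^ (2 * (2 * k)) := by ring
    have h12 : (2 * (4 * Real.exp 1 * k / m) ^ (2 * k) * (p : ℝ) + 96 * k * Real.sqrt p)
          * (m : ℝ) ^ (2 * (2 * k))
        = 2 * ((4 * Real.exp 1 * k / m) ^ (2 * k) * (m : ℝ) ^ (2 * (2 * k))) * p
          + 96 * k * Real.sqrt p * (m : ℝ) ^ (2 * (2 * k)) := by ring
    rw [h12, h11]
    linarith
  linarith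

end StepH53
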