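import Mathlib

set_option autoImplicit false

namespace StepH53

open Finset

/-- tuples in which every value occurs an even number of times -/
def evenTuples (n m : ℕ) : Finset (Fin n → Fin m) :=
  univ.filter (fun j => ∀ i : Fin m, Even (univ.filter (fun s : Fin n => j s = i)).card)

lemma sum_signs (n m : ℕ) :
    ∑ ε ∈ Fintype.piFinset (fun _ : Fin m => ({1, -1} : Finset ℝ)), (∑ i, ε i) ^ n
      = 2 ^ m * ((evenTuples n m).card : ℝ) := by
  classical
  have h1 : ∀ ε : Fin m → ℝ, (∑ i, ε i) ^ n = ∑ j : Fin n → Fin m, ∏ s, ε (j s) := by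
    intro ε
    have := Finset.prod_univ_sum (fun _ : Fin n => (univ : Finset (Fin m))) (fun _ i => ε i)
    rw [Finset.prod_const, Finset.card_univ, Fintype.card_fin] at this
    rw [this, Fintype.piFinset_univ]
  rw [Finset.sum_congr rfl (fun ε _ => h1 ε), Finset.sum_comm]
  have h2 : ∀ j : Fin n → Fin m,
      ∑ ε ∈ Fintype.piFinset (fun _ : Fin m => ({1, -1} : Finset ℝ)), ∏ s, ε (j s)
        = if j ∈ evenTuples n m then 2 ^ m else 0 := by
    intro j
    have h3 : ∀ ε : Fin m → ℝ, ∏ s, ε (j s)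
        = ∏ i, ε i ^ (univ.filter (fun s : Fin n => j s = i)).card := by
      intro ε
      rw [← Finset.prod_fiberwise (s := (univ : Finset (Fin n))) (g := j)]
      apply Finset.prod_congr rfl
      intro i _
      rw [Finset.prod_congr rfl (g := fun _ => ε i), Finset.prod_const]
      intro s hs
      rw [(Finset.mem_filter.1 hs).2]
    rw [Finset.sum_congr rfl (fun ε _ => h3 ε)]
    rw [← Finset.prod_univ_sum (fun _ : Fin m => ({1, -1} : Finset ℝ))
      (fun i e => e ^ (univ.filter (fun s : Fin n => j s = i)).card)]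
    have h4 : ∀ c : ℕ, ∑ e ∈ ({1, -1} : Finset ℝ), e ^ c = if Even c then 2 else 0 := by
      intro c
      rw [Finset.sum_pair (by norm_num)]
      by_cases hc : Even c
      · rw [if_pos hc, hc.neg_one_pow]; norm_num
      · rw [if_neg hc, (Nat.not_even_iff_odd.1 hc).neg_one_pow]; norm_num
    rw [Finset.prod_congr rfl (fun i _ => h4 _)]
    by_cases hj : j ∈ evenTuples n m
    · rw [if_pos hj]
      rw [evenTuples, Finset.mem_filter] at hj
      rw [Finset.prod_congr rfl (fun i _ => if_pos (hj.2 i))]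
      simp
    · rw [if_neg hj]
      rw [evenTuples, Finset.mem_filter] at hj
      push Not at hj
      obtain ⟨i, hi⟩ := hj (Finset.mem_univ _)
      exact Finset.prod_eq_zero (Finset.mem_univ i) (if_neg hi)
  rw [Finset.sum_congr rfl (fun j _ => h2 j), Finset.sum_ite_mem, Finset.univ_inter,
    Finset.sum_const, nsmul_eq_mul]
  ring

lemma sum_exp_signs (m : ℕ) (t : ℝ) :
    ∑ ε ∈ Fintype.piFinset (fun _ : Fin m => ({1, -1} : Finset ℝ)), Real.exp (t * ∑ i, ε i)
      = (2 * Real.cosh t) ^ m := by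
  classical
  have h1 : ∀ ε : Fin m → ℝ, Real.exp (t * ∑ i, ε i) = ∏ i, Real.exp (t * ε i) := by
    intro ε
    rw [Finset.mul_sum, Real.exp_sum]
  rw [Finset.sum_congr rfl (fun ε _ => h1 ε)]
  rw [← Finset.prod_univ_sum (fun _ : Fin m => ({1, -1} : Finset ℝ))
      (fun _ e => Real.exp (t * e))]
  rw [Finset.prod_const, Finset.card_univ, Fintype.card_fin, Finset.sum_pair (by norm_num),
    Real.cosh_eq]
  congr 1
  rw [mul_one, mul_neg_one]; ring

/-- the number of even tuples of length `2K` -/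
lemma card_evenTuples_le (K m : ℕ) (hK : 1 ≤ K) (hm : 1 ≤ m) :
    ((evenTuples (2 * K) m).card : ℝ) ≤ 2 * (2 * Real.exp 1 * K * m) ^ K := by
  classical
  have hKp : (0 : ℝ) < K := by exact_mod_cast hK
  have hmp : (0 : ℝ) < m := by exact_mod_cast hm
  set t : ℝ := Real.sqrt (2 * K / m) with ht
  have htp : 0 < t := Real.sqrt_pos.2 (by positivity)
  have ht2 : t ^ 2 = 2 * K / m := Real.sq_sqrt (by positivity)
  have h1 : ∀ S : ℝ, S ^ (2 * K) ≤ ((2 * K).factorial : ℝ) / t ^ (2 * K)
      * (Real.exp (t * S) + Real.exp (-t * S)) := by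
    intro S
    have h2 : (t * |S|) ^ (2 * K) / ((2 * K).factorial : ℝ) ≤ Real.exp (t * |S|) :=
      Real.pow_div_factorial_le_exp _ (by positivity) _
    have h3 : Real.exp (t * |S|) ≤ Real.exp (t * S) + Real.exp (-t * S) := by
      rcases abs_cases S with ⟨h, _⟩ | ⟨h, _⟩
      · rw [h]; linarith [Real.exp_pos (-t * S)]
      · rw [h]
        have : t * -S = -t * S := by ring
        rw [this]; linarith [Real.exp_pos (t * S)]
    have h4 : S ^ (2 * K) = |S| ^ (2 * K) := by
      rw [pow_mul, pow_mul, sq_abs]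
    rw [h4]
    have hf : (0 : ℝ) < (2 * K).factorial := by positivity
    have ht' : (0 : ℝ) < t ^ (2 * K) := by positivity
    rw [div_mul_eq_mul_div, le_div_iff₀ ht']
    rw [mul_pow, div_le_iff₀ hf] at h2
    nlinarith
  have h5 : (2 : ℝ) ^ m * ((evenTuples (2 * K) m).card : ℝ)
      ≤ ((2 * K).factorial : ℝ) / t ^ (2 * K) * (2 * (2 * Real.cosh t) ^ m) := by
    rw [← sum_signs]
    calc ∑ ε ∈ Fintype.piFinset (fun _ : Fin m => ({1, -1} : Finset ℝ)), (∑ i, ε i) ^ (2 * K)
        ≤ ∑ ε ∈ Fintype.piFinset (fun _ : Fin m => ({1, -1} : Finset ℝ)),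
          ((2 * K).factorial : ℝ) / t ^ (2 * K)
            * (Real.exp (t * ∑ i, ε i) + Real.exp (-t * ∑ i, ε i)) :=
          Finset.sum_le_sum (fun ε _ => h1 _)
      _ = ((2 * K).factorial : ℝ) / t ^ (2 * K) * (2 * (2 * Real.cosh t) ^ m) := by
          rw [← Finset.mul_sum, Finset.sum_add_distrib, sum_exp_signs, sum_exp_signs,
            Real.cosh_neg]
          ring
  have h6 : Real.cosh t ≤ Real.exp (t ^ 2 / 2) := Real.cosh_le_exp_half_sq t
  have h7 : (2 * Real.cosh t) ^ m ≤ 2 ^ m * Real.exp K := by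
    rw [mul_pow]
    apply mul_le_mul_of_nonneg_left _ (by positivity)
    calc Real.cosh t ^ m ≤ Real.exp (t ^ 2 / 2) ^ m :=
          pow_le_pow_left₀ (Real.cosh_pos t).le h6 m
      _ = Real.exp K := by
          rw [← Real.exp_nat_mul, ht2]
          congr 1
          field_simp
  have h8 : ((2 * K).factorial : ℝ) ≤ (2 * K : ℝ) ^ (2 * K) := by
    have := Nat.factorial_le_pow (2 * K)
    exact_mod_cast this
  have h9 : t ^ (2 * K) = (2 * K / m) ^ K := by rw [pow_mul, ht2]
  have h10 : ((2 * K).factorial : ℝ) / t ^ (2 * K) ≤ (2 * K * m : ℝ) ^ K := by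
    rw [div_le_iff₀ (by positivity), h9, ← mul_pow]
    have e1 : (2 * (K : ℝ) * m * (2 * K / m)) = (2 * K) ^ 2 := by field_simp
    rw [e1, ← pow_mul]
    exact h8
  have h11 : (2 : ℝ) ^ m * ((evenTuples (2 * K) m).card : ℝ)
      ≤ 2 ^ m * (2 * (2 * Real.exp 1 * K * m) ^ K) := by
    calc (2 : ℝ) ^ m * ((evenTuples (2 * K) m).card : ℝ)
        ≤ ((2 * K).factorial : ℝ) / t ^ (2 * K) * (2 * (2 * Real.cosh t) ^ m) := h5
      _ ≤ (2 * K * m : ℝ) ^ K * (2 * (2 ^ m * Real.exp K)) := by
          apply mul_le_mul h10 _ (by positivity) (by positivity)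
          linarith
      _ = 2 ^ m * (2 * (2 * Real.exp 1 * K * m) ^ K) := by
          have e2 : Real.exp (K : ℝ) = Real.exp 1 ^ K := by
            rw [← Real.exp_nat_mul, mul_one]
          rw [e2]
          have e3 : (2 * Real.exp 1 * (K : ℝ) * m) = (2 * K * m) * Real.exp 1 := by ring
          rw [e3, mul_pow _ (Real.exp 1)]
          ring
  exact le_of_mul_le_mul_left h11 (by positivity)

end StepH53
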