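import Pool.Agent.W_aaa0df_h53.StepE
import Pool.Agent.W_aaa0df_h53.Rade

set_option autoImplicit false

namespace StepH53

open Polynomial Finset

variable {p : ℕ} [hpF : Fact p.Prime]

/-- linear form `α X + β` -/
noncomputable def lin (α β : ZMod p) : (ZMod p)[X] := C α * X + C β

lemma lin_eval (α β x : ZMod p) : (lin α β).eval x = α * x + β := by
  simp [lin]

lemma lin_natDegree_of_ne {α β : ZMod p} (h : α ≠ 0) : (lin α β).natDegree = 1 := by
  unfold lin; exact natDegree_linear h

lemma lin_natDegree_le (α β : ZMod p) : (lin α β).natDegree ≤ 1 := by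
  unfold lin; exact natDegree_linear_le

lemma lin_ne_zero {α β : ZMod p} (h : ¬ (α = 0 ∧ β = 0)) : lin α β ≠ 0 := by
  intro h0
  apply h
  have h1 : (lin α β).coeff 1 = α := by simp [lin, coeff_C]
  have h2 : (lin α β).coeff 0 = β := by simp [lin]
  rw [h0] at h1 h2
  simp at h1 h2
  exact ⟨h1.symm, h2.symm⟩

lemma lin_squarefree {α β : ZMod p} (h : ¬ (α = 0 ∧ β = 0)) : Squarefree (lin α β) := by
  have h0 := lin_ne_zero h
  intro q hq
  obtain ⟨w, hw⟩ := hq
  have hq0 : q ≠ 0 := by rintro rfl; apply h0; rw [hw]; ring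
  have hw0 : w ≠ 0 := by rintro rfl; apply h0; rw [hw]; ring
  have h1 : (lin α β).natDegree = q.natDegree + q.natDegree + w.natDegree := by
    rw [hw, natDegree_mul (mul_ne_zero hq0 hq0) hw0, natDegree_mul hq0 hq0]
  have h2 := lin_natDegree_le α β
  have h3 : q.natDegree = 0 := by omega
  rw [natDegree_eq_zero] at h3
  obtain ⟨a, ha⟩ := h3
  rw [← ha]
  refine isUnit_C.2 (isUnit_iff_ne_zero.2 ?_)
  rintro rfl
  apply hq0; rw [← ha, C_0]

lemma lin_coprime {α β α' β' : ZMod p} (h : α * β' - α' * β ≠ 0) :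
    IsCoprime (lin α β) (lin α' β') := by
  refine ⟨C (-α' * (α * β' - α' * β)⁻¹), C (α * (α * β' - α' * β)⁻¹), ?_⟩
  unfold lin
  have h1 : C (-α' * (α * β' - α' * β)⁻¹) * (C α * X + C β)
      + C (α * (α * β' - α' * β)⁻¹) * (C α' * X + C β')
      = C ((-α' * (α * β' - α' * β)⁻¹) * α + α * (α * β' - α' * β)⁻¹ * α') * X
        + C ((-α' * (α * β' - α' * β)⁻¹) * β + α * (α * β' - α' * β)⁻¹ * β') := by
    simp only [C_mul, C_add]
    ring
  rw [h1]
  have h2 : (-α' * (α * β' - α' * β)⁻¹) * α + α * (α * β' - α' * β)⁻¹ * α' = 0 := by ring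
  have h3 : (-α' * (α * β' - α' * β)⁻¹) * β + α * (α * β' - α' * β)⁻¹ * β' = 1 := by
    have : (-α' * (α * β' - α' * β)⁻¹) * β + α * (α * β' - α' * β)⁻¹ * β'
        = (α * β' - α' * β) * (α * β' - α' * β)⁻¹ := by ring
    rw [this, mul_inv_cancel₀ h]
  rw [h2, h3]; simp

/-- complete sums over products of at least two independent linear forms -/
lemma sum_prod_lin_le (hp2 : p ≠ 2) {m : ℕ} (α β : Fin m → ZMod p)
    (hαβ : ∀ i j, i ≠ j → α i * β j - α j * β i ≠ 0) (T : Finset (Fin m)) (hT : 2 ≤ T.card) :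
    |((∑ x : ZMod p, ∏ i ∈ T, quadraticChar (ZMod p) (α i * x + β i) : ℤ) : ℝ)|
      ≤ 23 * (T.card : ℝ) * Real.sqrt p := by
  classical
  have hnz : ∀ i ∈ T, ¬ (α i = 0 ∧ β i = 0) := by
    intro i hi h
    obtain ⟨j, hj, hji⟩ := Finset.exists_mem_ne (by omega : 1 < T.card) i
    apply hαβ j i hji
    rw [h.1, h.2]; ring
  set f : (ZMod p)[X] := ∏ i ∈ T, lin (α i) (β i) with hf
  have hsq : Squarefree f := by
    apply Finset.squarefree_prod_of_pairwise_isCoprime
    · intro i _ j _ hij
      exact (lin_coprime (hαβ i j hij)).isRelPrime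
    · intro i hi
      exact lin_squarefree (hnz i hi)
  have hdeg : f.natDegree = ∑ i ∈ T, (lin (α i) (β i)).natDegree :=
    natDegree_prod _ _ (fun i hi => lin_ne_zero (hnz i hi))
  have hdeg1 : f.natDegree ≤ T.card := by
    rw [hdeg]
    calc ∑ i ∈ T, (lin (α i) (β i)).natDegree ≤ ∑ _i ∈ T, 1 :=
          Finset.sum_le_sum (fun i _ => lin_natDegree_le _ _)
      _ = T.card := by simp
  have hdeg2 : 1 ≤ f.natDegree := by
    have hex : ∃ i ∈ T, α i ≠ 0 := by
      by_contra hcon
      push Not at hcon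
      obtain ⟨i, hi, j, hj, hij⟩ := Finset.one_lt_card.1 (by omega : 1 < T.card)
      apply hαβ i j hij
      rw [hcon i hi, hcon j hj]; ring
    obtain ⟨i, hi, hαi⟩ := hex
    rw [hdeg]
    calc 1 = (lin (α i) (β i)).natDegree := (lin_natDegree_of_ne hαi).symm
      _ ≤ ∑ i ∈ T, (lin (α i) (β i)).natDegree :=
          Finset.single_le_sum (f := fun i => (lin (α i) (β i)).natDegree)
            (fun _ _ => Nat.zero_le _) hi
  have hsum : ∑ x : ZMod p, ∏ i ∈ T, quadraticChar (ZMod p) (α i * x + β i)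
      = ∑ x : ZMod p, quadraticChar (ZMod p) (f.eval x) := by
    apply Finset.sum_congr rfl
    intro x _
    rw [hf, eval_prod, map_prod]
    apply Finset.prod_congr rfl
    intro i _
    rw [lin_eval]
  rw [hsum]
  refine (stepanov_real hp2 f hsq hdeg2).trans ?_
  have h1 : (f.natDegree : ℝ) ≤ T.card := by exact_mod_cast hdeg1
  have h2 : (0 : ℝ) ≤ Real.sqrt p := Real.sqrt_nonneg _
  nlinarith [mul_le_mul_of_nonneg_right h1 h2]

lemma abs_quadChar_le (a : ZMod p) : |quadraticChar (ZMod p) a| ≤ 1 := by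
  by_cases h : a = 0
  · rw [h, quadraticChar_zero]; norm_num
  · rcases quadraticChar_dichotomy h with h1 | h1 <;> rw [h1] <;> norm_num

/-- sum over `x` of the product attached to a tuple -/
lemma sum_tuple_le (hp2 : p ≠ 2) {m K : ℕ} (hK : 1 ≤ K) (α β : Fin m → ZMod p)
    (hαβ : ∀ i j, i ≠ j → α i * β j - α j * β i ≠ 0) (ε : Fin m → ℤ) (hε : ∀ i, |ε i| ≤ 1)
    (j : Fin (2 * K) → Fin m) (hj : j ∉ evenTuples (2 * K) m) :
    |((∑ x : ZMod p, ∏ s, (ε (j s) * quadraticChar (ZMod p) (α (j s) * x + β (j s))) : ℤ) : ℝ)|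
      ≤ 48 * (K : ℝ) * Real.sqrt p := by
  classical
  set mult : Fin m → ℕ := fun i => (univ.filter (fun s : Fin (2 * K) => j s = i)).card with hmult
  set T : Finset (Fin m) := univ.filter (fun i => ¬ Even (mult i)) with hT
  have hprod : ∀ w : Fin m → ℤ, ∏ s, w (j s) = ∏ i, w i ^ mult i := by
    intro w
    rw [← Finset.prod_fiberwise (s := (univ : Finset (Fin (2 * K)))) (g := j)]
    apply Finset.prod_congr rfl
    intro i _
    rw [Finset.prod_congr rfl (g := fun _ => w i), Finset.prod_const]
    intro s hs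
    rw [(Finset.mem_filter.1 hs).2]
  have hsumm : ∑ i, mult i = 2 * K := by
    have h1 := Finset.card_eq_sum_card_fiberwise (s := (univ : Finset (Fin (2 * K))))
      (t := (univ : Finset (Fin m))) (f := j) (fun _ _ => Finset.mem_coe.2 (Finset.mem_univ _))
    rw [Finset.card_univ, Fintype.card_fin] at h1
    exact h1.symm
  have hTne : T.Nonempty := by
    rw [evenTuples, Finset.mem_filter] at hj
    push Not at hj
    obtain ⟨i, hi⟩ := hj (Finset.mem_univ _)
    exact ⟨i, Finset.mem_filter.2 ⟨Finset.mem_univ _, hi⟩⟩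
  have hTeven : Even T.card := by
    have h1 : Even (∑ i ∈ T, mult i) := by
      have h2 : ∑ i, mult i = ∑ i ∈ T, mult i + ∑ i ∈ univ.filter (fun i => Even (mult i)), mult i := by
        rw [add_comm]
        exact (Finset.sum_filter_add_sum_filter_not univ (fun i => Even (mult i)) mult).symm
      have h3 : Even (∑ i ∈ univ.filter (fun i => Even (mult i)), mult i) :=
        Finset.even_sum _ (fun i hi => (Finset.mem_filter.1 hi).2)
      have h4 : Even (∑ i, mult i) := by rw [hsumm]; exact even_two_mul K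
      rw [h2] at h4
      exact (Nat.even_add.1 h4).2 h3
    have h5 : ∀ S : Finset (Fin m), (∀ i ∈ S, ¬ Even (mult i)) →
        (Even (∑ i ∈ S, mult i) ↔ Even S.card) := by
      intro S
      induction S using Finset.induction_on with
      | empty => simp
      | insert a S ha ih =>
        intro h
        rw [Finset.sum_insert ha, Finset.card_insert_of_notMem ha, Nat.even_add, Nat.even_add,
          ih (fun i hi => h i (Finset.mem_insert_of_mem hi))]
        have h6 := h a (Finset.mem_insert_self _ _)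
        simp only [h6, Nat.not_even_one]
        tauto
    exact (h5 T (fun i hi => (Finset.mem_filter.1 hi).2)).1 h1
  have hT2 : 2 ≤ T.card := by
    have h1 : T.card ≠ 0 := Finset.card_ne_zero.2 hTne
    obtain ⟨c, hc⟩ := hTeven
    omega
  have hTle : T.card ≤ 2 * K := by
    rw [← hsumm]
    calc T.card = ∑ _i ∈ T, 1 := by simp
      _ ≤ ∑ i ∈ T, mult i := by
          apply Finset.sum_le_sum
          intro i hi
          have := (Finset.mem_filter.1 hi).2
          by_contra h
          apply this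
          have : mult i = 0 := by omega
          rw [this]; exact ⟨0, rfl⟩
      _ ≤ ∑ i, mult i := Finset.sum_le_sum_of_subset (Finset.subset_univ _)
  set c : ℤ := ∏ i, ε i ^ mult i with hc
  have hc1 : |c| ≤ 1 := by
    rw [hc, Finset.abs_prod]
    apply Finset.prod_le_one
    · intro i _; exact abs_nonneg _
    · intro i _
      rw [abs_pow]
      exact pow_le_one₀ (abs_nonneg _) (hε i)
  -- the exceptional points
  set Z : Finset (ZMod p) := univ.filter (fun x => ∃ s, α (j s) * x + β (j s) = 0) with hZ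
  have hnz : ∀ i : Fin m, ¬ (α i = 0 ∧ β i = 0) := by
    intro i h
    obtain ⟨j', hj', hji⟩ := Finset.exists_mem_ne (by omega : 1 < T.card) i
    apply hαβ j' i hji
    rw [h.1, h.2]; ring
  have hZcard : Z.card ≤ 2 * K := by
    have h1 : Z ⊆ univ.biUnion (fun s : Fin (2 * K) =>
        univ.filter (fun x : ZMod p => α (j s) * x + β (j s) = 0)) := by
      intro x hx
      obtain ⟨s, hs⟩ := (Finset.mem_filter.1 hx).2
      exact Finset.mem_biUnion.2 ⟨s, Finset.mem_univ _, Finset.mem_filter.2 ⟨Finset.mem_univ _, hs⟩⟩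
    calc Z.card ≤ _ := Finset.card_le_card h1
      _ ≤ ∑ s : Fin (2 * K), (univ.filter (fun x : ZMod p => α (j s) * x + β (j s) = 0)).card :=
          Finset.card_biUnion_le
      _ ≤ ∑ _s : Fin (2 * K), 1 := by
          apply Finset.sum_le_sum
          intro s _
          rw [Finset.card_le_one]
          intro x hx y hy
          have hx' := (Finset.mem_filter.1 hx).2
          have hy' := (Finset.mem_filter.1 hy).2
          by_cases hα : α (j s) = 0
          · exfalso
            apply hnz (j s)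
            refine ⟨hα, ?_⟩
            rw [hα] at hx'; simpa using hx'
          · have h2 : α (j s) * (x - y) = 0 := by linear_combination hx' - hy'
            rcases mul_eq_zero.1 h2 with h3 | h3
            · exact absurd h3 hα
            · exact sub_eq_zero.1 h3
      _ = 2 * K := by simp
  set g : ZMod p → ℤ := fun x => ∏ i ∈ T, quadraticChar (ZMod p) (α i * x + β i) with hg
  set F : ZMod p → ℤ :=
    fun x => ∏ s, (ε (j s) * quadraticChar (ZMod p) (α (j s) * x + β (j s))) with hF
  have hpt : ∀ x, |F x - c * g x| ≤ if x ∈ Z then 1 else 0 := by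
    intro x
    by_cases hx : x ∈ Z
    · rw [if_pos hx]
      obtain ⟨s, hs⟩ := (Finset.mem_filter.1 hx).2
      have h1 : F x = 0 := by
        rw [hF]
        apply Finset.prod_eq_zero (Finset.mem_univ s)
        rw [hs, quadraticChar_zero, mul_zero]
      rw [h1, zero_sub, abs_neg, abs_mul]
      have h2 : |g x| ≤ 1 := by
        rw [hg, Finset.abs_prod]
        exact Finset.prod_le_one (fun i _ => abs_nonneg _) (fun i _ => abs_quadChar_le _)
      calc |c| * |g x| ≤ 1 * 1 := mul_le_mul hc1 h2 (abs_nonneg _) (by norm_num)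
        _ = 1 := by norm_num
    · rw [if_neg hx]
      have hne : ∀ i, mult i ≠ 0 → α i * x + β i ≠ 0 := by
        intro i hi h
        apply hx
        have h1 : (univ.filter (fun s : Fin (2 * K) => j s = i)).Nonempty :=
          Finset.card_pos.1 (Nat.pos_of_ne_zero hi)
        obtain ⟨s, hs⟩ := h1
        have hs' := (Finset.mem_filter.1 hs).2
        exact Finset.mem_filter.2 ⟨Finset.mem_univ _, s, by rw [hs']; exact h⟩
      have h1 : F x = c * g x := by
        rw [hF]
        simp only
        rw [hprod (fun i => ε i * quadraticChar (ZMod p) (α i * x + β i))]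
        have h2 : ∀ i, (ε i * quadraticChar (ZMod p) (α i * x + β i)) ^ mult i
            = ε i ^ mult i * (if i ∈ T then quadraticChar (ZMod p) (α i * x + β i) else 1) := by
          intro i
          rw [mul_pow]
          congr 1
          by_cases h0 : mult i = 0
          · have hiT : i ∉ T := by
              intro h
              apply (Finset.mem_filter.1 h).2
              rw [h0]; exact ⟨0, rfl⟩
            rw [if_neg hiT, h0, pow_zero]
          · have hsq : quadraticChar (ZMod p) (α i * x + β i) ^ 2 = 1 := quadraticChar_sq_one (hne i h0)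
            by_cases hiT : i ∈ T
            · rw [if_pos hiT]
              have hodd := (Finset.mem_filter.1 hiT).2
              obtain ⟨r, hr⟩ := Nat.not_even_iff_odd.1 hodd
              rw [hr, pow_add, pow_mul, hsq, one_pow, one_mul, pow_one]
            · rw [if_neg hiT]
              have heven : Even (mult i) := by
                by_contra h
                exact hiT (Finset.mem_filter.2 ⟨Finset.mem_univ _, h⟩)
              obtain ⟨r, hr⟩ := heven
              rw [hr, ← two_mul, pow_mul, hsq, one_pow]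
        rw [Finset.prod_congr rfl (fun i _ => h2 i), Finset.prod_mul_distrib, Finset.prod_ite_mem,
          Finset.univ_inter]
      rw [h1, sub_self, abs_zero]
  have hmain : |∑ x, F x - c * ∑ x, g x| ≤ 2 * (K : ℤ) := by
    rw [Finset.mul_sum, ← Finset.sum_sub_distrib]
    calc |∑ x, (F x - c * g x)| ≤ ∑ x, |F x - c * g x| := Finset.abs_sum_le_sum_abs _ _
      _ ≤ ∑ x, (if x ∈ Z then 1 else 0) := Finset.sum_le_sum (fun x _ => hpt x)
      _ = (Z.card : ℤ) := by simp
      _ ≤ 2 * (K : ℤ) := by exact_mod_cast hZcard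
  have hg1 := sum_prod_lin_le hp2 α β hαβ T hT2
  have hmain' : |((∑ x, F x : ℤ) : ℝ) - (c : ℝ) * ((∑ x, g x : ℤ) : ℝ)| ≤ 2 * (K : ℝ) := by
    exact_mod_cast hmain
  have hc1' : |(c : ℝ)| ≤ 1 := by exact_mod_cast hc1
  have hs1 : (1 : ℝ) ≤ Real.sqrt p := by
    rw [Real.one_le_sqrt]; exact_mod_cast hpF.out.one_le
  have hK0 : (1 : ℝ) ≤ K := by exact_mod_cast hK
  have hTle' : (T.card : ℝ) ≤ 2 * K := by exact_mod_cast hTle
  calc |((∑ x, F x : ℤ) : ℝ)|
      = |(((∑ x, F x : ℤ) : ℝ) - (c : ℝ) * ((∑ x, g x : ℤ) : ℝ)) + c * ((∑ x, g x : ℤ) : ℝ)| := by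
        congr 1; ring
    _ ≤ |((∑ x, F x : ℤ) : ℝ) - (c : ℝ) * ((∑ x, g x : ℤ) : ℝ)| + |c * ((∑ x, g x : ℤ) : ℝ)| :=
        abs_add_le _ _
    _ ≤ 2 * K + 1 * (23 * (T.card : ℝ) * Real.sqrt p) := by
        rw [abs_mul]
        apply add_le_add hmain'
        exact mul_le_mul hc1' hg1 (abs_nonneg _) (by norm_num)
    _ ≤ 48 * (K : ℝ) * Real.sqrt p := by
        have h1 : (T.card : ℝ) * Real.sqrt p ≤ 2 * K * Real.sqrt p :=
          mul_le_mul_of_nonneg_right hTle' (by linarith)
        nlinarith

end StepH53
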