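import Pool.Agent.W_aaa0df_h53.Mom2

set_option autoImplicit false

namespace StepH53

open Finset Real

/-- dot product -/
def dot (a b : ℤ × ℤ) : ℤ := a.1 * b.1 + a.2 * b.2

/-- determinant of two vectors -/
def wedge (a b : ℤ × ℤ) : ℤ := a.1 * b.2 - a.2 * b.1

lemma wedge_mul (a a' b b' : ℤ × ℤ) :
    wedge a a' * wedge b b' = dot a b * dot a' b' - dot a b' * dot a' b := by
  unfold wedge dot; ring

/-- the logarithmic weight of the primes dividing a non-zero integer -/
lemma sum_log_dvd_le (P : Finset ℕ) (hP : ∀ p ∈ P, p.Prime) (n : ℤ) (hn : n ≠ 0) :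
    ∑ p ∈ P.filter (fun p : ℕ => (p : ℤ) ∣ n), Real.log p ≤ Real.log |(n : ℝ)| := by
  set S := P.filter (fun p : ℕ => (p : ℤ) ∣ n) with hS
  have h1 : (∏ p ∈ S, p) ∣ n.natAbs := by
    apply Finset.prod_primes_dvd
    · intro p hp
      exact (hP p (Finset.mem_filter.1 hp).1).prime
    · intro p hp
      exact Int.natCast_dvd.1 (Finset.mem_filter.1 hp).2
  have h2 : (∏ p ∈ S, p) ≤ n.natAbs := Nat.le_of_dvd (Int.natAbs_pos.2 hn) h1
  have h3 : ∑ p ∈ S, Real.log p = Real.log ((∏ p ∈ S, p : ℕ) : ℝ) := by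
    rw [Nat.cast_prod, Real.log_prod]
    intro p hp
    have := (hP p (Finset.mem_filter.1 hp).1).pos
    positivity
  rw [h3]
  apply Real.log_le_log
  · have : 0 < ∏ p ∈ S, p := Finset.prod_pos (fun p hp => (hP p (Finset.mem_filter.1 hp).1).pos)
    exact_mod_cast this
  · have h4 : (n.natAbs : ℝ) = |(n : ℝ)| := by
      rw [← Int.cast_abs, ← Int.natCast_natAbs]; simp
    rw [← h4]
    exact_mod_cast h2

section

variable {p : ℕ} [hpF : Fact p.Prime]

/-- reduction to the projective line over `F_p` -/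
noncomputable def kap (p : ℕ) [Fact p.Prime] (a : ℤ × ℤ) : Option (ZMod p) :=
  if (a.2 : ZMod p) = 0 then none else some ((a.1 : ZMod p) / (a.2 : ZMod p))

lemma kap_eq_dvd {a a' : ℤ × ℤ} (h : kap p a = kap p a') : (p : ℤ) ∣ wedge a a' := by
  rw [← ZMod.intCast_zmod_eq_zero_iff_dvd]
  unfold wedge
  unfold kap at h
  push_cast
  by_cases h1 : (a.2 : ZMod p) = 0
  · by_cases h2 : (a'.2 : ZMod p) = 0
    · rw [h1, h2]; ring
    · rw [if_pos h1, if_neg h2] at h
      exact absurd h (by simp)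
  · by_cases h2 : (a'.2 : ZMod p) = 0
    · rw [if_neg h1, if_pos h2] at h
      exact absurd h (by simp)
    · rw [if_neg h1, if_neg h2, Option.some.injEq, div_eq_div_iff h1 h2] at h
      linear_combination h

lemma jac_eq (D : ℤ) : jacobiSym D p = quadraticChar (ZMod p) (D : ZMod p) := by
  rw [← jacobiSym.legendreSym.to_jacobiSym]; rfl

lemma abs_jac_le (D : ℤ) (n : ℕ) : |jacobiSym D n| ≤ 1 := by
  rcases jacobiSym.trichotomy D n with h | h | h <;> rw [h] <;> norm_num

/-- the normalised moment function of a row vector -/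
noncomputable def gfun {m : ℕ} (b : Fin m → ℤ × ℤ) (ε : Fin m → ℤ) (k p : ℕ) (a : ℤ × ℤ) : ℝ :=
  (((∑ j, ε j * jacobiSym (dot a (b j)) p : ℤ) : ℝ) / m) ^ (2 * k)

lemma gfun_nonneg {m : ℕ} (b : Fin m → ℤ × ℤ) (ε : Fin m → ℤ) (k p : ℕ) (a : ℤ × ℤ) :
    0 ≤ gfun b ε k p a := (even_two_mul k).pow_nonneg _

lemma gfun_le {m : ℕ} (b : Fin m → ℤ × ℤ) (ε : Fin m → ℤ) (k : ℕ) (a : ℤ × ℤ) :
    gfun b ε k p a ≤ G (fun j => ((b j).1 : ZMod p)) (fun j => ((b j).2 : ZMod p)) ε k (kap p a) := by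
  have hmul : ∀ (u S : ℝ), |u| ≤ 1 → (u * S / m) ^ (2 * k) ≤ (S / m) ^ (2 * k) := by
    intro u S hu
    have h1 : u * S / m = u * (S / m) := by ring
    rw [h1, mul_pow]
    have h2 : u ^ (2 * k) ≤ 1 := by
      have : u ^ (2 * k) = |u| ^ (2 * k) := by rw [pow_mul, pow_mul, sq_abs]
      rw [this]
      exact pow_le_one₀ (abs_nonneg _) hu
    have h3 : 0 ≤ (S / m) ^ (2 * k) := (even_two_mul k).pow_nonneg _
    nlinarith
  unfold gfun kap
  by_cases h1 : (a.2 : ZMod p) = 0
  · rw [if_pos h1]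
    unfold G
    have h2 : ∑ j, ε j * jacobiSym (dot a (b j)) p
        = quadraticChar (ZMod p) (a.1 : ZMod p) * ∑ j, ε j * quadraticChar (ZMod p) ((b j).1 : ZMod p) := by
      rw [Finset.mul_sum]
      apply Finset.sum_congr rfl
      intro j _
      rw [jac_eq]
      unfold dot
      push_cast
      rw [h1, zero_mul, add_zero, map_mul]
      ring
    rw [h2]
    push_cast
    apply hmul
    have := abs_quadChar_le (a.1 : ZMod p)
    exact_mod_cast this
  · rw [if_neg h1]
    unfold G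
    have h2 : ∑ j, ε j * jacobiSym (dot a (b j)) p
        = quadraticChar (ZMod p) (a.2 : ZMod p) * ∑ j, ε j * quadraticChar (ZMod p)
          (((b j).1 : ZMod p) * ((a.1 : ZMod p) / (a.2 : ZMod p)) + ((b j).2 : ZMod p)) := by
      rw [Finset.mul_sum]
      apply Finset.sum_congr rfl
      intro j _
      rw [jac_eq]
      have h3 : ((dot a (b j) : ℤ) : ZMod p) = (a.2 : ZMod p) *
          (((b j).1 : ZMod p) * ((a.1 : ZMod p) / (a.2 : ZMod p)) + ((b j).2 : ZMod p)) := by
        unfold dot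
        push_cast
        field_simp
      rw [h3, map_mul]
      ring
    rw [h2]
    push_cast
    apply hmul
    have := abs_quadChar_le (a.2 : ZMod p)
    exact_mod_cast this

lemma per_prime (hp2 : p ≠ 2) {m k : ℕ} (hk : 1 ≤ k) (hm : 1 ≤ m) (b : Fin m → ℤ × ℤ)
    (hb : ∀ i j, i ≠ j → ¬ (p : ℤ) ∣ wedge (b i) (b j)) (ε : Fin m → ℤ) (hε : ∀ i, |ε i| ≤ 1)
    (A : Finset (ℤ × ℤ)) :
    (∑ a ∈ A, gfun b ε k p a) ^ 2
      ≤ (((A ×ˢ A).filter (fun x => (p : ℤ) ∣ wedge x.1 x.2)).card : ℝ)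
        * (2 * (4 * Real.exp 1 * k / m) ^ (2 * k) * p + 96 * k * Real.sqrt p + 1) := by
  classical
  set α : Fin m → ZMod p := fun j => ((b j).1 : ZMod p) with hα
  set β : Fin m → ZMod p := fun j => ((b j).2 : ZMod p) with hβ
  have hαβ : ∀ i j, i ≠ j → α i * β j - α j * β i ≠ 0 := by
    intro i j hij h
    apply hb i j hij
    rw [← ZMod.intCast_zmod_eq_zero_iff_dvd]
    unfold wedge
    push_cast
    linear_combination h
  set Nc : Option (ZMod p) → ℝ := fun κ => ((A.filter (fun a => kap p a = κ)).card : ℝ) with hNc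
  have h1 : ∑ a ∈ A, gfun b ε k p a ≤ ∑ κ : Option (ZMod p), Nc κ * G α β ε k κ := by
    calc ∑ a ∈ A, gfun b ε k p a ≤ ∑ a ∈ A, G α β ε k (kap p a) :=
          Finset.sum_le_sum (fun a _ => gfun_le b ε k a)
      _ = ∑ κ : Option (ZMod p), ∑ a ∈ A.filter (fun a => kap p a = κ), G α β ε k (kap p a) :=
          (Finset.sum_fiberwise A (kap p) (fun a => G α β ε k (kap p a))).symm
      _ = ∑ κ : Option (ZMod p), Nc κ * G α β ε k κ := by
          apply Finset.sum_congr rfl
          intro κ _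
          rw [Finset.sum_congr rfl (g := fun _ => G α β ε k κ), Finset.sum_const, nsmul_eq_mul]
          intro a ha
          rw [(Finset.mem_filter.1 ha).2]
  have h0 : 0 ≤ ∑ a ∈ A, gfun b ε k p a := Finset.sum_nonneg (fun a _ => gfun_nonneg _ _ _ _ _)
  have h2 : (∑ κ : Option (ZMod p), Nc κ * G α β ε k κ) ^ 2
      ≤ (∑ κ, Nc κ ^ 2) * ∑ κ, G α β ε k κ ^ 2 := Finset.sum_mul_sq_le_sq_mul_sq _ _ _
  have h3 : ∑ κ, Nc κ ^ 2 ≤ (((A ×ˢ A).filter (fun x => (p : ℤ) ∣ wedge x.1 x.2)).card : ℝ) := by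
    have h4 : ∀ κ, Nc κ ^ 2 = ((((A ×ˢ A).filter (fun x => kap p x.1 = kap p x.2)).filter
        (fun x => kap p x.1 = κ)).card : ℝ) := by
      intro κ
      rw [hNc]
      simp only
      rw [sq, ← Nat.cast_mul, ← Finset.card_product]
      congr 2
      ext x
      simp only [Finset.mem_filter, Finset.mem_product]
      constructor
      · rintro ⟨⟨h5, h6⟩, h7, h8⟩
        exact ⟨⟨⟨h5, h7⟩, by rw [h6, h8]⟩, h6⟩
      · rintro ⟨⟨⟨h5, h7⟩, h8⟩, h6⟩
        exact ⟨⟨h5, h6⟩, h7, by rw [← h8, h6]⟩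
    rw [Finset.sum_congr rfl (fun κ _ => h4 κ), ← Nat.cast_sum]
    have h5 := Finset.card_eq_sum_card_fiberwise
      (s := (A ×ˢ A).filter (fun x => kap p x.1 = kap p x.2))
      (t := (univ : Finset (Option (ZMod p)))) (f := fun x => kap p x.1)
      (fun _ _ => Finset.mem_coe.2 (Finset.mem_univ _))
    rw [← h5]
    have h6 : (A ×ˢ A).filter (fun x => kap p x.1 = kap p x.2)
        ⊆ (A ×ˢ A).filter (fun x => (p : ℤ) ∣ wedge x.1 x.2) := by
      intro x hx
      rw [Finset.mem_filter] at hx ⊢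
      exact ⟨hx.1, kap_eq_dvd hx.2⟩
    exact_mod_cast Finset.card_le_card h6
  have h4 := sum_G_sq_le (p := p) hp2 hk hm α β hαβ ε hε
  have h5 : 0 ≤ ∑ κ, G α β ε k κ ^ 2 := Finset.sum_nonneg (fun κ _ => sq_nonneg _)
  calc (∑ a ∈ A, gfun b ε k p a) ^ 2 ≤ (∑ κ : Option (ZMod p), Nc κ * G α β ε k κ) ^ 2 :=
        pow_le_pow_left₀ h0 h1 2
    _ ≤ (∑ κ, Nc κ ^ 2) * ∑ κ, G α β ε k κ ^ 2 := h2
    _ ≤ _ := mul_le_mul h3 h4 h5 (by positivity)

end

/-- the larger sieve inequality -/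
lemma sieve_main {m k : ℕ} (hk : 1 ≤ k) (hm : 1 ≤ m) (P : Finset ℕ) (b : Fin m → ℤ × ℤ)
    (hP : ∀ p ∈ P, p.Prime ∧ p ≠ 2 ∧ ∀ i j, i ≠ j → ¬ (p : ℤ) ∣ wedge (b i) (b j))
    (t : Fin m → ℤ) (s : ℤ × ℤ → ℤ) (A : Finset (ℤ × ℤ))
    (Mw : ℝ) (hMw : 1 ≤ Mw)
    (hA : ∀ a ∈ A, ∀ a' ∈ A, a ≠ a' → wedge a a' ≠ 0 ∧ |((wedge a a' : ℤ) : ℝ)| ≤ Mw)
    (W : ℝ) (hW : ∀ a ∈ A, ∑ p ∈ P.filter
      (fun p : ℕ => ∃ j, jacobiSym (s a * t j * dot a (b j)) p ≠ -1), Real.log p ≤ W)
    (hWθ : W ≤ ∑ p ∈ P, Real.log p) :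
    (A.card * (∑ p ∈ P, Real.log p - W)) ^ 2
      ≤ (A.card * ∑ p ∈ P, Real.log p + (A.card : ℝ) ^ 2 * Real.log Mw)
        * ∑ p ∈ P, Real.log p
          * (2 * (4 * Real.exp 1 * k / m) ^ (2 * k) * p + 96 * k * Real.sqrt p + 1) := by
  classical
  set θ := ∑ p ∈ P, Real.log p with hθ
  have hlog : ∀ p ∈ P, 0 ≤ Real.log p := fun p _ => Real.log_natCast_nonneg p
  set ε : ℕ → Fin m → ℤ := fun p j => jacobiSym (t j) p with hε
  set S : ℕ → ℝ := fun p => ∑ a ∈ A, gfun b (ε p) k p a with hS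
  set Q : ℕ → ℝ := fun p => (((A ×ˢ A).filter (fun x => (p : ℤ) ∣ wedge x.1 x.2)).card : ℝ) with hQ
  set Bd : ℕ → ℝ := fun p => 2 * (4 * Real.exp 1 * k / m) ^ (2 * k) * p + 96 * k * Real.sqrt p + 1
    with hBd
  have hBd0 : ∀ p, 0 ≤ Bd p := by
    intro p
    have : 0 ≤ (4 * Real.exp 1 * (k : ℝ) / m) ^ (2 * k) := by positivity
    simp only [hBd]
    positivity
  have hS0 : ∀ p, 0 ≤ S p := fun p => Finset.sum_nonneg (fun a _ => gfun_nonneg _ _ _ _ _)
  have hpp : ∀ p ∈ P, S p ^ 2 ≤ Q p * Bd p := by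
    intro p hp
    obtain ⟨h1, h2, h3⟩ := hP p hp
    haveI : Fact p.Prime := ⟨h1⟩
    exact per_prime h2 hk hm b h3 (ε p) (fun i => abs_jac_le _ _) A
  -- lower bound
  have hlow : A.card * (θ - W) ≤ ∑ p ∈ P, Real.log p * S p := by
    have h1 : ∀ a ∈ A, θ - W ≤ ∑ p ∈ P, Real.log p * gfun b (ε p) k p a := by
      intro a ha
      have h2 : θ - ∑ p ∈ P.filter
          (fun p : ℕ => ∃ j, jacobiSym (s a * t j * dot a (b j)) p ≠ -1), Real.log p
          = ∑ p ∈ P.filter
          (fun p : ℕ => ¬ ∃ j, jacobiSym (s a * t j * dot a (b j)) p ≠ -1), Real.log p := by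
        rw [hθ, ← Finset.sum_filter_add_sum_filter_not P
          (fun p : ℕ => ∃ j, jacobiSym (s a * t j * dot a (b j)) p ≠ -1)]
        ring
      have h3 : ∑ p ∈ P.filter
          (fun p : ℕ => ¬ ∃ j, jacobiSym (s a * t j * dot a (b j)) p ≠ -1), Real.log p
          ≤ ∑ p ∈ P, Real.log p * gfun b (ε p) k p a := by
        rw [Finset.sum_filter]
        apply Finset.sum_le_sum
        intro p hp
        by_cases hc : ¬ ∃ j, jacobiSym (s a * t j * dot a (b j)) p ≠ -1
        · rw [if_pos hc]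
          push Not at hc
          have h4 : gfun b (ε p) k p a = 1 := by
            unfold gfun
            haveI : Fact p.Prime := ⟨(hP p hp).1⟩
            have h5 : ∀ j, jacobiSym (s a) p * (jacobiSym (t j) p * jacobiSym (dot a (b j)) p) = -1 := by
              intro j
              rw [← hc j, jacobiSym.mul_left, jacobiSym.mul_left]
              ring
            have h6 : jacobiSym (s a) p * jacobiSym (s a) p = 1 := by
              have h7 := h5 ⟨0, hm⟩
              rcases jacobiSym.trichotomy (s a) p with h | h | h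
              · rw [h] at h7; norm_num at h7
              · rw [h]; norm_num
              · rw [h]; norm_num
            have h8 : ∑ j, ε p j * jacobiSym (dot a (b j)) p = - jacobiSym (s a) p * m := by
              have h9 : ∀ j, ε p j * jacobiSym (dot a (b j)) p = - jacobiSym (s a) p := by
                intro j
                have h10 := h5 j
                have h11 : jacobiSym (s a) p * jacobiSym (s a) p
                    * (jacobiSym (t j) p * jacobiSym (dot a (b j)) p)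
                    = jacobiSym (s a) p * (-1) := by
                  rw [← h10]; ring
                rw [h6, one_mul] at h11
                simp only [hε]
                rw [h11]; ring
              rw [Finset.sum_congr rfl (fun j _ => h9 j), Finset.sum_const, Finset.card_univ,
                Fintype.card_fin, nsmul_eq_mul]
              ring
            rw [h8]
            have hmr : (m : ℝ) ≠ 0 := by
              have : (0 : ℝ) < m := by exact_mod_cast hm
              exact this.ne'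
            push_cast
            rw [mul_div_assoc, div_self hmr, mul_one, pow_mul, neg_sq]
            have h12 : ((jacobiSym (s a) p : ℤ) : ℝ) ^ 2 = 1 := by
              rw [sq]; exact_mod_cast h6
            rw [h12, one_pow]
          rw [h4, mul_one]
        · rw [if_neg hc]
          exact mul_nonneg (hlog p hp) (gfun_nonneg _ _ _ _ _)
      have h4 := hW a ha
      linarith
    calc A.card * (θ - W) = ∑ _a ∈ A, (θ - W) := by rw [Finset.sum_const, nsmul_eq_mul]
      _ ≤ ∑ a ∈ A, ∑ p ∈ P, Real.log p * gfun b (ε p) k p a := Finset.sum_le_sum h1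
      _ = ∑ p ∈ P, Real.log p * S p := by
          rw [Finset.sum_comm]
          apply Finset.sum_congr rfl
          intro p _
          rw [hS, Finset.mul_sum]
  -- Cauchy–Schwarz
  have hcs : (∑ p ∈ P, Real.log p * S p) ^ 2
      ≤ (∑ p ∈ P, Real.log p * Q p) * ∑ p ∈ P, Real.log p * Bd p := by
    have h1 : ∑ p ∈ P, Real.log p * S p
        ≤ ∑ p ∈ P, Real.sqrt (Real.log p * Q p) * Real.sqrt (Real.log p * Bd p) := by
      apply Finset.sum_le_sum
      intro p hp
      have hl := hlog p hp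
      have hQ0 : 0 ≤ Q p := Nat.cast_nonneg _
      rw [← Real.sqrt_mul (mul_nonneg hl hQ0)]
      apply Real.le_sqrt_of_sq_le
      have := hpp p hp
      calc (Real.log p * S p) ^ 2 = Real.log p ^ 2 * S p ^ 2 := by ring
        _ ≤ Real.log p ^ 2 * (Q p * Bd p) := mul_le_mul_of_nonneg_left this (sq_nonneg _)
        _ = Real.log p * Q p * (Real.log p * Bd p) := by ring
    have h2 := Finset.sum_mul_sq_le_sq_mul_sq P (fun p => Real.sqrt (Real.log p * Q p))
      (fun p => Real.sqrt (Real.log p * Bd p))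
    have h3 : ∑ p ∈ P, Real.sqrt (Real.log p * Q p) ^ 2 = ∑ p ∈ P, Real.log p * Q p := by
      apply Finset.sum_congr rfl
      intro p hp
      exact Real.sq_sqrt (mul_nonneg (hlog p hp) (Nat.cast_nonneg _))
    have h4 : ∑ p ∈ P, Real.sqrt (Real.log p * Bd p) ^ 2 = ∑ p ∈ P, Real.log p * Bd p := by
      apply Finset.sum_congr rfl
      intro p hp
      exact Real.sq_sqrt (mul_nonneg (hlog p hp) (hBd0 p))
    rw [h3, h4] at h2
    have h5 : 0 ≤ ∑ p ∈ P, Real.log p * S p :=
      Finset.sum_nonneg (fun p hp => mul_nonneg (hlog p hp) (hS0 p))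
    exact (pow_le_pow_left₀ h5 h1 2).trans h2
  -- Gallagher
  have hgal : ∑ p ∈ P, Real.log p * Q p ≤ A.card * θ + (A.card : ℝ) ^ 2 * Real.log Mw := by
    have h1 : ∑ p ∈ P, Real.log p * Q p
        = ∑ x ∈ A ×ˢ A, ∑ p ∈ P.filter (fun p : ℕ => (p : ℤ) ∣ wedge x.1 x.2), Real.log p := by
      have h2 : ∀ p : ℕ, Real.log (p : ℝ) * Q p = ∑ x ∈ A ×ˢ A,
          if (p : ℤ) ∣ wedge x.1 x.2 then Real.log p else 0 := by
        intro p
        rw [← Finset.sum_filter, Finset.sum_const, nsmul_eq_mul, mul_comm]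
      rw [Finset.sum_congr rfl (fun p _ => h2 p), Finset.sum_comm]
      apply Finset.sum_congr rfl
      intro x _
      rw [Finset.sum_filter]
    rw [h1]
    have hlM : 0 ≤ Real.log Mw := Real.log_nonneg hMw
    have h3 : ∀ x ∈ A ×ˢ A, ∑ p ∈ P.filter (fun p : ℕ => (p : ℤ) ∣ wedge x.1 x.2), Real.log p
        ≤ (if x.1 = x.2 then θ else 0) + Real.log Mw := by
      intro x hx
      rw [Finset.mem_product] at hx
      by_cases h : x.1 = x.2
      · rw [if_pos h]
        have h4 : ∑ p ∈ P.filter (fun p : ℕ => (p : ℤ) ∣ wedge x.1 x.2), Real.log p ≤ θ :=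
          Finset.sum_le_sum_of_subset_of_nonneg (Finset.filter_subset _ _)
            (fun p hp _ => hlog p hp)
        linarith
      · rw [if_neg h, zero_add]
        obtain ⟨h5, h6⟩ := hA x.1 hx.1 x.2 hx.2 h
        refine (sum_log_dvd_le P (fun p hp => (hP p hp).1) _ h5).trans ?_
        apply Real.log_le_log _ h6
        exact abs_pos.2 (by exact_mod_cast h5)
    refine (Finset.sum_le_sum h3).trans ?_
    rw [Finset.sum_add_distrib, Finset.sum_const, Finset.card_product, nsmul_eq_mul,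
      ← Finset.sum_filter, Finset.sum_const, nsmul_eq_mul]
    have h4 : ((A ×ˢ A).filter (fun x => x.1 = x.2)).card = A.card := by
      symm
      apply Finset.card_bij (fun a _ => (a, a))
      · intro a ha
        simp [ha]
      · intro a _ a' _ h
        exact (Prod.mk.inj h).1
      · rintro ⟨x, y⟩ hx
        rw [Finset.mem_filter, Finset.mem_product] at hx
        obtain ⟨⟨h5, _⟩, h6⟩ := hx
        simp only at h5 h6
        exact ⟨x, h5, by rw [h6]⟩
    rw [h4]
    push_cast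
    nlinarith
  have h0 : 0 ≤ A.card * (θ - W) := mul_nonneg (Nat.cast_nonneg _) (by linarith)
  have hB0 : 0 ≤ ∑ p ∈ P, Real.log p * Bd p :=
    Finset.sum_nonneg (fun p hp => mul_nonneg (hlog p hp) (hBd0 p))
  calc (A.card * (θ - W)) ^ 2 ≤ (∑ p ∈ P, Real.log p * S p) ^ 2 := pow_le_pow_left₀ h0 hlow 2
    _ ≤ (∑ p ∈ P, Real.log p * Q p) * ∑ p ∈ P, Real.log p * Bd p := hcs
    _ ≤ _ := mul_le_mul_of_nonneg_right hgal hB0

end StepH53
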