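import Mathlib

set_option autoImplicit false

namespace StepH53

open Polynomial Finset

variable {p : ℕ} [hpF : Fact p.Prime]

/-- the recursive derivative operators of Stepanov's method: if `n = l - k + c` then
`D (f^n * u) = f^(n-1) * (n f' u + f u')`. -/
noncomputable def V (f : (ZMod p)[X]) (l c : ℕ) : ℕ → (ZMod p)[X] →ₗ[ZMod p] (ZMod p)[X]
  | 0 => LinearMap.id
  | k + 1 =>
      (((l - k + c : ℕ) : ZMod p) • LinearMap.mulLeft (ZMod p) (derivative f)) ∘ₗ V f l c k
        + (LinearMap.mulLeft (ZMod p) f ∘ₗ derivative) ∘ₗ V f l c k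

lemma V_zero (f : (ZMod p)[X]) (l c : ℕ) (u : (ZMod p)[X]) : V f l c 0 u = u := rfl

lemma V_succ (f : (ZMod p)[X]) (l c k : ℕ) (u : (ZMod p)[X]) :
    V f l c (k + 1) u = C ((l - k + c : ℕ) : ZMod p) * (derivative f * V f l c k u)
      + f * derivative (V f l c k u) := by
  simp only [V, LinearMap.add_apply, LinearMap.comp_apply, LinearMap.smul_apply,
    LinearMap.mulLeft_apply, smul_eq_C_mul]

lemma derivative_X_pow_mul_p (j : ℕ) : derivative ((X : (ZMod p)[X]) ^ (j * p)) = 0 := by
  rw [derivative_X_pow]
  simp

/-- the `k`-th derivative of `f^(l+c) u X^(jp)` -/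
lemma iterate_derivative_eq (f : (ZMod p)[X]) (l c j : ℕ) (u : (ZMod p)[X]) :
    ∀ k : ℕ, k ≤ l → derivative^[k] (f ^ (l + c) * u * X ^ (j * p))
      = f ^ (l - k + c) * V f l c k u * X ^ (j * p) := by
  intro k
  induction k with
  | zero => intro _; simp [V_zero]
  | succ k ih =>
    intro hk
    rw [Function.iterate_succ_apply', ih (by omega), derivative_mul, derivative_X_pow_mul_p,
      mul_zero, add_zero, derivative_mul, derivative_pow, V_succ]
    have h1 : l - k + c = (l - (k + 1) + c) + 1 := by omega
    rw [h1]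
    simp only [Nat.add_sub_cancel]
    ring

lemma natDegree_V_le (f : (ZMod p)[X]) (l c m e : ℕ) (hf : f.natDegree ≤ m) (hm : 1 ≤ m)
    (u : (ZMod p)[X]) (hu : u.natDegree ≤ e) :
    ∀ k : ℕ, (V f l c k u).natDegree ≤ e + k * (m - 1) := by
  intro k
  induction k with
  | zero => simpa [V_zero] using hu
  | succ k ih =>
    rw [V_succ]
    refine (natDegree_add_le _ _).trans (max_le ?_ ?_)
    · refine (natDegree_C_mul_le _ _).trans ?_
      refine (natDegree_mul_le).trans ?_
      have h1 : (derivative f).natDegree ≤ m - 1 := (natDegree_derivative_le f).trans (by omega)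
      have h2 : (k + 1) * (m - 1) = k * (m - 1) + (m - 1) := by ring
      omega
    · by_cases h0 : derivative (V f l c k u) = 0
      · rw [h0, mul_zero, natDegree_zero]; omega
      · refine (natDegree_mul_le).trans ?_
        have h3 : (V f l c k u).natDegree ≠ 0 := by
          intro h
          apply h0
          rw [natDegree_eq_zero] at h
          obtain ⟨a, ha⟩ := h
          rw [← ha, derivative_C]
        have h4 := natDegree_derivative_le (V f l c k u)
        have h2 : (k + 1) * (m - 1) = k * (m - 1) + (m - 1) := by ring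
        omega

end StepH53
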