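import Mathlib

set_option autoImplicit false

namespace StepH53

open Polynomial Finset

variable {p : ℕ} [hpF : Fact p.Prime]

/-- a squarefree non-constant polynomial times a square is not a constant times a square -/
lemma no_sq_ratio (f : (ZMod p)[X]) (hf : Squarefree f) (hf1 : 1 ≤ f.natDegree) (c : ZMod p)
    (hc : c ≠ 0) : ∀ (n : ℕ) (r s : (ZMod p)[X]), r.natDegree ≤ n → f * r ^ 2 = C c * s ^ 2 →
      r = 0 ∧ s = 0 := by
  have hfu : ¬ IsUnit f := by
    intro h
    have := natDegree_eq_zero_of_isUnit h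
    omega
  have hf0 : f ≠ 0 := hf.ne_zero
  obtain ⟨π, hπ, f1, hf1'⟩ := WfDvdMonoid.exists_irreducible_factor hfu hf0
  have hπp : Prime π := hπ.prime
  have hπf1 : ¬ π ∣ f1 := by
    rintro ⟨g, hg⟩
    apply hπ.not_isUnit
    apply hf π
    exact ⟨g, by rw [hf1', hg]; ring⟩
  have hCu : IsUnit (C c : (ZMod p)[X]) := isUnit_C.2 (isUnit_iff_ne_zero.2 hc)
  have hdeg : 1 ≤ π.natDegree := by
    by_contra h
    have h0 : π.natDegree = 0 := by omega
    rw [natDegree_eq_zero] at h0
    obtain ⟨a, ha⟩ := h0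
    apply hπ.not_isUnit
    rw [← ha]
    refine isUnit_C.2 (isUnit_iff_ne_zero.2 ?_)
    rintro rfl
    apply hπ.ne_zero
    rw [← ha, C_0]
  have step : ∀ r s : (ZMod p)[X], f * r ^ 2 = C c * s ^ 2 →
      ∃ r' s' : (ZMod p)[X], r = π * r' ∧ s = π * s' ∧ f * r' ^ 2 = C c * s' ^ 2 := by
    intro r s h
    have h1 : π ∣ C c * s ^ 2 := by
      rw [← h, hf1']; exact ⟨f1 * r ^ 2, by ring⟩
    have h2 : π ∣ s := by
      rcases hπp.dvd_or_dvd h1 with h3 | h3
      · exact absurd (isUnit_of_dvd_unit h3 hCu) hπ.not_isUnit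
      · exact hπp.dvd_of_dvd_pow h3
    obtain ⟨s', hs'⟩ := h2
    have h4 : f1 * r ^ 2 = C c * (π * s' ^ 2) := by
      have h5 : π * (f1 * r ^ 2) = π * (C c * (π * s' ^ 2)) := by
        calc π * (f1 * r ^ 2) = f * r ^ 2 := by rw [hf1']; ring
          _ = C c * s ^ 2 := h
          _ = π * (C c * (π * s' ^ 2)) := by rw [hs']; ring
      exact mul_left_cancel₀ hπ.ne_zero h5
    have h6 : π ∣ r := by
      have h7 : π ∣ f1 * r ^ 2 := by rw [h4]; exact ⟨C c * s' ^ 2, by ring⟩
      rcases hπp.dvd_or_dvd h7 with h3 | h3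
      · exact absurd h3 hπf1
      · exact hπp.dvd_of_dvd_pow h3
    obtain ⟨r', hr'⟩ := h6
    refine ⟨r', s', hr', hs', ?_⟩
    have h8 : π ^ 2 * (f * r' ^ 2) = π ^ 2 * (C c * s' ^ 2) := by
      calc π ^ 2 * (f * r' ^ 2) = f * r ^ 2 := by rw [hr']; ring
        _ = C c * s ^ 2 := h
        _ = π ^ 2 * (C c * s' ^ 2) := by rw [hs']; ring
    exact mul_left_cancel₀ (pow_ne_zero 2 hπ.ne_zero) h8
  have hs0 : ∀ s : (ZMod p)[X], f * (0 : (ZMod p)[X]) ^ 2 = C c * s ^ 2 → s = 0 := by
    intro s h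
    have h1 : C c * s ^ 2 = 0 := by rw [← h]; ring
    rcases mul_eq_zero.1 h1 with h2 | h2
    · exact absurd h2 hCu.ne_zero
    · exact pow_eq_zero_iff (two_ne_zero) |>.1 h2
  intro n
  induction n with
  | zero =>
    intro r s hr h
    obtain ⟨r', s', hr', hs', h'⟩ := step r s h
    have hr0 : r = 0 := by
      by_contra hne
      have hr'0 : r' ≠ 0 := by rintro rfl; apply hne; rw [hr', mul_zero]
      have h9 : r.natDegree = π.natDegree + r'.natDegree := by
        rw [hr', natDegree_mul hπ.ne_zero hr'0]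
      omega
    subst hr0
    exact ⟨rfl, hs0 s h⟩
  | succ n ih =>
    intro r s hr h
    obtain ⟨r', s', hr', hs', h'⟩ := step r s h
    by_cases hr'0 : r' = 0
    · have hr0 : r = 0 := by rw [hr', hr'0, mul_zero]
      subst hr0
      exact ⟨rfl, hs0 s h⟩
    · have h9 : r.natDegree = π.natDegree + r'.natDegree := by
        rw [hr', natDegree_mul hπ.ne_zero hr'0]
      obtain ⟨h10, h11⟩ := ih r' s' (by omega) h'
      exact absurd h10 hr'0

/-- the key congruence: if `X^p` divides `r + s g`, with `g = f^((p-1)/2)` and small degrees, then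
`r = s = 0`. -/
lemma key_indep (hp2 : p ≠ 2) (f : (ZMod p)[X]) (hf : Squarefree f) (hf1 : 1 ≤ f.natDegree)
    (hf0 : f.eval 0 ≠ 0) (E : ℕ) (hE : 2 * E + f.natDegree < p + 2) (r s : (ZMod p)[X])
    (hr : r.degree < E) (hs : s.degree < E)
    (hX : X ^ p ∣ r + s * f ^ ((p - 1) / 2)) : r = 0 ∧ s = 0 := by
  have hp1 : 2 * ((p - 1) / 2) + 1 = p := by
    have := hpF.out.two_le
    have hodd : p % 2 = 1 := by
      rcases hpF.out.eq_two_or_odd with h | h
      · exact absurd h hp2
      · exact h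
    omega
  have h1 : X ^ p ∣ r ^ 2 * f - s ^ 2 * f ^ p := by
    have h2 : r ^ 2 * f - s ^ 2 * f ^ p
        = (r + s * f ^ ((p - 1) / 2)) * ((r - s * f ^ ((p - 1) / 2)) * f) := by
      have h3 : f ^ p = (f ^ ((p - 1) / 2)) ^ 2 * f := by
        rw [← pow_mul, ← pow_succ]; congr 1; omega
      rw [h3]; ring
    rw [h2]
    exact Dvd.dvd.mul_right hX _
  have h4 : X ^ p ∣ f ^ p - C (f.eval 0) := by
    have h5 : f ^ p - C (f.eval 0) = (f - C (f.eval 0)) ^ p := by
      rw [sub_pow_char, ← C_pow, ZMod.pow_card]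
    rw [h5]
    apply pow_dvd_pow_of_dvd
    rw [X_dvd_iff, coeff_sub, coeff_C_zero, coeff_zero_eq_eval_zero, sub_self]
  have h6 : X ^ p ∣ f * r ^ 2 - C (f.eval 0) * s ^ 2 := by
    have h7 : f * r ^ 2 - C (f.eval 0) * s ^ 2
        = (r ^ 2 * f - s ^ 2 * f ^ p) + s ^ 2 * (f ^ p - C (f.eval 0)) := by ring
    rw [h7]
    exact dvd_add h1 (Dvd.dvd.mul_left h4 _)
  have h8 : f * r ^ 2 - C (f.eval 0) * s ^ 2 = 0 := by
    by_contra hne
    have hd : (f * r ^ 2 - C (f.eval 0) * s ^ 2).natDegree < p := by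
      have hEpos : r ≠ 0 ∨ s ≠ 0 := by
        by_contra h
        push Not at h
        apply hne
        rw [h.1, h.2]; ring
      have hE1 : 1 ≤ E := by
        by_contra hE0
        have hE0' : E = 0 := by omega
        rw [hE0'] at hr hs
        simp only [Nat.cast_zero] at hr hs
        rcases hEpos with h | h
        · rw [degree_eq_natDegree h] at hr
          exact absurd hr (by simp)
        · rw [degree_eq_natDegree h] at hs
          exact absurd hs (by simp)
      have hr' : r.natDegree ≤ E - 1 := by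
        by_cases h : r = 0
        · rw [h, natDegree_zero]; omega
        · have := (natDegree_lt_iff_degree_lt h).2 hr
          omega
      have hs' : s.natDegree ≤ E - 1 := by
        by_cases h : s = 0
        · rw [h, natDegree_zero]; omega
        · have := (natDegree_lt_iff_degree_lt h).2 hs
          omega
      have h9 : (f * r ^ 2).natDegree ≤ f.natDegree + 2 * (E - 1) := by
        refine natDegree_mul_le.trans ?_
        have := natDegree_pow_le (p := r) (n := 2)
        omega
      have h10 : (C (f.eval 0) * s ^ 2).natDegree ≤ 2 * (E - 1) := by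
        refine (natDegree_C_mul_le _ _).trans ?_
        have := natDegree_pow_le (p := s) (n := 2)
        omega
      have h11 := natDegree_sub_le (f * r ^ 2) (C (f.eval 0) * s ^ 2)
      have h12 : max (f * r ^ 2).natDegree (C (f.eval 0) * s ^ 2).natDegree
          ≤ f.natDegree + 2 * (E - 1) := max_le h9 (by omega)
      omega
    have h13 := natDegree_le_of_dvd h6 hne
    rw [natDegree_X_pow] at h13
    omega
  have h14 : f * r ^ 2 = C (f.eval 0) * s ^ 2 := by linear_combination h8
  exact no_sq_ratio f hf hf1 (f.eval 0) hf0 r.natDegree r s le_rfl h14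

end StepH53
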