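import Pool.Agent.W_aaa0df_h53.StepA
import Pool.Agent.W_aaa0df_h53.StepB

set_option autoImplicit false

namespace StepH53

open Polynomial Finset

variable {p : ℕ} [hpF : Fact p.Prime]

/-- the auxiliary polynomial -/
noncomputable def R (f : (ZMod p)[X]) (l c J : ℕ) (r s : Fin J → (ZMod p)[X]) : (ZMod p)[X] :=
  ∑ j : Fin J, (f ^ (l + 0) * r j * X ^ ((j : ℕ) * p) + f ^ (l + c) * s j * X ^ ((j : ℕ) * p))

lemma R_ne_zero (hp2 : p ≠ 2) (f : (ZMod p)[X]) (hf : Squarefree f) (hf1 : 1 ≤ f.natDegree)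
    (hf0 : f.eval 0 ≠ 0) (E l J : ℕ) (hE : 2 * E + f.natDegree < p + 2)
    (r s : Fin J → (ZMod p)[X]) (hr : ∀ j, (r j).degree < E) (hs : ∀ j, (s j).degree < E)
    (h0 : R f l ((p - 1) / 2) J r s = 0) : ∀ j, r j = 0 ∧ s j = 0 := by
  set c := (p - 1) / 2 with hc
  have hfl : f ^ l ≠ 0 := pow_ne_zero _ hf.ne_zero
  have h1 : ∑ j : Fin J, (r j + s j * f ^ c) * X ^ ((j : ℕ) * p) = 0 := by
    have h2 : f ^ l * ∑ j : Fin J, (r j + s j * f ^ c) * X ^ ((j : ℕ) * p) = 0 := by
      rw [← h0, R, Finset.mul_sum]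
      apply Finset.sum_congr rfl
      intro j _
      rw [pow_add, pow_add]; ring
    rcases mul_eq_zero.1 h2 with h | h
    · exact absurd h hfl
    · exact h
  have key : ∀ n : ℕ, ∀ hn : n < J, r ⟨n, hn⟩ = 0 ∧ s ⟨n, hn⟩ = 0 := by
    intro n
    induction n using Nat.strong_induction_on with
    | _ n ih =>
      intro hn
      have h3 : X ^ ((n + 1) * p) ∣ (r ⟨n, hn⟩ + s ⟨n, hn⟩ * f ^ c) * X ^ (n * p) := by
        have h4 : (r ⟨n, hn⟩ + s ⟨n, hn⟩ * f ^ c) * X ^ (n * p)
            = - ∑ j ∈ univ.erase (⟨n, hn⟩ : Fin J), (r j + s j * f ^ c) * X ^ ((j : ℕ) * p) := by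
          have h5 := Finset.add_sum_erase univ
            (fun j : Fin J => (r j + s j * f ^ c) * X ^ ((j : ℕ) * p)) (Finset.mem_univ ⟨n, hn⟩)
          rw [h1] at h5
          linear_combination h5
        rw [h4]
        apply dvd_neg.2
        apply Finset.dvd_sum
        intro j hj
        have hjn : (j : ℕ) ≠ n := by
          intro h
          apply (Finset.mem_erase.1 hj).1
          exact Fin.ext h
        rcases lt_or_gt_of_ne hjn with h | h
        · obtain ⟨h6, h7⟩ := ih j h j.2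
          have h6' : r j = 0 := h6
          have h7' : s j = 0 := h7
          rw [h6', h7']; simp
        · apply Dvd.dvd.mul_left
          apply pow_dvd_pow
          exact Nat.mul_le_mul_right p (by omega)
      have h8 : X ^ p ∣ r ⟨n, hn⟩ + s ⟨n, hn⟩ * f ^ c := by
        have h9 : X ^ (n * p) * X ^ p ∣ X ^ (n * p) * (r ⟨n, hn⟩ + s ⟨n, hn⟩ * f ^ c) := by
          rw [← pow_add, mul_comm (X ^ (n * p)) (_ + _)]
          have : n * p + p = (n + 1) * p := by ring
          rw [this]; exact h3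
        exact (mul_dvd_mul_iff_left (pow_ne_zero _ X_ne_zero)).1 h9
      exact key_indep hp2 f hf hf1 hf0 E hE _ _ (hr _) (hs _) h8
  intro j
  exact key j j.2

lemma natDegree_R_le (f : (ZMod p)[X]) (l c J E m : ℕ) (hE : 1 ≤ E) (hJ : 1 ≤ J)
    (hf : f.natDegree ≤ m)
    (r s : Fin J → (ZMod p)[X]) (hr : ∀ j, (r j).degree < E) (hs : ∀ j, (s j).degree < E) :
    (R f l c J r s).natDegree ≤ l * m + c * m + (E - 1) + (J - 1) * p := by
  have hnat : ∀ q : (ZMod p)[X], q.degree < E → q.natDegree ≤ E - 1 := by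
    intro q hq
    by_cases h : q = 0
    · rw [h, natDegree_zero]; omega
    · have := (natDegree_lt_iff_degree_lt h).2 hq
      omega
  have hpw : ∀ n : ℕ, (f ^ n).natDegree ≤ n * m := by
    intro n
    exact natDegree_pow_le.trans (Nat.mul_le_mul_left n hf)
  unfold R
  apply natDegree_sum_le_of_forall_le
  intro j _
  have hj : (j : ℕ) * p ≤ (J - 1) * p := Nat.mul_le_mul_right p (by omega)
  refine (natDegree_add_le _ _).trans (max_le ?_ ?_)
  · refine natDegree_mul_le.trans ?_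
    rw [natDegree_X_pow]
    have h1 : (f ^ (l + 0) * r j).natDegree ≤ (l + 0) * m + (E - 1) :=
      natDegree_mul_le.trans (Nat.add_le_add (hpw _) (hnat _ (hr j)))
    have h2 : (l + 0) * m = l * m := by ring
    omega
  · refine natDegree_mul_le.trans ?_
    rw [natDegree_X_pow]
    have h1 : (f ^ (l + c) * s j).natDegree ≤ (l + c) * m + (E - 1) :=
      natDegree_mul_le.trans (Nat.add_le_add (hpw _) (hnat _ (hs j)))
    have h2 : (l + c) * m = l * m + c * m := by ring
    omega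

/-- the linear conditions -/
lemma exists_coeffs (f : (ZMod p)[X]) (l c J E m : ℕ) (hf : f.natDegree ≤ m) (hm : 1 ≤ m)
    (hE : 1 ≤ E) (a : ZMod p)
    (hcount : ∑ k ∈ Finset.range l, (E + k * (m - 1) + J) < 2 * (J * E)) :
    ∃ r s : Fin J → (ZMod p)[X], (∀ j, (r j).degree < E) ∧ (∀ j, (s j).degree < E) ∧
      (∃ j, r j ≠ 0 ∨ s j ≠ 0) ∧
      ∀ k < l, ∑ j : Fin J, (V f l 0 k (r j) + C a * V f l c k (s j)) * X ^ (j : ℕ) = 0 := by
  have hVdeg : ∀ (c' k : ℕ) (u : degreeLT (ZMod p) E) (j : Fin J),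
      (V f l c' k u.1 * X ^ (j : ℕ)) ∈ degreeLT (ZMod p) (E + k * (m - 1) + J) := by
    intro c' k u j
    rw [mem_degreeLT]
    have h1 : (V f l c' k u.1).natDegree ≤ (E - 1) + k * (m - 1) := by
      apply natDegree_V_le f l c' m (E - 1) hf hm
      by_cases h : u.1 = 0
      · rw [h, natDegree_zero]; omega
      · have := (natDegree_lt_iff_degree_lt h).2 (mem_degreeLT.1 u.2)
        omega
    have h2 : (V f l c' k u.1 * X ^ (j : ℕ)).natDegree ≤ (E - 1) + k * (m - 1) + j := by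
      refine natDegree_mul_le.trans ?_
      rw [natDegree_X_pow]; omega
    have hj := j.2
    calc (V f l c' k u.1 * X ^ (j : ℕ)).degree
        ≤ ((V f l c' k u.1 * X ^ (j : ℕ)).natDegree : WithBot ℕ) := degree_le_natDegree
      _ < ((E + k * (m - 1) + J : ℕ) : WithBot ℕ) := by
          rw [Nat.cast_lt]; omega
  let W := (Fin J → degreeLT (ZMod p) E) × (Fin J → degreeLT (ZMod p) E)
  let T := ∀ k : Fin l, degreeLT (ZMod p) (E + (k : ℕ) * (m - 1) + J)
  let Φ : W →ₗ[ZMod p] T := LinearMap.pi (fun k => LinearMap.codRestrict _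
    ((∑ j : Fin J, (LinearMap.mulRight (ZMod p) (X ^ (j : ℕ)) ∘ₗ V f l 0 k ∘ₗ
        (degreeLT (ZMod p) E).subtype ∘ₗ LinearMap.proj j)) ∘ₗ LinearMap.fst (ZMod p) _ _
      + a • ((∑ j : Fin J, (LinearMap.mulRight (ZMod p) (X ^ (j : ℕ)) ∘ₗ V f l c k ∘ₗ
        (degreeLT (ZMod p) E).subtype ∘ₗ LinearMap.proj j)) ∘ₗ LinearMap.snd (ZMod p) _ _))
    (by
      intro w
      simp only [LinearMap.add_apply, LinearMap.comp_apply, LinearMap.smul_apply,
        LinearMap.sum_apply, LinearMap.mulRight_apply, Submodule.subtype_apply,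
        LinearMap.proj_apply, LinearMap.fst_apply, LinearMap.snd_apply]
      apply Submodule.add_mem
      · exact Submodule.sum_mem _ (fun j _ => hVdeg 0 k (w.1 j) j)
      · exact Submodule.smul_mem _ _ (Submodule.sum_mem _ (fun j _ => hVdeg c k (w.2 j) j))))
  have hfin : ∀ n : ℕ, Module.Finite (ZMod p) (degreeLT (ZMod p) n) := fun n =>
    Module.Finite.equiv (degreeLTEquiv (ZMod p) n).symm
  have hrank : ∀ n : ℕ, Module.finrank (ZMod p) (degreeLT (ZMod p) n) = n := by
    intro n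
    rw [LinearEquiv.finrank_eq (degreeLTEquiv (ZMod p) n), Module.finrank_fin_fun]
  haveI := hfin
  have hW : Module.finrank (ZMod p) W = 2 * (J * E) := by
    rw [Module.finrank_prod, Module.finrank_pi_fintype]
    simp only [hrank, Finset.sum_const, Finset.card_univ, Fintype.card_fin, smul_eq_mul]
    ring
  have hT : Module.finrank (ZMod p) T = ∑ k ∈ Finset.range l, (E + k * (m - 1) + J) := by
    rw [Module.finrank_pi_fintype, Finset.sum_range]
    simp only [hrank]
  have hker : LinearMap.ker Φ ≠ ⊥ := by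
    apply LinearMap.ker_ne_bot_of_finrank_lt
    rw [hW, hT]; exact hcount
  obtain ⟨w, hw, hw0⟩ := (Submodule.ne_bot_iff _).1 hker
  refine ⟨fun j => (w.1 j).1, fun j => (w.2 j).1, fun j => mem_degreeLT.1 (w.1 j).2,
    fun j => mem_degreeLT.1 (w.2 j).2, ?_, ?_⟩
  · by_contra hcon
    push Not at hcon
    apply hw0
    apply Prod.ext
    · funext j
      exact Subtype.ext (hcon j).1
    · funext j
      exact Subtype.ext (hcon j).2
  · intro k hk
    have h1 : Φ w ⟨k, hk⟩ = 0 := by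
      rw [LinearMap.mem_ker.1 hw]; rfl
    have h3 : ((Φ w ⟨k, hk⟩ : degreeLT (ZMod p) (E + k * (m - 1) + J)) : (ZMod p)[X])
        = (∑ j : Fin J, V f l 0 k (w.1 j).1 * X ^ (j : ℕ))
          + a • (∑ j : Fin J, V f l c k (w.2 j).1 * X ^ (j : ℕ)) := by
      change (((∑ j : Fin J, (LinearMap.mulRight (ZMod p) (X ^ (j : ℕ)) ∘ₗ V f l 0 k ∘ₗ
          (degreeLT (ZMod p) E).subtype ∘ₗ LinearMap.proj j)) ∘ₗ LinearMap.fst (ZMod p)
            (Fin J → degreeLT (ZMod p) E) (Fin J → degreeLT (ZMod p) E)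
        + a • ((∑ j : Fin J, (LinearMap.mulRight (ZMod p) (X ^ (j : ℕ)) ∘ₗ V f l c k ∘ₗ
          (degreeLT (ZMod p) E).subtype ∘ₗ LinearMap.proj j)) ∘ₗ LinearMap.snd (ZMod p)
            (Fin J → degreeLT (ZMod p) E) (Fin J → degreeLT (ZMod p) E)))) w = _
      simp only [LinearMap.add_apply, LinearMap.comp_apply, LinearMap.smul_apply,
        LinearMap.sum_apply, LinearMap.mulRight_apply, Submodule.subtype_apply,
        LinearMap.proj_apply, LinearMap.fst_apply, LinearMap.snd_apply]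
    rw [h1] at h3
    have h4 : (0 : (ZMod p)[X]) = (∑ j : Fin J, V f l 0 k (w.1 j).1 * X ^ (j : ℕ))
          + a • (∑ j : Fin J, V f l c k (w.2 j).1 * X ^ (j : ℕ)) := h3
    rw [h4, smul_eq_C_mul, Finset.mul_sum, ← Finset.sum_add_distrib]
    apply Finset.sum_congr rfl
    intro j _
    ring

end StepH53
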