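import Pool.Agent.W_aaa0df_h53.StepC

set_option autoImplicit false

namespace StepH53

open Polynomial Finset

variable {p : ℕ} [hpF : Fact p.Prime]

lemma eval_iterate_R (f : (ZMod p)[X]) (l c J : ℕ) (a : ZMod p) (r s : Fin J → (ZMod p)[X])
    (hcond : ∀ k < l, ∑ j : Fin J, (V f l 0 k (r j) + C a * V f l c k (s j)) * X ^ (j : ℕ) = 0)
    (x : ZMod p) (hx : f.eval x ^ c = a) (k : ℕ) (hk : k < l) :
    (derivative^[k] (R f l c J r s)).IsRoot x := by
  have hxp : ∀ j : ℕ, x ^ (j * p) = x ^ j := by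
    intro j
    rw [mul_comm, pow_mul, ZMod.pow_card]
  rw [IsRoot, R, iterate_derivative_sum, eval_finsetSum]
  have h1 : ∀ j : Fin J, eval x (derivative^[k] (f ^ (l + 0) * r j * X ^ ((j : ℕ) * p)
        + f ^ (l + c) * s j * X ^ ((j : ℕ) * p)))
      = (f.eval x) ^ (l - k) *
        eval x ((V f l 0 k (r j) + C a * V f l c k (s j)) * X ^ (j : ℕ)) := by
    intro j
    rw [iterate_map_add, iterate_derivative_eq f l 0 j (r j) k hk.le,
      iterate_derivative_eq f l c j (s j) k hk.le]
    simp only [eval_add, eval_mul, eval_pow, eval_X, eval_C, hxp]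
    rw [pow_add (f.eval x) (l - k) c, hx]
    ring
  rw [Finset.sum_congr rfl (fun j _ => h1 j), ← Finset.mul_sum, ← eval_finsetSum, hcond k hk,
    eval_zero, mul_zero]

lemma card_mul_le (P : (ZMod p)[X]) (hP : P ≠ 0) (l : ℕ) (hl : 1 ≤ l) (hlp : l ≤ p)
    (S : Finset (ZMod p)) (hS : ∀ x ∈ S, ∀ k < l, (derivative^[k] P).IsRoot x) :
    l * S.card ≤ P.natDegree := by
  have h1 : ∀ x ∈ S, l ≤ P.roots.count x := by
    intro x hx
    rw [count_roots]
    have h2 : l - 1 < P.rootMultiplicity x := by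
      apply lt_rootMultiplicity_of_isRoot_iterate_derivative_of_mem_nonZeroDivisors hP
      · intro k hk
        exact hS x hx k (by omega)
      · apply mem_nonZeroDivisors_of_ne_zero
        intro h
        rw [ZMod.natCast_eq_zero_iff] at h
        have := (hpF.out.dvd_factorial).1 h
        omega
    omega
  calc l * S.card = ∑ _x ∈ S, l := by rw [Finset.sum_const, smul_eq_mul, mul_comm]
    _ ≤ ∑ x ∈ S, P.roots.count x := Finset.sum_le_sum h1
    _ ≤ ∑ x ∈ P.roots.toFinset, P.roots.count x := by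
        apply Finset.sum_le_sum_of_subset
        intro x hx
        rw [Multiset.mem_toFinset, ← Multiset.count_pos]
        have := h1 x hx
        omega
    _ = Multiset.card P.roots := Multiset.toFinset_sum_count_eq _
    _ ≤ P.natDegree := card_roots' P

/-- the one-sided Stepanov bound -/
lemma one_sided (hp2 : p ≠ 2) (f : (ZMod p)[X]) (hf : Squarefree f) (m : ℕ)
    (hfm : f.natDegree = m) (hm : 1 ≤ m) (hf0 : f.eval 0 ≠ 0) (a : ZMod p)
    (l : ℕ) (hl6 : 6 ≤ l) (hlm : m ≤ l) (hlp : l ^ 2 ≤ p) (hpl : p < (l + 1) ^ 2) :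
    2 * (univ.filter (fun x : ZMod p => f.eval x ^ ((p - 1) / 2) = a)).card
      ≤ p + 3 * m * l + 8 * m := by
  set c := (p - 1) / 2 with hc
  have hp1 : 2 * c + 1 = p := by
    have := hpF.out.two_le
    have hodd : p % 2 = 1 := by
      rcases hpF.out.eq_two_or_odd with h | h
      · exact absurd h hp2
      · exact h
    omega
  set E := (p - m + 1) / 2 with hE
  set J := (l + 1) / 2 + m with hJ
  have hll : l * l ≤ p := by nlinarith
  have h6l : 6 * l ≤ l * l := Nat.mul_le_mul_right l hl6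
  have hmp : m + 2 ≤ p := by omega
  have hE1 : 1 ≤ E := by omega
  have hE2 : 2 * E ≤ p - m + 1 := by omega
  have hE3 : p - m ≤ 2 * E := by omega
  have hJ1 : 1 ≤ J := by omega
  have hJ2 : l + 2 * m ≤ 2 * J := by omega
  have hJ3 : 2 * J ≤ l + 1 + 2 * m := by omega
  -- the counting inequality
  have hcount : ∑ k ∈ Finset.range l, (E + k * (m - 1) + J) < 2 * (J * E) := by
    have h1 : ∑ k ∈ Finset.range l, (E + k * (m - 1) + J)
        = l * E + (∑ k ∈ Finset.range l, k) * (m - 1) + l * J := by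
      rw [Finset.sum_add_distrib, Finset.sum_add_distrib, ← Finset.sum_mul]
      simp
    have h2 : (∑ k ∈ Finset.range l, k) * 2 = l * (l - 1) := Finset.sum_range_id_mul_two l
    obtain ⟨l', rfl⟩ : ∃ l', l = l' + 1 := ⟨l - 1, by omega⟩
    obtain ⟨m', rfl⟩ : ∃ m', m = m' + 1 := ⟨m - 1, by omega⟩
    rw [h1]
    simp only [Nat.add_sub_cancel] at h2 ⊢
    set G := ∑ k ∈ Finset.range (l' + 1), k with hG
    obtain ⟨q, hq⟩ : ∃ q, p = (m' + 1) + q := ⟨p - (m' + 1), by omega⟩
    have hE2' : 2 * E ≤ q + 1 := by omega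
    have hE3' : q ≤ 2 * E := by omega
    have hqge : (l' + 1) * (l' + 1) ≤ m' + 1 + q := by rw [← hq]; exact hll
    have goal2 : 2 * ((l' + 1) * E + G * m' + (l' + 1) * J) < 2 * (2 * (J * E)) := by
      have e1 : 2 * ((l' + 1) * E + G * m' + (l' + 1) * J)
          = (l' + 1) * (2 * E) + (G * 2) * m' + 2 * (l' + 1) * J := by ring
      have e2 : 2 * (2 * (J * E)) = (2 * J) * (2 * E) := by ring
      rw [e1, e2, h2]
      zify at *
      set L : ℤ := (l' : ℤ) + 1 with hL
      set M : ℤ := (m' : ℤ) + 1 with hM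
      have hJE : (2 * (J : ℤ) - L) * (2 * E) ≥ 2 * M * q := by
        have a1 : 2 * (J : ℤ) - L ≥ 2 * M := by linarith
        have a2 : (0 : ℤ) ≤ q := by positivity
        have a3 : (0 : ℤ) ≤ 2 * M := by positivity
        calc (2 * (J : ℤ) - L) * (2 * E) ≥ (2 * M) * (2 * E) := by
              apply mul_le_mul_of_nonneg_right a1; positivity
          _ ≥ 2 * M * q := by
              apply mul_le_mul_of_nonneg_left hE3' a3
      have hLJ : 2 * L * J ≤ L * (L + 1 + 2 * M) := by
        have a3 : (0 : ℤ) ≤ L := by positivity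
        nlinarith
      have hL6 : (6 : ℤ) ≤ L := by linarith
      have hLM : M ≤ L := by linarith
      have hM1 : (1 : ℤ) ≤ M := by linarith
      have hm' : (m' : ℤ) = M - 1 := by linarith
      have hl' : (l' : ℤ) = L - 1 := by linarith
      rw [hm', hl']
      have hfin : L * (L - 1) * (M - 1) + L * (L + 1 + 2 * M) < 2 * M * q := by
        have b1 : 2 * M * q ≥ 2 * M * (L * L - M) := by
          apply mul_le_mul_of_nonneg_left _ (by linarith)
          linarith
        have b2 : L * (L - 1) * (M - 1) + L * (L + 1 + 2 * M) < 2 * M * (L * L - M) := by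
          nlinarith [mul_nonneg (by linarith : (0 : ℤ) ≤ M - 1) (by nlinarith : (0 : ℤ) ≤ L * L - 6 * L),
            mul_nonneg (by linarith : (0 : ℤ) ≤ M) (by nlinarith : (0 : ℤ) ≤ L * L - 6 * L),
            mul_nonneg (by linarith : (0 : ℤ) ≤ M) (by linarith : (0 : ℤ) ≤ L - M)]
        linarith
      nlinarith
    omega
  obtain ⟨r, s, hr, hs, ⟨j0, hj0⟩, hcond⟩ := exists_coeffs f l c J E m hfm.le hm hE1 a hcount
  have hR : R f l c J r s ≠ 0 := by
    intro h
    have := R_ne_zero hp2 f hf (by omega) hf0 E l J (by omega) r s hr hs h j0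
    rcases hj0 with h1 | h1
    · exact h1 this.1
    · exact h1 this.2
  have h1 := card_mul_le (R f l c J r s) hR l (by omega) (by omega)
    (univ.filter (fun x : ZMod p => f.eval x ^ c = a)) (by
      intro x hx k hk
      exact eval_iterate_R f l c J a r s hcond x (Finset.mem_filter.1 hx).2 k hk)
  have h2 := natDegree_R_le f l c J E m hE1 hJ1 hfm.le r s hr hs
  set n := (univ.filter (fun x : ZMod p => f.eval x ^ c = a)).card with hn
  have h3 : l * n ≤ l * m + c * m + (E - 1) + (J - 1) * p := h1.trans h2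
  -- final computation
  have h4 : l * (2 * n) ≤ l * (p + 3 * m * l + 8 * m) := by
    have h5 : 2 * (l * n) ≤ 2 * (l * m) + (2 * c) * m + 2 * (E - 1) + 2 * (J - 1) * p := by
      calc 2 * (l * n) ≤ 2 * (l * m + c * m + (E - 1) + (J - 1) * p) := Nat.mul_le_mul_left 2 h3
        _ = _ := by ring
    have h6 : 2 * (E - 1) ≤ p - m := by omega
    have h7 : 2 * (J - 1) * p ≤ (l + 2 * m - 1) * p := Nat.mul_le_mul_right p (by omega)
    have h8 : 2 * c = p - 1 := by omega
    rw [h8] at h5
    have h9 : p ≤ l * l + 2 * l := by nlinarith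
    obtain ⟨p', hp'⟩ : ∃ p', p = p' + m := ⟨p - m, by omega⟩
    obtain ⟨l', hl'⟩ : ∃ l', l = l' + 1 := ⟨l - 1, by omega⟩
    have h10 : p - m = p' := by omega
    have h11 : l + 2 * m - 1 = l' + 2 * m := by omega
    rw [h10] at h6
    rw [h11] at h7
    have h12 : (p - 1) * m + m = p * m := by
      obtain ⟨t, ht⟩ : ∃ t, p = t + 1 := ⟨p - 1, by omega⟩
      rw [ht]; simp; ring
    nlinarith
  exact Nat.le_of_mul_le_mul_left h4 (by omega)

end StepH53
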