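import Pool.Agent.W_aaa0df_h53.StepD

set_option autoImplicit false

namespace StepH53

open Polynomial Finset

variable {p : ℕ} [hpF : Fact p.Prime]

lemma one_sided' (hp2 : p ≠ 2) (f : (ZMod p)[X]) (hf : Squarefree f) (m : ℕ)
    (hfm : f.natDegree = m) (hm : 1 ≤ m) (a : ZMod p)
    (l : ℕ) (hl6 : 6 ≤ l) (hlm : m ≤ l) (hlp : l ^ 2 ≤ p) (hpl : p < (l + 1) ^ 2) :
    2 * (univ.filter (fun x : ZMod p => f.eval x ^ ((p - 1) / 2) = a)).card
      ≤ p + 3 * m * l + 8 * m := by
  -- translate so that `f 0 ≠ 0`
  have hex : ∃ t : ZMod p, f.eval t ≠ 0 := by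
    by_contra hcon
    push Not at hcon
    have h1 : f = 0 := by
      apply Polynomial.eq_zero_of_natDegree_lt_card_of_eval_eq_zero' f univ
      · intro x _; exact hcon x
      · rw [Finset.card_univ, ZMod.card, hfm]
        nlinarith
    exact hf.ne_zero h1
  obtain ⟨t, ht⟩ := hex
  set g : (ZMod p)[X] := f.comp (X + C t) with hg
  have hgsq : Squarefree g := by
    have h1 : g = algEquivAevalXAddC t f := by
      rw [hg, algEquivAevalXAddC_apply, aeval_def]
      rfl
    intro q hq
    have h2 : (algEquivAevalXAddC t).symm q * (algEquivAevalXAddC t).symm q ∣ f := by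
      obtain ⟨w, hw⟩ := hq
      refine ⟨(algEquivAevalXAddC t).symm w, ?_⟩
      rw [← map_mul, ← map_mul, ← hw, h1, AlgEquiv.symm_apply_apply]
    have h3 := hf _ h2
    have h4 := h3.map (algEquivAevalXAddC t)
    rwa [AlgEquiv.apply_symm_apply] at h4
  have hgm : g.natDegree = m := by
    rw [hg, natDegree_comp, natDegree_X_add_C, mul_one, hfm]
  have hg0 : g.eval 0 ≠ 0 := by
    rw [hg, eval_comp]; simpa using ht
  have h1 := one_sided hp2 g hgsq m hgm hm hg0 a l hl6 hlm hlp hpl
  have h2 : (univ.filter (fun x : ZMod p => g.eval x ^ ((p - 1) / 2) = a)).card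
      = (univ.filter (fun x : ZMod p => f.eval x ^ ((p - 1) / 2) = a)).card := by
    apply Finset.card_bij (fun x _ => x + t)
    · intro x hx
      simp only [Finset.mem_filter, Finset.mem_univ, true_and] at hx ⊢
      rw [hg, eval_comp] at hx
      simpa using hx
    · intro x _ y _ h
      exact add_right_cancel h
    · intro y hy
      refine ⟨y - t, ?_, by ring⟩
      simp only [Finset.mem_filter, Finset.mem_univ, true_and] at hy ⊢
      rw [hg, eval_comp]
      simpa using hy
  rw [← h2]; exact h1

/-- **Stepanov's bound** for quadratic character sums over a prime field: for a squarefree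
polynomial `f` of degree `m ≥ 1`, `|∑ χ(f(x))| ≤ 3 m √p + 20 m`. -/
theorem stepanov (hp2 : p ≠ 2) (f : (ZMod p)[X]) (hf : Squarefree f) (hm : 1 ≤ f.natDegree) :
    |∑ x : ZMod p, quadraticChar (ZMod p) (f.eval x)|
      ≤ 3 * (f.natDegree : ℤ) * (Nat.sqrt p : ℤ) + 20 * f.natDegree := by
  classical
  set m := f.natDegree with hmdef
  set l := Nat.sqrt p with hl
  have hlp : l ^ 2 ≤ p := Nat.sqrt_le' p
  have hpl : p < (l + 1) ^ 2 := Nat.lt_succ_sqrt' p
  have hchar : ringChar (ZMod p) ≠ 2 := by
    rw [ZMod.ringChar_zmod_n]; exact hp2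
  have htriv : |∑ x : ZMod p, quadraticChar (ZMod p) (f.eval x)| ≤ (p : ℤ) := by
    calc |∑ x : ZMod p, quadraticChar (ZMod p) (f.eval x)|
        ≤ ∑ x : ZMod p, |quadraticChar (ZMod p) (f.eval x)| := Finset.abs_sum_le_sum_abs _ _
      _ ≤ ∑ _x : ZMod p, 1 := by
          apply Finset.sum_le_sum
          intro x _
          by_cases h : f.eval x = 0
          · rw [h, quadraticChar_zero]; norm_num
          · rcases quadraticChar_dichotomy h with h1 | h1 <;> rw [h1] <;> norm_num
      _ = (p : ℤ) := by
          rw [Finset.sum_const, Finset.card_univ, ZMod.card]; simp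
  by_cases hsmall : l < 6 ∨ l < m
  · refine htriv.trans ?_
    have h1 : (p : ℤ) ≤ l * l + 2 * l := by
      have : p ≤ l * l + 2 * l := by nlinarith
      exact_mod_cast this
    have hm1 : (1 : ℤ) ≤ m := by exact_mod_cast hm
    have hl0 : (0 : ℤ) ≤ l := by positivity
    rcases hsmall with h | h
    · have h2 : (l : ℤ) ≤ 5 := by exact_mod_cast (by omega : l ≤ 5)
      nlinarith
    · have h2 : (l : ℤ) + 1 ≤ m := by exact_mod_cast h
      nlinarith
  · push Not at hsmall
    obtain ⟨hl6, hlm⟩ := hsmall
    have hf0 : f ≠ 0 := hf.ne_zero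
    have hcard : Fintype.card (ZMod p) / 2 = (p - 1) / 2 := by
      rw [ZMod.card]
      have := hpF.out.two_le
      have hodd : p % 2 = 1 := by
        rcases hpF.out.eq_two_or_odd with h | h
        · exact absurd h hp2
        · exact h
      omega
    have hval : ∀ x : ZMod p, ((quadraticChar (ZMod p) (f.eval x) : ℤ) : ZMod p)
        = f.eval x ^ ((p - 1) / 2) := by
      intro x
      rw [quadraticChar_eq_pow_of_char_ne_two' hchar, hcard]
    set A := univ.filter (fun x : ZMod p => f.eval x ^ ((p - 1) / 2) = 1) with hA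
    set B := univ.filter (fun x : ZMod p => f.eval x ^ ((p - 1) / 2) = -1) with hB
    set Z := univ.filter (fun x : ZMod p => f.eval x = 0) with hZ
    have hA2 := one_sided' hp2 f hf m rfl hm 1 l hl6 hlm hlp hpl
    have hB2 := one_sided' hp2 f hf m rfl hm (-1) l hl6 hlm hlp hpl
    rw [← hA] at hA2
    rw [← hB] at hB2
    have hZ2 : Z.card ≤ m := by
      have h1 : Z ⊆ f.roots.toFinset := by
        intro x hx
        rw [Multiset.mem_toFinset, mem_roots hf0]
        exact (Finset.mem_filter.1 hx).2
      calc Z.card ≤ f.roots.toFinset.card := Finset.card_le_card h1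
        _ ≤ Multiset.card f.roots := Multiset.toFinset_card_le _
        _ ≤ m := card_roots' f
    have hne : (1 : ZMod p) ≠ -1 := by
      intro h
      have h2 : ((2 : ℕ) : ZMod p) = 0 := by
        push_cast
        linear_combination h
      rw [ZMod.natCast_eq_zero_iff] at h2
      exact hp2 ((Nat.prime_dvd_prime_iff_eq hpF.out Nat.prime_two).1 h2)
    -- the value of the character
    have hchi : ∀ x : ZMod p, (quadraticChar (ZMod p) (f.eval x) : ℤ)
        = (if x ∈ A then 1 else 0) - (if x ∈ B then 1 else 0) := by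
      intro x
      by_cases h : f.eval x = 0
      · have hc0 : (p - 1) / 2 ≠ 0 := by
          have : 36 ≤ p := by nlinarith
          omega
        have hxA : x ∉ A := by
          intro hx
          have := (Finset.mem_filter.1 hx).2
          rw [h, zero_pow hc0] at this
          exact zero_ne_one this
        have hxB : x ∉ B := by
          intro hx
          have := (Finset.mem_filter.1 hx).2
          rw [h, zero_pow hc0] at this
          have h3 : (1 : ZMod p) = 0 := by linear_combination this
          exact one_ne_zero h3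
        rw [h, quadraticChar_zero, if_neg hxA, if_neg hxB]; norm_num
      · have hv := hval x
        rcases quadraticChar_dichotomy h with h1 | h1
        · rw [h1] at hv ⊢
          have hv' : f.eval x ^ ((p - 1) / 2) = 1 := by rw [← hv]; norm_num
          have hxA : x ∈ A := Finset.mem_filter.2 ⟨Finset.mem_univ _, hv'⟩
          have hxB : x ∉ B := by
            intro hx
            have h4 := (Finset.mem_filter.1 hx).2
            exact hne (hv'.symm.trans h4)
          rw [if_pos hxA, if_neg hxB]; norm_num
        · rw [h1] at hv ⊢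
          have hv' : f.eval x ^ ((p - 1) / 2) = -1 := by rw [← hv]; norm_num
          have hxB : x ∈ B := Finset.mem_filter.2 ⟨Finset.mem_univ _, hv'⟩
          have hxA : x ∉ A := by
            intro hx
            have h4 := (Finset.mem_filter.1 hx).2
            exact hne (h4.symm.trans hv')
          rw [if_neg hxA, if_pos hxB]; norm_num
    have hsum : ∑ x : ZMod p, quadraticChar (ZMod p) (f.eval x) = (A.card : ℤ) - B.card := by
      rw [Finset.sum_congr rfl (fun x _ => hchi x), Finset.sum_sub_distrib]
      simp
    have htot : p ≤ A.card + B.card + Z.card := by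
      have h1 : (univ : Finset (ZMod p)) ⊆ A ∪ B ∪ Z := by
        intro x _
        by_cases h : f.eval x = 0
        · exact Finset.mem_union_right _ (Finset.mem_filter.2 ⟨Finset.mem_univ _, h⟩)
        · apply Finset.mem_union_left
          have hv := hval x
          rcases quadraticChar_dichotomy h with h1 | h1
          · apply Finset.mem_union_left
            refine Finset.mem_filter.2 ⟨Finset.mem_univ _, ?_⟩
            rw [← hv, h1]; norm_num
          · apply Finset.mem_union_right
            refine Finset.mem_filter.2 ⟨Finset.mem_univ _, ?_⟩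
            rw [← hv, h1]; norm_num
      have h2 := Finset.card_le_card h1
      rw [Finset.card_univ, ZMod.card] at h2
      have h3 := Finset.card_union_le (A ∪ B) Z
      have h4 := Finset.card_union_le A B
      omega
    rw [hsum]
    zify at hA2 hB2 hZ2 htot
    have hm0 : (0 : ℤ) ≤ m := by positivity
    rw [abs_le]
    constructor <;> nlinarith

/-- real form -/
theorem stepanov_real (hp2 : p ≠ 2) (f : (ZMod p)[X]) (hf : Squarefree f) (hm : 1 ≤ f.natDegree) :
    |((∑ x : ZMod p, quadraticChar (ZMod p) (f.eval x) : ℤ) : ℝ)|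
      ≤ 23 * (f.natDegree : ℝ) * Real.sqrt p := by
  have h1 := stepanov hp2 f hf hm
  have h2 : ((Nat.sqrt p : ℕ) : ℝ) ≤ Real.sqrt p := Real.nat_sqrt_le_real_sqrt
  have h3 : (1 : ℝ) ≤ Real.sqrt p := by
    rw [Real.one_le_sqrt]
    exact_mod_cast hpF.out.one_le
  have h4 : |((∑ x : ZMod p, quadraticChar (ZMod p) (f.eval x) : ℤ) : ℝ)|
      ≤ 3 * (f.natDegree : ℝ) * (Nat.sqrt p : ℝ) + 20 * f.natDegree := by
    exact_mod_cast h1
  have h5 : (0 : ℝ) ≤ f.natDegree := by positivity
  nlinarith [mul_le_mul_of_nonneg_left h2 h5, mul_le_mul_of_nonneg_left h3 h5]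

end StepH53
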